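import Pool.Agent.H92.Simon.Defs

/-!
Binary numbers: the value of a set of digits.
-/

namespace Pool.Agent.H92.Simon

open Finset.Colex

variable {V : Type*} [Finite V] {le : V → V → Prop}

/-- the rank -/
noncomputable def rk (le : V → V → Prop) (x : V) : ℕ := {y | le y x ∧ y ≠ x}.ncard

theorem rk_lt (h : IsLin le) {x y : V} (h1 : le x y) (h2 : x ≠ y) : rk le x < rk le y := by
  unfold rk
  refine Set.ncard_lt_ncard ?_ (Set.toFinite _)
  rw [Set.ssubset_iff_of_subset]
  · exact ⟨x, ⟨h1, h2⟩, fun h3 => h3.2 rfl⟩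
  · rintro z ⟨h3, h4⟩
    refine ⟨h.2.1 _ _ _ h3 h1, ?_⟩
    rintro rfl
    exact h2 (h.2.2.1 _ _ h1 h3)

theorem rk_lt_iff (h : IsLin le) {x y : V} : rk le x < rk le y ↔ (le x y ∧ x ≠ y) := by
  constructor
  · intro h1
    have hne : x ≠ y := by
      rintro rfl
      exact lt_irrefl _ h1
    rcases h.2.2.2 x y with h2 | h2
    · exact ⟨h2, hne⟩
    · exact absurd (rk_lt h h2 hne.symm) (by omega)
  · rintro ⟨h1, h2⟩
    exact rk_lt h h1 h2

theorem rk_inj (h : IsLin le) : Function.Injective (rk le) := by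
  intro x y hxy
  by_contra hne
  rcases h.2.2.2 x y with h2 | h2
  · exact absurd (rk_lt h h2 hne) (by omega)
  · exact absurd (rk_lt h h2 (Ne.symm hne)) (by omega)

theorem rk_lt_card (x : V) : rk le x < Nat.card V := by
  unfold rk
  rw [← Set.ncard_univ]
  refine Set.ncard_lt_ncard ?_ (Set.toFinite _)
  rw [Set.ssubset_univ_iff]
  intro h
  have : x ∈ {y | le y x ∧ y ≠ x} := by
    rw [h]
    trivial
  exact this.2 rfl

theorem exists_rk (h : IsLin le) {n : ℕ} (hn : n < Nat.card V) : ∃ x, rk le x = n := by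
  let f : V → Fin (Nat.card V) := fun x => ⟨rk le x, rk_lt_card x⟩
  have hf : Function.Injective f := by
    intro x y hxy
    exact rk_inj h (congrArg Fin.val hxy)
  have hb : Function.Surjective f := by
    have := Fintype.ofFinite V
    have h1 : Fintype.card V = Fintype.card (Fin (Nat.card V)) := by
      rw [Fintype.card_fin, Nat.card_eq_fintype_card]
    exact ((Fintype.bijective_iff_injective_and_card f).2 ⟨hf, h1⟩).2
  obtain ⟨x, hx⟩ := hb ⟨n, hn⟩
  exact ⟨x, congrArg Fin.val hx⟩

open Classical in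
/-- positions of the digits -/
noncomputable def img (le : V → V → Prop) (S : Set V) : Finset ℕ := (S.toFinite.toFinset).image (rk le)

theorem mem_img {S : Set V} {n : ℕ} : n ∈ img le S ↔ ∃ x ∈ S, rk le x = n := by
  classical
  unfold img
  simp only [Finset.mem_image, Set.Finite.mem_toFinset]

theorem rk_mem_img (h : IsLin le) {S : Set V} {x : V} : rk le x ∈ img le S ↔ x ∈ S := by
  rw [mem_img]
  constructor
  · rintro ⟨y, hy, hxy⟩
    rwa [← rk_inj h hxy]
  · intro hx
    exact ⟨x, hx, rfl⟩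

theorem val_eq (h : IsLin le) (S : Set V) : val le S = ∑ n ∈ img le S, 2 ^ n := by
  classical
  unfold val img
  rw [Finset.sum_image (fun x _ y _ hxy => rk_inj h hxy)]
  rw [finsum_mem_eq_finite_toFinset_sum _ S.toFinite]
  rfl

theorem val_lt_iff (h : IsLin le) {S T : Set V} :
    val le S < val le T ↔ ∃ x, x ∈ T ∧ x ∉ S ∧ ∀ y, y ∈ S → y ∉ T → (le y x ∧ y ≠ x) := by
  rw [val_eq h, val_eq h, Finset.geomSum_lt_geomSum_iff_toColex_lt_toColex le_rfl,
    toColex_lt_toColex_iff_exists_forall_lt]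
  constructor
  · rintro ⟨n, hn, hn', hall⟩
    obtain ⟨x, hx, rfl⟩ := mem_img.1 hn
    rw [rk_mem_img h] at hn'
    refine ⟨x, hx, hn', fun y hy hy' => ?_⟩
    have := hall (rk le y) ((rk_mem_img h).2 hy) (fun hc => hy' ((rk_mem_img h).1 hc))
    exact (rk_lt_iff h).1 this
  · rintro ⟨x, hx, hx', hall⟩
    refine ⟨rk le x, (rk_mem_img h).2 hx, fun hc => hx' ((rk_mem_img h).1 hc), ?_⟩
    intro n hn hn'
    obtain ⟨y, hy, rfl⟩ := mem_img.1 hn
    exact (rk_lt_iff h).2 (hall y hy (fun hc => hn' ((rk_mem_img h).2 hc)))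

theorem val_inj (h : IsLin le) {S T : Set V} (hST : val le S = val le T) : S = T := by
  rw [val_eq h, val_eq h] at hST
  have := Finset.geomSum_injective le_rfl hST
  ext x
  rw [← rk_mem_img h, ← rk_mem_img h (S := T), this]

theorem val_lt (h : IsLin le) (S : Set V) : val le S < 2 ^ Nat.card V := by
  rw [val_eq h]
  refine Nat.geomSum_lt le_rfl ?_
  intro n hn
  obtain ⟨x, _, rfl⟩ := mem_img.1 hn
  exact rk_lt_card x

theorem exists_val (h : IsLin le) {n : ℕ} (hn : n < 2 ^ Nat.card V) : ∃ S : Set V, val le S = n := by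
  classical
  refine ⟨{x | rk le x ∈ n.bitIndices.toFinset}, ?_⟩
  rw [val_eq h]
  have : img le {x | rk le x ∈ n.bitIndices.toFinset} = n.bitIndices.toFinset := by
    ext m
    rw [mem_img]
    constructor
    · rintro ⟨x, hx, rfl⟩
      exact hx
    · intro hm
      have h1 : m < Nat.card V := by
        rw [List.mem_toFinset] at hm
        have h2 := Nat.two_pow_le_of_mem_bitIndices hm
        exact (Nat.pow_lt_pow_iff_right (by norm_num : 1 < 2)).1 (lt_of_le_of_lt h2 hn)
      obtain ⟨x, rfl⟩ := exists_rk h h1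
      exact ⟨x, hm, rfl⟩
  rw [this]
  exact Finset.sum_toFinset_bitIndices_two_pow n

theorem val_empty (h : IsLin le) : val le (∅ : Set V) = 0 := by
  unfold val
  simp

theorem val_eq_zero (h : IsLin le) {S : Set V} : val le S = 0 ↔ S = ∅ := by
  constructor
  · intro h1
    exact val_inj h (h1.trans (val_empty h).symm)
  · rintro rfl
    exact val_empty h

/-- the full set has the greatest value -/
theorem val_univ (h : IsLin le) : val le (Set.univ : Set V) + 1 = 2 ^ Nat.card V := by
  obtain ⟨S, hS⟩ := exists_val (V := V) h (n := 2 ^ Nat.card V - 1) (by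
    have : 0 < 2 ^ Nat.card V := by positivity
    omega)
  have h1 := val_lt h (Set.univ : Set V)
  have h2 : ¬ val le (Set.univ : Set V) < val le S := by
    rw [val_lt_iff h]
    rintro ⟨x, _, h3, _⟩
    exact h3 trivial
  have : 0 < 2 ^ Nat.card V := by positivity
  omega

end Pool.Agent.H92.Simon
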