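import Pool.Agent.H92.Simon.Core

/-!
Certificates for classes of Simon's congruence.
-/

namespace Pool.Agent.H92.Simon

open List

variable {α : Type*} [DecidableEq α] {k : ℕ}

/-- `y` reduces to `s` after the reversed prefix `P` -/
inductive Ins (k : ℕ) : List α → List α → List α → Prop
  | nil (P : List α) : Ins k P [] []
  | keep (P : List α) (a : α) (y s : List α) : Ins k (a :: P) y s → Ins k P (a :: y) (a :: s)
  | skip (P : List α) (a : α) (y s : List α) : Ins k (a :: P) y s → k ≤ vec P a + vec s a →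
      Ins k P (a :: y) s

theorem Ins.sim {P y s : List α} (h : Ins k P y s) : Sim k (wd P y) (wd P s) := by
  induction h with
  | nil P => exact Sim.refl _
  | keep P a y s _ ih => exact ih
  | skip P a y s _ h ih => exact ih.trans (crit (a := a) h)

/-- deleting inessential letters from right to left -/
def del (k : ℕ) : List α → List α → List α
  | _, [] => []
  | P, a :: y => if k ≤ vec P a + vec (del k (a :: P) y) a then del k (a :: P) y
      else a :: del k (a :: P) y

theorem ins_del (y : List α) : ∀ P : List α, Ins k P y (del k P y) := by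
  induction y with
  | nil => exact fun P => Ins.nil P
  | cons a y ih =>
    intro P
    unfold del
    split_ifs with h
    · exact Ins.skip _ _ _ _ (ih _) h
    · exact Ins.keep _ _ _ _ (ih _)

theorem red_del (y : List α) : ∀ P P' : List α, P' <+ P →
    Sim k (wd P' (del k P y)) (wd P y) → Red k P' (del k P y) := by
  induction y with
  | nil =>
    intro P P' _ _
    trivial
  | cons a y ih =>
    intro P P' hP hs
    unfold del at hs ⊢
    split_ifs at hs ⊢ with h
    · exact ih (a :: P) P' (hP.cons a) hs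
    · refine ⟨?_, ih (a :: P) (a :: P') (hP.cons_cons a) hs⟩
      by_contra hcon
      rw [not_lt] at hcon
      have h1 := crit (a := a) hcon
      have h2 : Sim k (wd P (a :: y)) (wd P (a :: del k (a :: P) y)) := (ins_del y (a :: P)).sim
      have h3 : Sim k (wd P' (del k (a :: P) y)) (wd P (a :: del k (a :: P) y)) :=
        h1.symm.trans (hs.trans h2)
      have h4 : Sim k (wd P (del k (a :: P) y)) (wd P (a :: del k (a :: P) y)) :=
        h3.sandwich (wd_sublist hP (List.Sublist.refl _))
          (wd_sublist (List.Sublist.refl _) (List.sublist_cons_self _ _))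
      exact h (crit' h4.symm)

theorem exists_red (w : List α) : ∃ s, Ins k [] w s ∧ Red k [] s ∧ Sim k s w :=
  ⟨del k [] w, ins_del w [], red_del w [] [] (List.Sublist.refl _) (ins_del w []).sim.symm,
    (ins_del w []).sim.symm⟩

/-- capped left vector -/
def cv (k : ℕ) (P : List α) : α → ℕ := fun b => min k (vec P b)

/-- complement of the capped right vector -/
def kv (k : ℕ) (q : List α) : α → ℕ := fun b => k - vec q b

/-- the update of capped vectors -/
def crd (k : ℕ) (a : α) (m : α → ℕ) : α → ℕ :=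
  fun b => if b = a then min k (m a + 1) else min (m b) (m a + 1)

/-- the update of complements -/
def krd (a : α) (κ : α → ℕ) : α → ℕ := fun b => if b = a then κ a - 1 else max (κ b) (κ a - 1)

theorem cv_nil : cv k ([] : List α) = fun _ => 0 := by
  funext b
  simp [cv, vec]

theorem kv_nil : kv k ([] : List α) = fun _ => k := by
  funext b
  simp [kv, vec]

theorem cv_cons (a : α) (P : List α) : cv k (a :: P) = crd k a (cv k P) := by
  funext b
  simp only [cv, crd, vec]
  split_ifs <;> omega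

theorem kv_cons (a : α) (q : List α) : kv k (a :: q) = krd a (kv k q) := by
  funext b
  simp only [kv, krd, vec]
  split_ifs <;> omega

theorem cv_congr {P P' : List α} (h : vec P = vec P') : cv k P = cv k P' := by
  funext b
  simp only [cv, h]

theorem kv_congr {P P' : List α} (h : vec P = vec P') : kv k P = kv k P' := by
  funext b
  simp only [kv, h]

/-- the local conditions on a certificate -/
structure Cert (k : ℕ) (C : (α → ℕ) → (α → ℕ) → Prop) (E : (α → ℕ) → α → Prop) : Prop where
  fn : ∀ {l κ κ'}, C l κ → C l κ' → κ = κ'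
  edge : ∀ {l a}, E l a → ∃ κ, C l (krd a κ) ∧ C (crd k a l) κ ∧ l a < κ a
  swap : ∀ {l a c κ}, E l a → E (crd k a l) c → C (crd k c (crd k a l)) κ → a ≠ c → l a = l c →
    κ a = κ c → l a + 1 = κ a → E l c ∧ E (crd k c l) a ∧ C (crd k c l) (krd a κ)

variable {C : (α → ℕ) → (α → ℕ) → Prop} {E : (α → ℕ) → α → Prop}

/-- one step of the automaton -/
def Step (k : ℕ) (C : (α → ℕ) → (α → ℕ) → Prop) (E : (α → ℕ) → α → Prop)
    (s : (α → ℕ) × (α → ℕ)) (a : α) (t : (α → ℕ) × (α → ℕ)) : Prop :=
  t.1 = crd k a s.1 ∧ ((t.2 = s.2 ∧ ∃ κ, C s.2 κ ∧ κ a ≤ s.1 a) ∨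
    (E s.2 a ∧ t.2 = crd k a s.2))

/-- paths of the automaton -/
def Path (k : ℕ) (C : (α → ℕ) → (α → ℕ) → Prop) (E : (α → ℕ) → α → Prop) :
    (α → ℕ) × (α → ℕ) → List α → (α → ℕ) × (α → ℕ) → Prop
  | s, [], t => s = t
  | s, a :: y, t => ∃ u, Step k C E s a u ∧ Path k C E u y t

theorem path_append (x y : List α) : ∀ s t : (α → ℕ) × (α → ℕ),
    Path k C E s (x ++ y) t ↔ ∃ u, Path k C E s x u ∧ Path k C E u y t := by
  induction x with
  | nil =>
    intro s t
    simp [Path]
  | cons a x ih =>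
    intro s t
    simp only [List.cons_append, Path, ih]
    constructor
    · rintro ⟨u, h1, v, h2, h3⟩
      exact ⟨v, ⟨u, h1, h2⟩, h3⟩
    · rintro ⟨v, ⟨u, h1, h2⟩, h3⟩
      exact ⟨u, h1, v, h2, h3⟩

/-- the word `s` is accepted by edges -/
def GoodE (k : ℕ) (C : (α → ℕ) → (α → ℕ) → Prop) (E : (α → ℕ) → α → Prop) (lf : α → ℕ) :
    List α → List α → Prop
  | P, [] => cv k P = lf
  | P, a :: s => E (cv k P) a ∧ C (cv k P) (kv k (a :: s)) ∧ GoodE k C E lf (a :: P) s

variable {lf : α → ℕ}

theorem GoodE.congr {P P' s : List α} (h : GoodE k C E lf P s) (h' : vec P = vec P') :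
    GoodE k C E lf P' s := by
  induction s generalizing P P' with
  | nil =>
    unfold GoodE at h ⊢
    rw [← cv_congr h']
    exact h
  | cons a s ih =>
    unfold GoodE at h ⊢
    rw [← cv_congr h']
    exact ⟨h.1, h.2.1, ih h.2.2 (vec_congr_cons a h')⟩

theorem GoodE.cert (hlf : C lf (fun _ => k)) {P s : List α} (h : GoodE k C E lf P s) :
    C (cv k P) (kv k s) := by
  cases s with
  | nil =>
    unfold GoodE at h
    rw [h, kv_nil]
    exact hlf
  | cons a s =>
    unfold GoodE at h
    exact h.2.1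

theorem GoodE.sw (hC : Cert k C E) (hlf : C lf (fun _ => k)) {P s s' : List α} (h : Sw k P s s')
    (hg : GoodE k C E lf P s) : GoodE k C E lf P s' := by
  induction h with
  | here P c a q h1 h2 h3 h4 =>
    unfold GoodE at hg
    obtain ⟨g1, g2, g3⟩ := hg
    unfold GoodE at g3
    obtain ⟨g3, g4, g5⟩ := g3
    have g6 := g5.cert hlf
    rw [cv_cons] at g3
    rw [cv_cons, cv_cons] at g6
    obtain ⟨i1, i2, i3⟩ := hC.swap g1 g3 g6 h1 (by simp only [cv, h2]) (by simp only [kv, h3])
      (by simp only [cv, kv]; omega)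
    rw [← kv_cons, ← cv_cons] at i3
    rw [← cv_cons] at i2
    unfold GoodE
    refine ⟨i1, ?_, ?_⟩
    · rw [← kv_congr (vec_swap h3)]
      exact g2
    · unfold GoodE
      exact ⟨i2, i3, g5.congr (vec_swap h2.symm)⟩
  | there P b q q' hs ih =>
    unfold GoodE at hg ⊢
    refine ⟨hg.1, ?_, ih hg.2.2⟩
    rw [← kv_congr (vec_congr_cons b hs.vec_eq)]
    exact hg.2.1

theorem GoodE.sws (hC : Cert k C E) (hlf : C lf (fun _ => k)) {P s s' : List α}
    (h : Relation.ReflTransGen (Sw k P) s s') (hg : GoodE k C E lf P s) :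
    GoodE k C E lf P s' := by
  induction h with
  | refl => exact hg
  | tail _ h ih => exact GoodE.sw hC hlf h ih

theorem path_good (hC : Cert k C E) (hlf : C lf (fun _ => k)) (y : List α) :
    ∀ (P P' : List α) (m : α → ℕ), Path k C E (cv k P, cv k P') y (m, lf) →
      ∃ s, Ins k P y s ∧ GoodE k C E lf P' s ∧ Red k P' s := by
  induction y with
  | nil =>
    intro P P' m h
    unfold Path at h
    rw [Prod.mk.injEq] at h
    exact ⟨[], Ins.nil _, h.2, trivial⟩
  | cons a y ih =>
    intro P P' m h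
    unfold Path at h
    obtain ⟨⟨m1, l1⟩, ⟨h1, h2⟩, h3⟩ := h
    simp only at h1 h2
    rw [← cv_cons] at h1
    subst h1
    rcases h2 with ⟨rfl, κ, hκ, hle⟩ | ⟨hE, rfl⟩
    · obtain ⟨s, i1, i2, i3⟩ := ih (a :: P) P' m h3
      refine ⟨s, Ins.skip _ _ _ _ i1 ?_, i2, i3⟩
      have := hC.fn hκ (i2.cert hlf)
      subst this
      simp only [kv, cv] at hle
      omega
    · rw [← cv_cons] at h3
      obtain ⟨s, i1, i2, i3⟩ := ih (a :: P) (a :: P') m h3
      obtain ⟨κ, j1, j2, j3⟩ := hC.edge hE
      rw [← cv_cons] at j2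
      have := hC.fn j2 (i2.cert hlf)
      subst this
      rw [← kv_cons] at j1
      refine ⟨a :: s, Ins.keep _ _ _ _ i1, ⟨hE, j1, i2⟩, ?_, i3⟩
      simp only [kv, cv] at j3
      omega

theorem good_path (hlf : C lf (fun _ => k)) {P y s : List α} (h : Ins k P y s) :
    ∀ P' : List α, GoodE k C E lf P' s →
      ∃ m, Path k C E (cv k P, cv k P') y (m, lf) := by
  induction h with
  | nil P =>
    intro P' hg
    unfold GoodE at hg
    exact ⟨cv k P, by unfold Path; rw [hg]⟩
  | keep P a y s _ ih =>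
    intro P' hg
    unfold GoodE at hg
    obtain ⟨m, hm⟩ := ih (a :: P') hg.2.2
    refine ⟨m, _, ⟨?_, Or.inr ⟨hg.1, ?_⟩⟩, hm⟩
    · exact cv_cons _ _
    · exact cv_cons _ _
  | skip P a y s _ hk ih =>
    intro P' hg
    obtain ⟨m, hm⟩ := ih P' hg
    refine ⟨m, (cv k (a :: P), cv k P'), ⟨?_, Or.inl ⟨rfl, _, hg.cert hlf, ?_⟩⟩, hm⟩
    · exact cv_cons _ _
    · simp only [kv, cv]
      omega

/-- the automaton of a certificate accepts whole classes -/
theorem Cert.complete (hC : Cert k C E) (hlf : C lf (fun _ => k)) {w x : List α} {m : α → ℕ}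
    (hw : Path k C E ((fun _ => 0), (fun _ => 0)) w (m, lf)) (hx : Sim k w x) :
    ∃ m', Path k C E ((fun _ => 0), (fun _ => 0)) x (m', lf) := by
  rw [← cv_nil (k := k)] at hw ⊢
  obtain ⟨s, h1, h2, h3⟩ := path_good hC hlf w [] [] m hw
  obtain ⟨s', i1, i2, i3⟩ := exists_red (k := k) x
  have h4 : Sim k (wd [] s') (wd [] s) := i3.trans (hx.symm.trans h1.sim)
  have h5 := conn s' [] s i2 h3 h4
  exact good_path hlf i1 [] (GoodE.sws hC hlf h5 h2)

/-! existence -/

/-- the reduced words congruent to `w` -/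
def RedOf (k : ℕ) (w s : List α) : Prop := Red k [] s ∧ Sim k s w

variable {w : List α}

theorem RedOf.red {P q : List α} (h : RedOf k w (wd P q)) : Red k P q := by
  have := h.1
  rw [wd_eq] at this
  have := this.append
  rwa [List.reverseAux_eq, List.reverse_reverse, List.append_nil] at this

theorem RedOf.merge {P q P' q' : List α} (h : RedOf k w (wd P q)) (h' : RedOf k w (wd P' q'))
    (hv : cv k P = cv k P') : RedOf k w (wd P q') ∧ vec q = vec q' := by
  have e : ∀ X : List α, (X.reverse).reverseAux [] = X := by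
    intro X
    simp [List.reverseAux_eq]
  obtain ⟨h1, h2, h3⟩ := Simon.merge (k := k) P.reverse [] P'.reverse q q'
    (by rw [← wd_eq]; exact h.1) (by rw [← wd_eq]; exact h'.1)
    (by rw [← wd_eq, ← wd_eq]; exact h.2.trans h'.2.symm)
    (fun b => by
      rw [e, e]
      exact congrFun hv b)
  rw [← wd_eq] at h1 h2
  rw [← wd_eq] at h2
  exact ⟨⟨h1, h2.trans h.2⟩, h3⟩

/-- the canonical certificate: vectors -/
def canC (k : ℕ) (w : List α) (l κ : α → ℕ) : Prop :=
  ∃ P q, RedOf k w (wd P q) ∧ l = cv k P ∧ κ = kv k q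

/-- the canonical certificate: edges -/
def canE (k : ℕ) (w : List α) (l : α → ℕ) (a : α) : Prop :=
  ∃ P q, RedOf k w (wd P (a :: q)) ∧ l = cv k P

theorem canC_eq {P q : List α} {κ : α → ℕ} (h : RedOf k w (wd P q)) (h' : canC k w (cv k P) κ) :
    κ = kv k q := by
  obtain ⟨P', q', h1, h2, rfl⟩ := h'
  exact (kv_congr (h.merge h1 h2).2).symm

theorem can_cert (w : List α) : Cert k (canC k w) (canE k w) where
  fn := by
    rintro l κ κ' ⟨P, q, h1, rfl, rfl⟩ h
    exact (canC_eq h1 h).symm
  edge := by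
    rintro l a ⟨P, q, h1, rfl⟩
    refine ⟨kv k q, ⟨P, a :: q, h1, rfl, (kv_cons _ _).symm⟩,
      ⟨a :: P, q, h1, (cv_cons _ _).symm, rfl⟩, ?_⟩
    have := h1.red.1
    simp only [cv, kv]
    omega
  swap := by
    rintro l a c κ ⟨P, q, h1, rfl⟩ ⟨P', q', h2, h2'⟩ h3 hac hl hκ hk
    rw [← cv_cons] at h2'
    have h1' : RedOf k w (wd (a :: P) q) := h1
    have h4 : RedOf k w (wd P (a :: c :: q')) := (h1'.merge h2 h2').1
    have h4' : RedOf k w (wd (c :: a :: P) q') := h4
    rw [← cv_cons, ← cv_cons] at h3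
    have h5 := canC_eq h4' h3
    subst h5
    have h6 := h4.red
    have h7 := h6.1
    rw [vec_cons_ne hac] at h7
    have hsw : Sw k P (a :: c :: q') (c :: a :: q') := by
      simp only [cv, kv] at hl hκ hk
      refine Sw.here P a c q' hac ?_ ?_ ?_ <;> omega
    have h8 : RedOf k w (wd P (c :: a :: q')) := by
      refine ⟨?_, hsw.sim.symm.trans h4.2⟩
      have h9 := h4.1
      rw [wd_eq] at h9 ⊢
      refine Sw.red (Sw.append P.reverse ?_) h9
      have e : (P.reverse).reverseAux [] = P := by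
        simp [List.reverseAux_eq]
      rw [e]
      exact hsw
    refine ⟨⟨P, a :: q', h8, rfl⟩, ⟨c :: P, q', h8, (cv_cons _ _).symm⟩,
      ⟨c :: P, a :: q', h8, (cv_cons _ _).symm, (kv_cons _ _).symm⟩⟩

theorem cv_eq_nil {P : List α} (hk : 1 ≤ k) (h : cv k P = cv k []) : P = [] := by
  cases P with
  | nil => rfl
  | cons a P =>
    have := congrFun h a
    simp only [cv, vec] at this
    simp at this
    omega

theorem can_sound (x : List α) : ∀ (y P0 q0 : List α) (s : (α → ℕ) × (α → ℕ)),
    RedOf k w (wd P0 q0) →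
    (∀ P q, RedOf k w (wd P q) → cv k P = cv k P0 → Sim k (wd y q) w) →
    Path k (canC k w) (canE k w) (cv k y, cv k P0) x s → canC k w s.2 (fun _ => k) →
    Sim k (wd y x) w := by
  induction x with
  | nil =>
    intro y P0 q0 s h0 hinv hp hs
    unfold Path at hp
    subst hp
    obtain ⟨P, q, h1, h2, h3⟩ := hs
    have hq : q = [] := by
      cases q with
      | nil => rfl
      | cons b t =>
        exfalso
        have h4 := congrFun h3 b
        have h5 := h1.red.1
        simp only [kv, vec_cons_self] at h4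
        omega
    subst hq
    exact hinv P [] h1 h2.symm
  | cons a x ih =>
    intro y P0 q0 s h0 hinv hp hs
    unfold Path at hp
    obtain ⟨⟨m1, l1⟩, ⟨h1, h2⟩, h3⟩ := hp
    simp only at h1 h2
    rw [← cv_cons] at h1
    subst h1
    rcases h2 with ⟨rfl, κ, hκ, hle⟩ | ⟨hE, rfl⟩
    · refine ih (a :: y) P0 q0 s h0 ?_ h3 hs
      intro P q hPq hv
      have h4 := hinv P q hPq hv
      rw [← hv] at hκ
      have h5 := canC_eq hPq hκ
      subst h5
      refine Sim.trans (crit (P := y) (q := q) (a := a) ?_) h4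
      simp only [kv, cv] at hle
      omega
    · rw [← cv_cons] at h3
      obtain ⟨P1, q1, h4, h5⟩ := hE
      have h6 : RedOf k w (wd P0 (a :: q1)) := (h0.merge h4 h5).1
      refine ih (a :: y) (a :: P0) q1 s h6 ?_ h3 hs
      intro P q hPq hv
      have h7 : RedOf k w (wd (a :: P0) q) :=
        (RedOf.merge (P := a :: P0) (q := q1) h6 hPq hv.symm).1
      exact hinv P0 (a :: q) h7 rfl

/-- every class has a certificate -/
theorem exists_cert (k : ℕ) (w : List α) : ∃ (C : (α → ℕ) → (α → ℕ) → Prop)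
    (E : (α → ℕ) → α → Prop) (lf : α → ℕ), Cert k C E ∧ C lf (fun _ => k) ∧
    (∃ m, Path k C E ((fun _ => 0), (fun _ => 0)) w (m, lf)) ∧
    (∀ x m, Path k C E ((fun _ => 0), (fun _ => 0)) x (m, lf) → Sim k x w) ∧
    (∀ l κ, C l κ → (∀ a, l a ≤ k) ∧ ∀ a, κ a ≤ k) ∧ (∀ l a, E l a → ∀ b, l b ≤ k) := by
  obtain ⟨s, i1, i2, i3⟩ := exists_red (k := k) w
  have hs : RedOf k w (wd [] s) := ⟨i2, i3⟩
  have hlf : canC k w (cv k (s.reverseAux [])) (fun _ => k) := by
    refine ⟨s.reverseAux [], [], ?_, rfl, kv_nil.symm⟩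
    rw [← wd_append, List.append_nil]
    exact hs
  refine ⟨canC k w, canE k w, cv k (s.reverseAux []), can_cert w, hlf, ?_, ?_, ?_, ?_⟩
  · rw [← cv_nil (k := k)]
    refine good_path hlf i1 [] ?_
    have gen : ∀ (t P : List α), RedOf k w (wd P t) →
        GoodE k (canC k w) (canE k w) (cv k (t.reverseAux P)) P t := by
      intro t
      induction t with
      | nil =>
        intro P _
        unfold GoodE
        rfl
      | cons a t ih =>
        intro P h
        unfold GoodE
        exact ⟨⟨P, t, h, rfl⟩, ⟨P, a :: t, h, rfl, rfl⟩, ih (a :: P) h⟩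
    exact gen s [] hs
  · intro x m hp
    rw [← cv_nil (k := k)] at hp
    refine can_sound x [] [] s _ hs ?_ hp hlf
    intro P q h1 h2
    exact (hs.merge h1 h2.symm).1.2
  · rintro l κ ⟨P, q, _, rfl, rfl⟩
    exact ⟨fun a => min_le_left _ _, fun a => Nat.sub_le _ _⟩
  · rintro l a ⟨P, q, _, rfl⟩ b
    exact min_le_left _ _

end Pool.Agent.H92.Simon
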