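import Pool.Agent.H92.Simon.Defs

/-!
Simon's congruence: distance vectors, reduced words and their commutations.
-/

namespace Pool.Agent.H92.Simon

open List

variable {α : Type*}

theorem Sim.refl {k : ℕ} (x : List α) : Sim k x x := fun _ _ => Iff.rfl
theorem Sim.symm {k : ℕ} {x y : List α} (h : Sim k x y) : Sim k y x := fun z hz => (h z hz).symm
theorem Sim.trans {k : ℕ} {x y z : List α} (h : Sim k x y) (h' : Sim k y z) : Sim k x z :=
  fun t ht => (h t ht).trans (h' t ht)

theorem Sim.sandwich {k : ℕ} {x y z : List α} (h : Sim k x z) (h1 : x <+ y) (h2 : y <+ z) :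
    Sim k y z :=
  fun t ht => ⟨fun h' => h'.trans h2, fun h' => ((h t ht).2 h').trans h1⟩

/-- The word with reversed prefix `P` and suffix `q`. -/
abbrev wd (P q : List α) : List α := List.reverseAux P q

theorem wd_eq (P q : List α) : wd P q = P.reverse ++ q := List.reverseAux_eq

theorem wd_append (P p q : List α) : wd P (p ++ q) = wd (p.reverseAux P) q := by
  rw [wd_eq, wd_eq, List.reverseAux_eq, List.reverse_append, List.reverse_reverse,
    List.append_assoc]

theorem length_wd (P q : List α) : (wd P q).length = P.length + q.length := by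
  rw [wd_eq, List.length_append, List.length_reverse]

theorem wd_sublist {P q Z y : List α} (h : Z <+ P) (h' : y <+ q) : wd Z y <+ wd P q := by
  rw [wd_eq, wd_eq]
  exact (List.reverse_sublist.2 h).append h'

theorem sublist_wd {P q z : List α} (h : z <+ wd P q) :
    ∃ Z y, z = wd Z y ∧ Z <+ P ∧ y <+ q := by
  rw [wd_eq] at h
  obtain ⟨z1, z2, rfl, h1, h2⟩ := List.sublist_append_iff.1 h
  refine ⟨z1.reverse, z2, ?_, ?_, h2⟩
  · rw [wd_eq, List.reverse_reverse]
  · have := List.reverse_sublist.2 h1
    rwa [List.reverse_reverse] at this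

/-- crossing lemma -/
theorem cross {P q Z y : List α} {b : α} (h : wd Z (b :: y) <+ wd P q) :
    b :: Z <+ P ∨ b :: y <+ q := by
  obtain ⟨Z', y', he, h1, h2⟩ := sublist_wd h
  rw [wd_eq, wd_eq] at he
  rcases List.append_eq_append_iff.1 he with ⟨t, ht1, ht2⟩ | ⟨t, ht1, ht2⟩
  · -- Z'.reverse = Z.reverse ++ t, b :: y = t ++ y'
    cases t with
    | nil =>
      right
      rw [List.nil_append] at ht2
      rw [ht2]
      exact h2
    | cons c t =>
      left
      rw [List.cons_append, List.cons.injEq] at ht2
      obtain ⟨rfl, _⟩ := ht2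
      have h3 : Z' = (Z.reverse ++ b :: t).reverse := by
        rw [← ht1, List.reverse_reverse]
      rw [List.reverse_append, List.reverse_reverse, List.reverse_cons, List.append_assoc] at h3
      refine List.Sublist.trans ?_ h1
      rw [h3]
      exact List.sublist_append_right _ _
  · right
    refine List.Sublist.trans ?_ h2
    rw [ht2]
    exact List.sublist_append_right _ _

theorem sublist_of_ne {a c : α} {v q : List α} (hne : a ≠ c) (h : a :: v <+ c :: q) :
    a :: v <+ q := by
  cases h with
  | cons _ h => exact h
  | cons_cons _ h => exact absurd rfl hne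

theorem sublist_of_notMem {a : α} {v t q : List α} (hne : a ∉ t) (h : a :: v <+ t ++ q) :
    a :: v <+ q := by
  induction t with
  | nil => exact h
  | cons c t ih =>
    rw [List.mem_cons, not_or] at hne
    exact ih hne.2 (sublist_of_ne hne.1 h)

variable [DecidableEq α]

/-- The distance vector: `vec q b` is the least length of a subsequence `v` of `q` such that
`b :: v` is not a subsequence of `q`. -/
def vec : List α → α → ℕ
  | [], _ => 0
  | a :: q, b => if b = a then vec q a + 1 else min (vec q b) (vec q a + 1)

theorem vec_cons_self (a : α) (q : List α) : vec (a :: q) a = vec q a + 1 := by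
  simp [vec]

theorem vec_cons_ne {a b : α} (h : b ≠ a) (q : List α) :
    vec (a :: q) b = min (vec q b) (vec q a + 1) := by
  simp [vec, h]

theorem vec_congr_cons (a : α) {q q' : List α} (h : vec q = vec q') :
    vec (a :: q) = vec (a :: q') := by
  funext b
  simp only [vec, h]

theorem vec_congr_append (t : List α) {q q' : List α} (h : vec q = vec q') :
    vec (t ++ q) = vec (t ++ q') := by
  induction t with
  | nil => exact h
  | cons a t ih => exact vec_congr_cons a ih

theorem vec_congr_rev (t : List α) {q q' : List α} (h : vec q = vec q') :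
    vec (t.reverseAux q) = vec (t.reverseAux q') := by
  induction t generalizing q q' with
  | nil => exact h
  | cons a t ih => exact ih (vec_congr_cons a h)

theorem vec_swap {a c : α} {q : List α} (h : vec q a = vec q c) :
    vec (a :: c :: q) = vec (c :: a :: q) := by
  by_cases hac : a = c
  · rw [hac]
  funext b
  by_cases hba : b = a
  · subst hba
    rw [vec_cons_self, vec_cons_ne hac, vec_cons_ne hac, vec_cons_self, vec_cons_ne (Ne.symm hac)]
    omega
  · by_cases hbc : b = c
    · subst hbc
      rw [vec_cons_self, vec_cons_ne hba, vec_cons_self, vec_cons_ne hba, vec_cons_ne (Ne.symm hba)]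
      omega
    · rw [vec_cons_ne hba, vec_cons_ne hbc, vec_cons_ne hbc, vec_cons_ne hba, vec_cons_ne hac,
        vec_cons_ne (Ne.symm hac)]
      omega

theorem vec_lt {q : List α} : ∀ {v : List α} {a : α}, v <+ q → v.length < vec q a → a :: v <+ q := by
  induction q with
  | nil =>
    intro v a _ h
    simp [vec] at h
  | cons c q ih =>
    intro v a hv h
    by_cases hac : a = c
    · subst hac
      rw [vec_cons_self] at h
      refine List.Sublist.cons_cons _ ?_
      cases hv with
      | cons _ hv => exact hv
      | @cons_cons v' _ _ hv =>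
        refine ih hv ?_
        simp only [List.length_cons] at h
        omega
    · rw [vec_cons_ne hac, lt_min_iff] at h
      refine List.Sublist.cons _ ?_
      cases hv with
      | cons _ hv => exact ih hv h.1
      | @cons_cons v' _ _ hv =>
        refine ih (ih hv ?_) h.1
        have := h.2
        simp only [List.length_cons] at this
        omega

theorem vec_wit (q : List α) : ∀ a : α, ∃ v, v <+ q ∧ v.length = vec q a ∧ ¬ a :: v <+ q := by
  induction q with
  | nil =>
    intro a
    exact ⟨[], List.Sublist.refl _, rfl, by simp⟩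
  | cons c q ih =>
    intro a
    by_cases hac : a = c
    · subst hac
      obtain ⟨v, h1, h2, h3⟩ := ih a
      refine ⟨a :: v, h1.cons_cons _, ?_, ?_⟩
      · rw [vec_cons_self, List.length_cons, h2]
      · intro h
        exact h3 (List.cons_sublist_cons.1 h)
    · rw [vec_cons_ne hac]
      rcases le_total (vec q a) (vec q c + 1) with hle | hle
      · obtain ⟨v, h1, h2, h3⟩ := ih a
        refine ⟨v, h1.cons _, ?_, ?_⟩
        · rw [min_eq_left hle, h2]
        · intro h
          exact h3 (sublist_of_ne hac h)
      · obtain ⟨v, h1, h2, h3⟩ := ih c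
        refine ⟨c :: v, h1.cons_cons _, ?_, ?_⟩
        · rw [min_eq_right hle, List.length_cons, h2]
        · intro h
          have h4 := sublist_of_ne hac h
          exact h3 ((List.sublist_cons_self _ _).trans h4)

theorem crit {k : ℕ} {P q : List α} {a : α} (h : k ≤ vec P a + vec q a) :
    Sim k (wd P (a :: q)) (wd P q) := by
  intro z hz
  constructor
  · intro h1
    obtain ⟨Z, y, rfl, h2, h3⟩ := sublist_wd h1
    cases h3 with
    | cons _ h3 => exact wd_sublist h2 h3
    | @cons_cons y _ _ h3 =>
      rw [length_wd, List.length_cons] at hz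
      by_cases hZ : Z.length < vec P a
      · have := vec_lt h2 hZ
        exact wd_sublist (Z := a :: Z) this h3
      · exact wd_sublist h2 (vec_lt h3 (by omega))
  · intro h1
    exact h1.trans (wd_sublist (List.Sublist.refl _) (List.sublist_cons_self _ _))

theorem crit' {k : ℕ} {P q : List α} {a : α} (h : Sim k (wd P (a :: q)) (wd P q)) :
    k ≤ vec P a + vec q a := by
  by_contra hcon
  obtain ⟨Z, h1, h2, h3⟩ := vec_wit P a
  obtain ⟨y, h4, h5, h6⟩ := vec_wit q a
  have h7 : wd Z (a :: y) <+ wd P q := by
    refine (h _ ?_).1 (wd_sublist h1 (h4.cons_cons _))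
    rw [length_wd, List.length_cons]
    omega
  rcases cross h7 with h8 | h8
  · exact h3 h8
  · exact h6 h8

theorem comm1 {k : ℕ} {P q : List α} {a c : α} (h : k ≤ vec P c + vec q a + 1) {z : List α}
    (hz : z.length ≤ k) (h1 : z <+ wd P (c :: a :: q)) : z <+ wd P (a :: c :: q) := by
  obtain ⟨Z, y, rfl, h2, h3⟩ := sublist_wd h1
  cases h3 with
  | cons _ h3 =>
    exact wd_sublist h2 (h3.trans ((List.sublist_cons_self _ _).cons_cons _))
  | @cons_cons y _ _ h3 =>
    cases h3 with
    | cons _ h3 => exact wd_sublist h2 ((h3.cons_cons c).cons _)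
    | @cons_cons y _ _ h3 =>
      rw [length_wd, List.length_cons, List.length_cons] at hz
      by_cases hZ : Z.length < vec P c
      · exact wd_sublist (Z := c :: Z) (vec_lt h2 hZ) ((h3.cons _).cons_cons _)
      · exact wd_sublist h2 (((vec_lt h3 (by omega)).cons_cons c).cons _)

theorem comm {k : ℕ} {P q : List α} {a c : α} (h : k ≤ vec P c + vec q a + 1)
    (h' : k ≤ vec P a + vec q c + 1) : Sim k (wd P (c :: a :: q)) (wd P (a :: c :: q)) :=
  fun _ hz => ⟨comm1 h hz, comm1 h' hz⟩

/-- every letter of `q` is essential after the reversed prefix `P` -/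
def Red (k : ℕ) : List α → List α → Prop
  | _, [] => True
  | P, a :: q => vec P a + vec q a < k ∧ Red k (a :: P) q

theorem Red.append {k : ℕ} {P p q : List α} (h : Red k P (p ++ q)) : Red k (p.reverseAux P) q := by
  induction p generalizing P with
  | nil => exact h
  | cons a p ih => exact ih h.2

theorem Red.mid {k : ℕ} {P p q : List α} {a : α} (h : Red k P (p ++ a :: q)) :
    vec (p.reverseAux P) a + vec q a < k := h.append.1

theorem Red.congr {k : ℕ} {P P' q : List α} (h : Red k P q) (h' : vec P = vec P') :
    Red k P' q := by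
  induction q generalizing P P' with
  | nil => trivial
  | cons a q ih =>
    refine ⟨?_, ih h.2 (vec_congr_cons a h')⟩
    rw [← h']
    exact h.1

/-- one commutation of two letters of `q` after the reversed prefix `P` -/
inductive Sw (k : ℕ) : List α → List α → List α → Prop
  | here (P : List α) (c a : α) (q : List α) : c ≠ a → vec P c = vec P a → vec q c = vec q a →
      vec P a + vec q a + 1 = k → Sw k P (c :: a :: q) (a :: c :: q)
  | there (P : List α) (b : α) (q q' : List α) : Sw k (b :: P) q q' → Sw k P (b :: q) (b :: q')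

theorem Sw.append {k : ℕ} {P : List α} (t : List α) {q q' : List α}
    (h : Sw k (t.reverseAux P) q q') : Sw k P (t ++ q) (t ++ q') := by
  induction t generalizing P with
  | nil => exact h
  | cons a t ih => exact Sw.there _ _ _ _ (ih h)

theorem Sw.vec_eq {k : ℕ} {P q q' : List α} (h : Sw k P q q') : vec q = vec q' := by
  induction h with
  | here P c a q _ _ h _ => exact vec_swap h
  | there P b q q' _ ih => exact vec_congr_cons b ih

theorem Sw.vec_rev {k : ℕ} {P q q' : List α} (h : Sw k P q q') :
    vec (q.reverseAux P) = vec (q'.reverseAux P) := by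
  induction h with
  | here P c a q _ h _ _ => exact vec_congr_rev q (vec_swap h.symm)
  | there P b q q' _ ih => exact ih

theorem Sw.symm {k : ℕ} {P q q' : List α} (h : Sw k P q q') : Sw k P q' q := by
  induction h with
  | here P c a q h1 h2 h3 h4 =>
    exact Sw.here P a c q h1.symm h2.symm h3.symm (by rw [h2, h3]; exact h4)
  | there P b q q' _ ih => exact Sw.there _ _ _ _ ih

theorem Sw.sim {k : ℕ} {P q q' : List α} (h : Sw k P q q') : Sim k (wd P q) (wd P q') := by
  induction h with
  | here P c a q h1 h2 h3 h4 => exact comm (by omega) (by omega)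
  | there P b q q' _ ih => exact ih

theorem Sw.red {k : ℕ} {P q q' : List α} (h : Sw k P q q') (hr : Red k P q) : Red k P q' := by
  induction h with
  | here P c a q h1 h2 h3 h4 =>
    obtain ⟨r1, r2, r3⟩ := hr
    refine ⟨?_, ?_, r3.congr (vec_swap h2.symm)⟩
    · rw [vec_cons_ne h1.symm]
      omega
    · rw [vec_cons_ne h1]
      omega
  | there P b q q' hs ih =>
    refine ⟨?_, ih hr.2⟩
    rw [← hs.vec_eq]
    exact hr.1

/-- all letters of `t` have left value `n` -/
def AllL (n : ℕ) : List α → List α → Prop
  | _, [] => True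
  | P, c :: t => vec P c = n ∧ AllL n (c :: P) t

theorem AllL.of_mid {n : ℕ} {P t : List α}
    (h : ∀ t1 c t2, t = t1 ++ c :: t2 → vec (t1.reverseAux P) c = n) : AllL n P t := by
  induction t generalizing P with
  | nil => trivial
  | cons c t ih =>
    refine ⟨h [] c t rfl, ih fun t1 c' t2 he => ?_⟩
    exact h (c :: t1) c' t2 (by rw [he]; rfl)

theorem AllL.vec_eq {n : ℕ} {P t : List α} (h : AllL n P t) {b : α} (hb : b ∉ t)
    (hb' : vec P b ≤ n + 1) : vec (t.reverseAux P) b = vec P b := by
  induction t generalizing P with
  | nil => rfl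
  | cons c t ih =>
    rw [List.mem_cons, not_or] at hb
    have h1 : vec (c :: P) b = vec P b := by
      rw [vec_cons_ne hb.1, h.1]
      omega
    have := ih h.2 hb.2 (by rw [h1]; exact hb')
    rw [← h1]
    exact this

theorem AllL.mem {n : ℕ} {P t : List α} (h : AllL n P t) {b : α} (hb : b ∈ t) :
    vec P b = n := by
  induction t generalizing P with
  | nil => simp at hb
  | cons c t ih =>
    by_cases hbc : b = c
    · rw [hbc]
      exact h.1
    · have hb' : b ∈ t := by
        rcases List.mem_cons.1 hb with h1 | h1
        · exact absurd h1 hbc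
        · exact h1
      have := ih h.2 hb'
      rw [vec_cons_ne hbc, h.1] at this
      omega

/-- the main lemma, for one letter -/
theorem main_letter {k : ℕ} {P q t1 t2 s2 : List α} {a c : α}
    (hu : vec P a + vec q a < k) (hc : vec (t1.reverseAux P) c + vec (t2 ++ a :: s2) c < k)
    (ha1 : a ∉ t1) (hac : a ≠ c) (ha2 : a ∉ t2)
    (hs : Sim k (wd P (a :: q)) (wd P (t1 ++ c :: (t2 ++ a :: s2)))) :
    vec (t1.reverseAux P) c = vec P a ∧ vec (t2 ++ a :: s2) c = vec q a ∧
      vec P a + vec q a + 1 = k := by
  obtain ⟨v1, a1, a2, a3⟩ := vec_wit P a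
  obtain ⟨v2, b1, b2, b3⟩ := vec_wit q a
  obtain ⟨y1, c1, c2, c3⟩ := vec_wit (t1.reverseAux P) c
  obtain ⟨y2, d1, d2, d3⟩ := vec_wit (t2 ++ a :: s2) c
  rw [wd_append] at hs
  have hPt : P <+ t1.reverseAux P := by
    rw [List.reverseAux_eq]
    exact List.sublist_append_right _ _
  -- v2 <+ s2
  have e1 : v2 <+ s2 := by
    have h1 : wd v1 (a :: v2) <+ wd (t1.reverseAux P) (c :: (t2 ++ a :: s2)) := by
      refine (hs _ ?_).1 (wd_sublist a1 (b1.cons_cons _))
      rw [length_wd, List.length_cons]
      omega
    rw [← wd_append] at h1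
    rcases cross h1 with h2 | h2
    · exact absurd h2 a3
    · have h3 := sublist_of_notMem ha1 h2
      have h4 := sublist_of_ne hac h3
      have h5 := sublist_of_notMem ha2 h4
      exact List.cons_sublist_cons.1 h5
  have e2 : k ≤ vec (t1.reverseAux P) c + vec q a + 1 := by
    by_contra hcon
    have h1 : wd y1 (c :: a :: v2) <+ wd P (a :: q) := by
      refine (hs _ ?_).2 (wd_sublist c1 (List.Sublist.cons_cons _ ?_))
      · rw [length_wd, List.length_cons, List.length_cons]
        omega
      · exact (e1.cons_cons a).trans (List.sublist_append_right _ _)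
    rcases cross h1 with h2 | h2
    · exact c3 (h2.trans hPt)
    · have h3 := sublist_of_ne hac.symm h2
      exact b3 ((List.sublist_cons_self _ _).trans h3)
  have e3 : c :: y2 <+ q := by
    have h1 : wd y1 (c :: y2) <+ wd P (a :: q) := by
      refine (hs _ ?_).2 (wd_sublist c1 (d1.cons_cons _))
      rw [length_wd, List.length_cons]
      omega
    rcases cross h1 with h2 | h2
    · exact absurd (h2.trans hPt) c3
    · exact sublist_of_ne hac.symm h2
  have e4 : k ≤ vec P a + vec (t2 ++ a :: s2) c + 1 := by
    by_contra hcon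
    have h1 : wd v1 (a :: c :: y2) <+ wd (t1.reverseAux P) (c :: (t2 ++ a :: s2)) := by
      refine (hs _ ?_).1 (wd_sublist a1 (e3.cons_cons _))
      rw [length_wd, List.length_cons, List.length_cons]
      omega
    rw [← wd_append] at h1
    rcases cross h1 with h2 | h2
    · exact absurd h2 a3
    · have h3 := sublist_of_notMem ha1 h2
      have h4 := sublist_of_ne hac h3
      have h5 := sublist_of_notMem ha2 h4
      have h6 := List.cons_sublist_cons.1 h5
      exact d3 ((h6.cons a).trans (List.sublist_append_right _ _))
  omega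

theorem main_exists {k : ℕ} {P q s : List α} {a : α} (hu : vec P a + vec q a < k)
    (hs : Sim k (wd P (a :: q)) (wd P s)) : a ∈ s := by
  obtain ⟨v1, a1, a2, a3⟩ := vec_wit P a
  obtain ⟨v2, b1, b2, b3⟩ := vec_wit q a
  have h1 : wd v1 (a :: v2) <+ wd P s := by
    refine (hs _ ?_).1 (wd_sublist a1 (b1.cons_cons _))
    rw [length_wd, List.length_cons]
    omega
  rcases cross h1 with h2 | h2
  · exact absurd h2 a3
  · exact h2.subset (List.mem_cons_self)

theorem main_right {k : ℕ} {P q s1 s2 : List α} {a : α} (hu : vec P a + vec q a + 1 = k)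
    (hv : vec (s1.reverseAux P) a + vec s2 a < k) (ha : a ∉ s1)
    (hP : vec (s1.reverseAux P) a = vec P a)
    (hs : Sim k (wd P (a :: q)) (wd P (s1 ++ a :: s2))) : vec s2 a = vec q a := by
  by_contra hne
  have hlt : vec s2 a < vec q a := by omega
  obtain ⟨v1, a1, a2, a3⟩ := vec_wit P a
  obtain ⟨y, b1, b2, b3⟩ := vec_wit s2 a
  have hPs : P <+ s1.reverseAux P := by
    rw [List.reverseAux_eq]
    exact List.sublist_append_right _ _
  have h1 : wd v1 (a :: y) <+ wd P (a :: q) := by
    refine (hs _ ?_).2 ?_
    · rw [length_wd, List.length_cons]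
      omega
    · rw [wd_append]
      exact wd_sublist (a1.trans hPs) (b1.cons_cons _)
  have h2 : y <+ q := by
    rcases cross h1 with h2 | h2
    · exact absurd h2 a3
    · exact List.cons_sublist_cons.1 h2
  have h3 : a :: y <+ q := vec_lt h2 (by omega)
  have h4 : wd v1 (a :: a :: y) <+ wd P (s1 ++ a :: s2) := by
    refine (hs _ ?_).1 (wd_sublist a1 (h3.cons_cons _))
    rw [length_wd, List.length_cons, List.length_cons]
    omega
  rcases cross h4 with h5 | h5
  · exact a3 h5
  · have h6 := sublist_of_notMem ha h5
    exact b3 (List.cons_sublist_cons.1 h6)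

theorem main_allL {k : ℕ} {P q s1 s2 : List α} {a : α} (hu : vec P a + vec q a < k)
    (hr : Red k P (s1 ++ a :: s2)) (ha : a ∉ s1)
    (hs : Sim k (wd P (a :: q)) (wd P (s1 ++ a :: s2))) : AllL (vec P a) P s1 := by
  refine AllL.of_mid fun t1 c t2 he => ?_
  rw [he] at ha hs hr
  rw [List.mem_append, List.mem_cons, not_or, not_or] at ha
  rw [List.append_assoc, List.cons_append] at hs hr
  exact (main_letter hu hr.mid ha.1 ha.2.1 ha.2.2 hs).1

/-- moving a letter to the front -/
theorem move {k : ℕ} {P q : List α} {a : α} (hu : vec P a + vec q a < k) (s1 : List α) :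
    ∀ s2, a ∉ s1 → Red k P (s1 ++ a :: s2) → Sim k (wd P (a :: q)) (wd P (s1 ++ a :: s2)) →
      Relation.ReflTransGen (Sw k P) (s1 ++ a :: s2) (a :: (s1 ++ s2)) := by
  induction s1 using List.reverseRecOn with
  | nil =>
    intro s2 _ _ _
    exact Relation.ReflTransGen.refl
  | append_singleton t c ih =>
    intro s2 ha hr hs
    have hall := main_allL hu hr ha hs
    have ha' := ha
    rw [List.mem_append, List.mem_singleton, not_or] at ha
    have hr' : Red k P (t ++ c :: ([] ++ a :: s2)) := by
      rw [List.append_assoc] at hr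
      exact hr
    have hs' : Sim k (wd P (a :: q)) (wd P (t ++ c :: ([] ++ a :: s2))) := by
      rw [List.append_assoc] at hs
      exact hs
    obtain ⟨m1, m2, m3⟩ := main_letter hu hr'.mid ha.1 ha.2 (by simp) hs'
    have hP : vec ((t ++ [c]).reverseAux P) a = vec P a :=
      hall.vec_eq ha' (by omega)
    have m4 := main_right m3 hr.mid ha' hP hs
    have hall' : AllL (vec P a) P t := by
      refine AllL.of_mid fun t1 c' t2 he => ?_
      rw [he] at ha hs hr
      rw [List.mem_append, List.mem_cons, not_or, not_or] at ha
      have e : (t1 ++ c' :: t2) ++ [c] ++ a :: s2 = t1 ++ c' :: ((t2 ++ [c]) ++ a :: s2) := by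
        simp
      rw [e] at hs hr
      refine (main_letter hu hr.mid ha.1.1 ha.1.2.1 ?_ hs).1
      rw [List.mem_append, not_or]
      exact ⟨ha.1.2.2, by simpa using ha.2⟩
    have m5 : vec (t.reverseAux P) a = vec P a := hall'.vec_eq ha.1 (by omega)
    have m6 : vec s2 c = vec s2 a := by
      rw [List.nil_append, vec_cons_ne (Ne.symm ha.2)] at m2
      omega
    have hsw : Sw k P (t ++ c :: a :: s2) (t ++ a :: c :: s2) := by
      refine Sw.append t (Sw.here _ c a s2 (Ne.symm ha.2) ?_ m6 ?_)
      · rw [m1, m5]
      · rw [m5, m4]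
        exact m3
    have e1 : t ++ [c] ++ a :: s2 = t ++ c :: a :: s2 := by simp
    have e2 : a :: (t ++ [c] ++ s2) = a :: (t ++ c :: s2) := by simp
    rw [e1] at hr hs ⊢
    rw [e2]
    exact Relation.ReflTransGen.head hsw (ih (c :: s2) ha.1 (hsw.red hr) (hs.trans hsw.sim))

theorem sws_vec {k : ℕ} {P q q' : List α} (h : Relation.ReflTransGen (Sw k P) q q') :
    vec q = vec q' := by
  induction h with
  | refl => rfl
  | tail _ h ih => exact ih.trans h.vec_eq

theorem sws_vec_rev {k : ℕ} {P q q' : List α} (h : Relation.ReflTransGen (Sw k P) q q') :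
    vec (q.reverseAux P) = vec (q'.reverseAux P) := by
  induction h with
  | refl => rfl
  | tail _ h ih => exact ih.trans h.vec_rev

theorem sws_sim {k : ℕ} {P q q' : List α} (h : Relation.ReflTransGen (Sw k P) q q') :
    Sim k (wd P q) (wd P q') := by
  induction h with
  | refl => exact Sim.refl _
  | tail _ h ih => exact ih.trans h.sim

theorem sws_red {k : ℕ} {P q q' : List α} (h : Relation.ReflTransGen (Sw k P) q q')
    (hr : Red k P q) : Red k P q' := by
  induction h with
  | refl => exact hr
  | tail _ h ih => exact h.red ih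

omit [DecidableEq α] in
theorem exists_first {a : α} {s : List α} (h : a ∈ s) : ∃ s1 s2, s = s1 ++ a :: s2 ∧ a ∉ s1 := by
  obtain ⟨s1, s2, h1, h2⟩ := List.append_of_mem h |>.elim fun _ _ =>
    (List.eq_append_cons_of_mem h)
  exact ⟨s1, s2, h1, h2⟩

/-- congruent reduced words are related by commutations -/
theorem conn {k : ℕ} (q : List α) : ∀ P q' : List α, Red k P q → Red k P q' →
    Sim k (wd P q) (wd P q') → Relation.ReflTransGen (Sw k P) q' q := by
  induction q with
  | nil =>
    intro P q' _ hr' hs
    cases q' with
    | nil => exact Relation.ReflTransGen.refl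
    | cons b t =>
      exfalso
      have h1 : Sim k (wd P t) (wd P (b :: t)) :=
        hs.sandwich (wd_sublist (List.Sublist.refl _) (List.nil_sublist _))
          (wd_sublist (List.Sublist.refl _) (List.sublist_cons_self _ _))
      have h2 := crit' h1.symm
      have h3 := hr'.1
      omega
  | cons a q ih =>
    intro P q' hr hr' hs
    obtain ⟨s1, s2, rfl, ha⟩ := exists_first (main_exists hr.1 hs)
    have h1 := move hr.1 s1 s2 ha hr' hs
    have h2 := ih (a :: P) (s1 ++ s2) hr.2 (sws_red h1 hr').2 (hs.trans (sws_sim h1))
    refine h1.trans ?_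
    have h3 : ∀ {x y : List α}, Relation.ReflTransGen (Sw k (a :: P)) x y →
        Relation.ReflTransGen (Sw k P) (a :: x) (a :: y) := by
      intro x y hxy
      induction hxy with
      | refl => exact Relation.ReflTransGen.refl
      | tail _ h ih => exact ih.tail (Sw.there _ _ _ _ h)
    exact h3 h2

theorem level {μ : ℕ} {P t : List α} (h : ∀ c ∈ t, μ ≤ vec P c) :
    (∀ b, μ + 1 ≤ vec P b → μ + 1 ≤ vec (t.reverseAux P) b) ∧
      (∀ b ∈ t, μ + 1 ≤ vec (t.reverseAux P) b) := by
  induction t generalizing P with
  | nil =>
    exact ⟨fun b hb => hb, fun b hb => absurd hb (by simp)⟩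
  | cons c t ih =>
    have hc := h c (List.mem_cons_self)
    have h1 : ∀ b, μ ≤ vec P b → μ ≤ vec (c :: P) b := by
      intro b hb
      by_cases hbc : b = c
      · rw [hbc, vec_cons_self]
        omega
      · rw [vec_cons_ne hbc]
        omega
    have h2 : ∀ b, μ + 1 ≤ vec P b → μ + 1 ≤ vec (c :: P) b := by
      intro b hb
      by_cases hbc : b = c
      · rw [hbc, vec_cons_self]
        omega
      · rw [vec_cons_ne hbc]
        omega
    obtain ⟨i1, i2⟩ := ih (P := c :: P) (fun b hb => h1 b (h b (List.mem_cons_of_mem _ hb)))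
    refine ⟨fun b hb => i1 b (h2 b hb), fun b hb => ?_⟩
    by_cases hbt : b ∈ t
    · exact i2 b hbt
    · have hbc : b = c := by
        rcases List.mem_cons.1 hb with h3 | h3
        · exact h3
        · exact absurd h3 hbt
      refine i1 b ?_
      rw [hbc, vec_cons_self]
      omega

theorem exists_argmin {P t : List α} (ht : t ≠ []) : ∃ b ∈ t, ∀ c ∈ t, vec P b ≤ vec P c := by
  have hne : t.toFinset.Nonempty := by
    obtain ⟨a, ha⟩ := List.exists_mem_of_ne_nil t ht
    exact ⟨a, List.mem_toFinset.2 ha⟩
  obtain ⟨b, hb, hmin⟩ := Finset.exists_min_image t.toFinset (vec P) hne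
  exact ⟨b, List.mem_toFinset.1 hb, fun c hc => hmin c (List.mem_toFinset.2 hc)⟩

/-- prefixes with the same distance vector can be exchanged -/
theorem merge {k : ℕ} (p : List α) : ∀ P p' q q' : List α, Red k P (p ++ q) →
    Red k P (p' ++ q') → Sim k (wd P (p ++ q)) (wd P (p' ++ q')) →
    (∀ b, min k (vec (p.reverseAux P) b) = min k (vec (p'.reverseAux P) b)) →
    Red k P (p ++ q') ∧ Sim k (wd P (p ++ q')) (wd P (p ++ q)) ∧ vec q = vec q' := by
  induction p with
  | nil =>
    intro P p' q q' hr hr' hs hv
    have hp' : p' = [] := by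
      by_contra hne
      obtain ⟨b, hb, hmin⟩ := exists_argmin (P := P) hne
      obtain ⟨c, t, rfl⟩ := List.exists_cons_of_ne_nil hne
      have h1 := (level hmin).2 b hb
      have h2 : vec P c < k := by
        have := hr'.1
        omega
      have h3 := hmin c (List.mem_cons_self)
      have h4 := hv b
      rw [List.reverseAux_nil] at h4
      omega
    subst hp'
    exact ⟨hr', hs.symm, (sws_vec (conn q P q' hr hr' hs)).symm⟩
  | cons a p ih =>
    intro P p' q q' hr hr' hs hv
    have hmem := main_exists hr.1 hs
    by_cases hap : a ∈ p'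
    · obtain ⟨s1, p2, rfl, ha⟩ := exists_first hap
      have e1 : (s1 ++ a :: p2) ++ q' = s1 ++ a :: (p2 ++ q') := by simp
      rw [e1] at hr' hs
      have h1 := move hr.1 s1 (p2 ++ q') ha hr' hs
      have hall := main_allL hr.1 hr' ha hs
      have h2 : vec ((s1 ++ a :: p2).reverseAux P) = vec ((a :: (s1 ++ p2)).reverseAux P) := by
        have e2 : ∀ x y : List α, (x ++ y).reverseAux P = y.reverseAux (x.reverseAux P) := by
          intro x y
          simp [List.reverseAux_eq]
        have e3 : (s1 ++ a :: p2).reverseAux P = p2.reverseAux (a :: s1.reverseAux P) := by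
          rw [e2]
          rfl
        have e4 : (a :: (s1 ++ p2)).reverseAux P = p2.reverseAux (s1.reverseAux (a :: P)) := by
          have : a :: (s1 ++ p2) = (a :: s1) ++ p2 := rfl
          rw [this, e2]
          rfl
        rw [e3, e4]
        apply vec_congr_rev
        -- move `a` across `s1`
        clear h1 hr' hs hv e3 e4 e1 hap hmem
        have gen : ∀ (s : List α) (Q : List α), a ∉ s → AllL (vec Q a) Q s →
            vec (a :: s.reverseAux Q) = vec (s.reverseAux (a :: Q)) := by
          intro s
          induction s with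
          | nil =>
            intro Q _ _
            rfl
          | cons c s ihs =>
            intro Q hs hl
            rw [List.mem_cons, not_or] at hs
            have f1 : vec (c :: Q) a = vec Q a := by
              rw [vec_cons_ne hs.1, hl.1]
              omega
            have f2 := ihs (c :: Q) hs.2 (by rw [f1]; exact hl.2)
            have f3 : vec (s.reverseAux (a :: c :: Q)) = vec (s.reverseAux (c :: a :: Q)) :=
              vec_congr_rev s (vec_swap hl.1.symm)
            exact f2.trans f3
        exact gen s1 P ha hall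
      have h3 := (sws_red h1 hr').2
      have h4 : Red k (a :: P) ((s1 ++ p2) ++ q') := by
        rw [List.append_assoc]
        exact h3
      have h5 : Sim k (wd (a :: P) (p ++ q)) (wd (a :: P) ((s1 ++ p2) ++ q')) := by
        rw [List.append_assoc]
        exact hs.trans (sws_sim h1)
      have h6 := ih (a :: P) (s1 ++ p2) q q' hr.2 h4 h5 (fun b => by
        have := hv b
        rw [h2] at this
        exact this)
      obtain ⟨i1, i2, i3⟩ := h6
      refine ⟨⟨?_, i1⟩, i2, i3⟩
      have h7 : vec (p ++ q') = vec (p ++ q) := vec_congr_append p i3.symm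
      change vec P a + vec (p ++ q') a < k
      rw [h7]
      exact hr.1
    · exfalso
      have haq : a ∈ q' := by
        rcases List.mem_append.1 hmem with h | h
        · exact absurd h hap
        · exact h
      obtain ⟨q1, q2, rfl, ha⟩ := exists_first haq
      have e1 : p' ++ (q1 ++ a :: q2) = (p' ++ q1) ++ a :: q2 := by simp
      rw [e1] at hr' hs
      have ha' : a ∉ p' ++ q1 := by
        rw [List.mem_append, not_or]
        exact ⟨hap, ha⟩
      have hall := main_allL hr.1 hr' ha' hs
      have hall' : AllL (vec P a) P p' := by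
        clear hr' hs hv ha' hmem hap e1
        have gen : ∀ (x y Q : List α) (n : ℕ), AllL n Q (x ++ y) → AllL n Q x := by
          intro x
          induction x with
          | nil =>
            intro _ _ _ _
            trivial
          | cons c x ihx =>
            intro y Q n h
            exact ⟨h.1, ihx _ _ _ h.2⟩
        exact gen _ _ _ _ hall
      obtain ⟨b, hb, hmin⟩ := exists_argmin (P := P) (t := a :: p) (by simp)
      have hak : vec P a < k := by
        have := hr.1
        omega
      have hba : vec P b ≤ vec P a := hmin a (List.mem_cons_self)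
      rcases hba.lt_or_eq with hlt | heq
      · have hbp : b ∉ p' := by
          intro hbp
          have := hall'.mem hbp
          omega
        have h1 := (level hmin).2 b hb
        have h2 := hall'.vec_eq hbp (by omega)
        have h3 := hv b
        rw [h2] at h3
        have h4 : vec ((a :: p).reverseAux P) b = vec (p.reverseAux (a :: P)) b := rfl
        omega
      · have h1 := (level (μ := vec P a) (fun c hc => heq ▸ hmin c hc)).2 a (List.mem_cons_self)
        have h2 := hall'.vec_eq hap (by omega)
        have h3 := hv a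
        rw [h2] at h3
        omega

end Pool.Agent.H92.Simon
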