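import Pool.Agent.H92.Simon.Val

/-!
Tuples of sets as the digits of a binary counter.
-/

namespace Pool.Agent.H92.Simon

variable {D : Type} [Finite D] {le : D → D → Prop} {N : ℕ}

/-- the position of the bit `x` of the digit `n` -/
noncomputable def pos (le : D → D → Prop) (n : ℕ) (x : D) : ℕ := n * Nat.card D + rk le x

theorem pos_inj (hle : IsLin le) {n n' : ℕ} {x x' : D} (h : pos le n x = pos le n' x') :
    n = n' ∧ x = x' := by
  unfold pos at h
  have h1 := rk_lt_card (le := le) x
  have h2 := rk_lt_card (le := le) x'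
  have h3 : n = n' := by
    have e1 : (n * Nat.card D + rk le x) / Nat.card D = n := by
      rw [mul_comm, Nat.mul_add_div (by omega), Nat.div_eq_of_lt h1, add_zero]
    have e2 : (n' * Nat.card D + rk le x') / Nat.card D = n' := by
      rw [mul_comm, Nat.mul_add_div (by omega), Nat.div_eq_of_lt h2, add_zero]
    rw [← e1, ← e2, h]
  subst h3
  exact ⟨rfl, rk_inj hle (by omega)⟩

theorem pos_lt {n : ℕ} (hn : n < N) (x : D) : pos le n x < N * Nat.card D := by
  unfold pos
  have h1 := rk_lt_card (le := le) x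
  calc n * Nat.card D + rk le x < n * Nat.card D + Nat.card D := by omega
    _ = (n + 1) * Nat.card D := by ring
    _ ≤ N * Nat.card D := Nat.mul_le_mul_right _ hn

theorem exists_pos (hle : IsLin le) {i : ℕ} (hi : i < N * Nat.card D) :
    ∃ n, n < N ∧ ∃ x : D, pos le n x = i := by
  have hm : 0 < Nat.card D := by
    rcases Nat.eq_zero_or_pos (Nat.card D) with h | h
    · rw [h] at hi
      omega
    · exact h
  refine ⟨i / Nat.card D, (Nat.div_lt_iff_lt_mul hm).2 hi, ?_⟩
  obtain ⟨x, hx⟩ := exists_rk (V := D) hle (Nat.mod_lt i hm)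
  refine ⟨x, ?_⟩
  unfold pos
  rw [hx]
  exact Nat.div_add_mod' i (Nat.card D)

open Classical in
/-- the set of the positions of the ones of `v` -/
noncomputable def bset (le : D → D → Prop) (v : Fin N → Set D) : Finset ℕ :=
  (Finset.range (N * Nat.card D)).filter (fun i => ∃ (n : Fin N) (x : D), i = pos le n.1 x ∧ x ∈ v n)

theorem mem_bset (hle : IsLin le) {v : Fin N → Set D} {n : Fin N} {x : D} :
    pos le n.1 x ∈ bset le v ↔ x ∈ v n := by
  classical
  unfold bset
  rw [Finset.mem_filter, Finset.mem_range]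
  constructor
  · rintro ⟨_, n', x', h1, h2⟩
    obtain ⟨h3, h4⟩ := pos_inj hle h1
    have : n = n' := Fin.ext h3
    rw [this, h4]
    exact h2
  · intro h
    exact ⟨pos_lt n.2 x, n, x, rfl, h⟩

theorem bset_lt {v : Fin N → Set D} {i : ℕ} (hi : i ∈ bset le v) : i < N * Nat.card D := by
  classical
  unfold bset at hi
  exact Finset.mem_range.1 (Finset.mem_filter.1 hi).1

/-- the number with the digits `v` -/
noncomputable def num (le : D → D → Prop) (v : Fin N → Set D) : ℕ := ∑ i ∈ bset le v, 2 ^ i

theorem num_lt (v : Fin N → Set D) : num le v < 2 ^ (N * Nat.card D) :=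
  Nat.geomSum_lt le_rfl fun _ hi => bset_lt hi

theorem num_inj (hle : IsLin le) {v v' : Fin N → Set D} (h : num le v = num le v') : v = v' := by
  have h1 := Finset.geomSum_injective le_rfl h
  funext n
  ext x
  rw [← mem_bset hle, ← mem_bset hle (v := v'), h1]

theorem exists_num (hle : IsLin le) {s : Finset ℕ} (hs : ∀ i ∈ s, i < N * Nat.card D) :
    ∃ v : Fin N → Set D, bset le v = s := by
  classical
  refine ⟨fun n => {x | pos le n.1 x ∈ s}, ?_⟩
  ext i
  constructor
  · intro hi
    obtain ⟨n, hn, x, rfl⟩ := exists_pos hle (bset_lt hi)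
    have := (mem_bset hle (n := ⟨n, hn⟩)).1 hi
    exact this
  · intro hi
    obtain ⟨n, hn, x, rfl⟩ := exists_pos hle (hs i hi)
    exact (mem_bset hle (n := ⟨n, hn⟩)).2 hi

theorem exists_num' (hle : IsLin le) {l : ℕ} (hl : l < 2 ^ (N * Nat.card D)) :
    ∃ v : Fin N → Set D, num le v = l := by
  obtain ⟨v, hv⟩ := exists_num (N := N) hle (s := l.bitIndices.toFinset) (by
    intro i hi
    rw [List.mem_toFinset] at hi
    have h2 := Nat.two_pow_le_of_mem_bitIndices hi
    exact (Nat.pow_lt_pow_iff_right (by norm_num : 1 < 2)).1 (lt_of_le_of_lt h2 hl))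
  refine ⟨v, ?_⟩
  unfold num
  rw [hv]
  exact Finset.sum_toFinset_bitIndices_two_pow l

open Classical in
theorem val_eq_sum [Fintype D] (S : Set D) :
    val le S = ∑ x : D, if x ∈ S then 2 ^ rk le x else 0 := by
  unfold val
  rw [finsum_mem_eq_finite_toFinset_sum _ S.toFinite]
  rw [← Finset.sum_filter]
  refine Finset.sum_congr ?_ fun _ _ => rfl
  ext x
  rw [Set.Finite.mem_toFinset, Finset.mem_filter]
  exact ⟨fun h => ⟨Finset.mem_univ _, h⟩, fun h => h.2⟩

theorem num_eq (hle : IsLin le) (v : Fin N → Set D) :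
    num le v = ∑ n : Fin N, 2 ^ (n.1 * Nat.card D) * val le (v n) := by
  classical
  have hf := Fintype.ofFinite D
  have h1 : num le v = ∑ p : Fin N × D, if p.2 ∈ v p.1 then 2 ^ pos le p.1.1 p.2 else 0 := by
    rw [← Finset.sum_filter]
    unfold num
    have himg : bset le v = (Finset.univ.filter (fun p : Fin N × D => p.2 ∈ v p.1)).image
        (fun p => pos le p.1.1 p.2) := by
      ext i
      rw [Finset.mem_image]
      constructor
      · intro hi
        obtain ⟨n, hn, x, rfl⟩ := exists_pos hle (bset_lt hi)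
        exact ⟨(⟨n, hn⟩, x), by simpa using (mem_bset hle (n := ⟨n, hn⟩)).1 hi, rfl⟩
      · rintro ⟨⟨n, x⟩, hp, rfl⟩
        exact (mem_bset hle).2 (by simpa using hp)
    rw [himg, Finset.sum_image]
    rintro ⟨n, x⟩ _ ⟨n', x'⟩ _ h
    obtain ⟨h2, h3⟩ := pos_inj hle h
    exact Prod.ext (Fin.ext h2) h3
  rw [h1, Fintype.sum_prod_type]
  refine Finset.sum_congr rfl fun n _ => ?_
  rw [val_eq_sum, Finset.mul_sum]
  refine Finset.sum_congr rfl fun x _ => ?_
  unfold pos
  rw [pow_add]
  split_ifs <;> simp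

theorem num_update (hle : IsLin le) (v : Fin N → Set D) (n : Fin N) (X : Set D)
    (hX : val le X = val le (v n) + 1) :
    num le (Function.update v n X) = num le v + 2 ^ (n.1 * Nat.card D) := by
  classical
  rw [num_eq hle, num_eq hle, ← Finset.add_sum_erase _ _ (Finset.mem_univ n),
    ← Finset.add_sum_erase (Finset.univ : Finset (Fin N))
      (fun n => 2 ^ (n.1 * Nat.card D) * val le (v n)) (Finset.mem_univ n)]
  have : ∑ x ∈ Finset.univ.erase n, 2 ^ (x.1 * Nat.card D) * val le (Function.update v n X x) =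
      ∑ x ∈ Finset.univ.erase n, 2 ^ (x.1 * Nat.card D) * val le (v x) := by
    refine Finset.sum_congr rfl fun x hx => ?_
    rw [Function.update_of_ne (Finset.ne_of_mem_erase hx)]
  rw [this, Function.update_self, hX]
  ring

theorem sum_range_pow (R : ℕ) : (∑ i ∈ Finset.range R, 2 ^ i) + 1 = 2 ^ R := by
  induction R with
  | zero => simp
  | succ R ih =>
    rw [Finset.sum_range_succ, pow_succ]
    omega

end Pool.Agent.H92.Simon
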