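import Pool.Agent.H92.Desc.Defs

/-!
Simon's congruence, context-free grammars, and the decision problem CF-≡.
-/

namespace Pool.Agent.H92.Simon

open FirstOrder FirstOrder.Language Desc

/-- Simon's congruence: `x` and `y` have the same subsequences of length at most `k`. -/
def Sim {V : Type*} (k : ℕ) (x y : List V) : Prop :=
  ∀ z : List V, z.length ≤ k → (z.Sublist x ↔ z.Sublist y)

/-- The neighborhood of a language: all words congruent to a word of the language. -/
def nbhd {V : Type*} (k : ℕ) (L : Set (List V)) : Set (List V) := {x | ∃ w ∈ L, Sim k x w}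

/-- A context-free grammar with symbols in `V`, with rules `X → Y Z`, `X → a` and `X → ε`. -/
structure Gram (V : Type*) where
  bin : V → V → V → Prop
  ter : V → V → Prop
  eps : V → Prop
  start : V → Prop

/-- `Gen X w`: the word `w` is derived from the nonterminal `X`. -/
inductive Gram.Gen {V : Type*} (G : Gram V) : V → List V → Prop
  | eps {X : V} : G.eps X → G.Gen X []
  | ter {X a : V} : G.ter X a → G.Gen X [a]
  | bin {X Y Z : V} {u v : List V} : G.bin X Y Z → G.Gen Y u → G.Gen Z v → G.Gen X (u ++ v)

/-- The language generated by the grammar. -/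
def Gram.lang {V : Type*} (G : Gram V) : Set (List V) := {w | ∃ X, G.start X ∧ G.Gen X w}

/-- Relation symbols of the vocabulary of instances. -/
inductive CfgRel : ℕ → Type
  | le : CfgRel 2
  | kbit : CfgRel 1
  | bin (g : Bool) : CfgRel 3
  | ter (g : Bool) : CfgRel 2
  | eps (g : Bool) : CfgRel 1
  | start (g : Bool) : CfgRel 1

/-- The vocabulary of instances `(k, G₁, G₂)`. -/
def cfgLang : FirstOrder.Language.{0, 0} := ⟨fun _ => Empty, CfgRel⟩

theorem cfgLang_rel : cfgLang.IsRelational := fun _ => inferInstanceAs (IsEmpty Empty)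

/-- The order of the universe. -/
def leOf (A : FinStr cfgLang) (x y : A.carrier) : Prop :=
  @Structure.RelMap cfgLang A.carrier A.str 2 CfgRel.le ![x, y]

/-- The binary digits of `k` that are `1`. -/
def kbitOf (A : FinStr cfgLang) : Set A.carrier :=
  {x | @Structure.RelMap cfgLang A.carrier A.str 1 CfgRel.kbit ![x]}

/-- The two grammars of an instance. -/
def gramOf (A : FinStr cfgLang) (g : Bool) : Gram A.carrier where
  bin X Y Z := @Structure.RelMap cfgLang A.carrier A.str 3 (CfgRel.bin g) ![X, Y, Z]
  ter X a := @Structure.RelMap cfgLang A.carrier A.str 2 (CfgRel.ter g) ![X, a]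
  eps X := @Structure.RelMap cfgLang A.carrier A.str 1 (CfgRel.eps g) ![X]
  start X := @Structure.RelMap cfgLang A.carrier A.str 1 (CfgRel.start g) ![X]

/-- `le` is a linear order. -/
def IsLin {V : Type*} (le : V → V → Prop) : Prop :=
  (∀ x, le x x) ∧ (∀ x y z, le x y → le y z → le x z) ∧ (∀ x y, le x y → le y x → x = y) ∧
    ∀ x y, le x y ∨ le y x

/-- The number with binary digits `S`: the digit at `x` has weight `2 ^ i`, where `i` is the
number of the elements below `x`. -/
noncomputable def val {V : Type*} (le : V → V → Prop) (S : Set V) : ℕ :=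
  ∑ᶠ x ∈ S, 2 ^ {y | le y x ∧ y ≠ x}.ncard

/-- The number `k` of an instance. -/
noncomputable def kOf (A : FinStr cfgLang) : ℕ := val (leOf A) (kbitOf A)

/-- The structure is an instance of CF-≡: the universe is linearly ordered, `k` is positive,
and each of the two grammars has exactly one start symbol. -/
def IsInst (A : FinStr cfgLang) : Prop :=
  IsLin (leOf A) ∧ 1 ≤ kOf A ∧ ∀ g, ∃! X, (gramOf A g).start X

/-- The decision problem CF-≡. -/
def CFEquiv : Prob cfgLang := fun A =>
  IsInst A ∧ nbhd (kOf A) (gramOf A false).lang = nbhd (kOf A) (gramOf A true).lang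

end Pool.Agent.H92.Simon
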