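import Pool.Agent.H92.Simon.ErrL

/-!
Words with errors and violated constraints.
-/

namespace Pool.Agent.H92.Simon

open FirstOrder FirstOrder.Language Desc

variable {σ : FirstOrder.Language.{0, 0}} {r N P : ℕ} {K J : Type}

/-- the block at the position `l` -/
def blkAt {A : Type} (x : List (VG K J N r P A)) (l : ℕ) : K → Bool :=
  match x[l]? with
  | some ⟨.ltr b, _⟩ => b
  | _ => fun _ => false

theorem blkAt_eq {A : Type} {x u v : List (VG K J N r P A)} {a : VG K J N r P A} {b : K → Bool}
    (hx : x = u ++ a :: v) (ha : a.1 = .ltr b) : blkAt x u.length = b := by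
  obtain ⟨s, w⟩ := a
  simp only at ha
  subst ha
  unfold blkAt
  rw [hx, List.getElem?_append_right le_rfl]
  simp

theorem exists_blkAt {A : Type} {x : List (VG K J N r P A)} {l L : ℕ} (hx : Bw L x) (hl : l < L) :
    ∃ u a v, x = u ++ a :: v ∧ u.length = l ∧ a.1 = .ltr (blkAt x l) ∧ Bw l u ∧
      ∀ b ∈ v, IsL b := by
  obtain ⟨u, v, rfl, h1, h2⟩ := Bw.split (l := l) (l' := L - l) (by
    rw [Nat.add_sub_cancel' hl.le]
    exact hx)
  cases v with
  | nil =>
    exfalso
    have := h2.1
    simp at this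
    omega
  | cons a v =>
    obtain ⟨b, hb⟩ := h2.2 a (List.mem_cons_self)
    refine ⟨u, a, v, rfl, h1.1, ?_, h1, fun c hc => h2.2 c (List.mem_cons_of_mem _ hc)⟩
    rw [← h1.1, blkAt_eq rfl hb]
    exact hb

variable {con : J → Con σ r N K} {ι : Emb con P} {c : (ordCls σ).ι}

/-- the assignment coded by a word -/
noncomputable def asg (x : List (VG K J N r P ((ordCls σ).car c))) (v : Fin N → Us r c) :
    K → Bool := blkAt x (num leL v)

theorem num_of_at {p : Pat σ r N} {π : p.Par → (ordCls σ).car c} {v : Fin N → Us r c}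
    (h : p.At c π v) : Num c p π (MM r N c) (num leL v) := by
  refine ⟨bset leL v, fun i hi => bset_lt hi, rfl, fun n x _ => ?_⟩
  rw [mem_bset (D := Fin r → (ordCls σ).car c) isLin_leL]
  exact h.2 n x

theorem at_of_num {p : Pat σ r N} {π : p.Par → (ordCls σ).car c} {l : ℕ}
    (hc : p.cond c π) (h : Num c p π (MM r N c) l) : ∃ v : Fin N → Us r c, p.At c π v ∧
      num leL v = l := by
  obtain ⟨s, h1, h2, h3⟩ := h
  obtain ⟨v, hv⟩ := exists_num (D := Fin r → (ordCls σ).car c) (N := N) isLin_leL h1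
  refine ⟨v, ⟨hc, fun n x => ?_⟩, ?_⟩
  · have := h3 n x (pos_lt n.2 x)
    rw [← hv, mem_bset (D := Fin r → (ordCls σ).car c) isLin_leL] at this
    exact this
  · unfold num
    rw [hv]
    exact h2.symm

theorem nfpat_mem {n : Fin N} {v : Fin N → Us r c} :
    (nfpat σ r n).Mem c v ↔ v n ≠ Set.univ := by
  constructor
  · rintro ⟨π, _, h⟩ he
    have h1 : (π : Fin r → (ordCls σ).car c) ∈ v n := by
      rw [he]
      trivial
    have : (true : Bool) = false := (h n π).1 h1 rfl (fun _ => rfl)
    simp at this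
  · intro h
    rw [Set.ne_univ_iff_exists_notMem] at h
    obtain ⟨x, hx⟩ := h
    refine ⟨x, trivial, fun n' z => ⟨?_, fun _ _ _ => rfl⟩⟩
    rintro hz rfl he
    have : z = x := funext he
    rw [this] at hz
    exact absurd hz hx

theorem exists_succ {X : Us r c} (h : X ≠ Set.univ) : ∃ Y : Us r c, nv c Y = nv c X + 1 := by
  refine exists_nv ?_
  have h1 := nv_le_univ X
  have h2 : nv c X ≠ nv c (Set.univ : Us r c) := fun he => h (nv_inj he)
  omega

theorem exists_prm (hι : ∀ j, Function.Injective (ι j)) (j : Option J)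
    (π : (patOf con j).Par → (ordCls σ).car c) :
    ∃ w : Fin (r + P) → (ordCls σ).car c, prm ι j w = π := by
  classical
  refine ⟨Fin.append (fun _ => mn c) (fun k => if h : ∃ q, ι j q = k then π h.choose else mn c),
    ?_⟩
  funext q
  unfold prm
  rw [pp_append]
  have h : ∃ q', ι j q' = ι j q := ⟨q, rfl⟩
  rw [dif_pos h]
  congr 1
  exact hι j h.choose_spec

theorem err_sat {x : List (VG K J N r P ((ordCls σ).car c))} (hx : Bw (2 ^ MM r N c) x)
    (h : ErrW con ι c x) : ∃ j, ¬ (con j).Sat c (asg x) := by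
  obtain ⟨j, w, l, u, y, rfl, hu, hc, hl, he⟩ := h
  obtain ⟨v, hv, hvl⟩ := at_of_num hc hl
  have hmem : (patOf con (some j)).Mem c v := ⟨_, hv⟩
  refine ⟨j, ?_⟩
  rcases he with ⟨p, F, b, h1, h2, a, y', rfl, ha, hy'⟩ |
    ⟨m, F, b, b', h1, h2, a, y', rfl, ha, l', u', v', rfl, hl', hu', a', y'', rfl, ha', hy''⟩
  · have hp : patOf con (some j) = p := by
      simp only [patOf, h1, cpatOf]
    rw [hp] at hmem
    rw [h1]
    intro hs
    have h3 : F (asg (u ++ a :: y') v) := hs v hmem
    unfold asg at h3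
    rw [hvl, ← hu.1, blkAt_eq rfl ha] at h3
    exact h2 h3
  · have hp : patOf con (some j) = nfpat σ r m := by
      simp only [patOf, h1, cpatOf]
    rw [hp, nfpat_mem] at hmem
    obtain ⟨X, hX⟩ := exists_succ hmem
    rw [h1]
    intro hs
    have h3 : F (asg (u ++ a :: (u' ++ a' :: y'')) v)
      (asg (u ++ a :: (u' ++ a' :: y'')) (Function.update v m X)) := hs v X hX
    unfold asg at h3
    rw [num_update (D := Fin r → (ordCls σ).car c) isLin_leL v m X hX, hvl] at h3
    have e1 : l + 2 ^ (m.1 * Nat.card (Fin r → (ordCls σ).car c)) = (u ++ a :: u').length := by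
      rw [List.length_append, List.length_cons, hu.1, hu'.1]
      omega
    have e2 : u ++ a :: (u' ++ a' :: y'') = (u ++ a :: u') ++ a' :: y'' := by simp
    have e3 : blkAt (u ++ a :: (u' ++ a' :: y'')) l = b := by
      rw [← hu.1]
      exact blkAt_eq rfl ha
    rw [e3, e1, blkAt_eq e2 ha'] at h3
    exact h2 h3

theorem sat_err (hι : ∀ j, Function.Injective (ι j))
    {x : List (VG K J N r P ((ordCls σ).car c))} (hx : Bw (2 ^ MM r N c) x)
    (h : ∃ j, ¬ (con j).Sat c (asg x)) : ErrW con ι c x := by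
  obtain ⟨j, h⟩ := h
  -- the general step
  have key : ∀ v : Fin N → Us r c, (patOf con (some j)).Mem c v →
      ∃ (w : Fin (r + P) → (ordCls σ).car c) (u : List _) (a : VG K J N r P ((ordCls σ).car c))
        (y : List _), x = u ++ a :: y ∧ Bw (num leL v) u ∧ a.1 = .ltr (asg x v) ∧
        (∀ b ∈ y, IsL b) ∧ (patOf con (some j)).cond c (prm ι (some j) w) ∧
        Num c (patOf con (some j)) (prm ι (some j) w) (MM r N c) (num leL v) := by
    rintro v ⟨π, hπ⟩
    obtain ⟨w, hw⟩ := exists_prm hι (some j) π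
    obtain ⟨u, a, y, h1, h2, h3, h4, h5⟩ := exists_blkAt hx (num_lt (le := leL) v)
    subst hw
    exact ⟨w, u, a, y, h1, h4, h3, h5, hπ.1, num_of_at hπ⟩
  rcases hj : con j with ⟨p, F⟩ | ⟨m, F⟩
  · rw [hj] at h
    have h' : ¬ ∀ v, p.Mem c v → F (asg x v) := h
    push Not at h'
    obtain ⟨v, h1, h2⟩ := h'
    have hp : patOf con (some j) = p := by
      simp only [patOf, hj, cpatOf]
    obtain ⟨w, u, a, y, g1, g2, g3, g4, g5, g6⟩ := key v (by rw [hp]; exact h1)
    exact ⟨j, w, _, u, _, g1, g2, g5, g6, Or.inl ⟨p, F, _, hj, h2, a, y, rfl, g3, g4⟩⟩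
  · rw [hj] at h
    have h' : ¬ ∀ v X, nv c X = nv c (v m) + 1 → F (asg x v) (asg x (Function.update v m X)) := h
    push Not at h'
    obtain ⟨v, X, hX, h2⟩ := h'
    have hp : patOf con (some j) = nfpat σ r m := by
      simp only [patOf, hj, cpatOf]
    have hne : v m ≠ Set.univ := by
      intro he
      have := nv_le_univ X
      rw [he] at hX
      omega
    obtain ⟨w, u, a, y, g1, g2, g3, g4, g5, g6⟩ := key v (by rw [hp, nfpat_mem]; exact hne)
    refine ⟨j, w, _, u, _, g1, g2, g5, g6, Or.inr ⟨m, F, _, _, hj, h2, a, y, rfl, g3, ?_⟩⟩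
    have e1 := num_update (D := Fin r → (ordCls σ).car c) isLin_leL v m X hX
    have e2 := num_lt (le := leL) (Function.update v m X)
    have e3 : 0 < 2 ^ (m.1 * Nat.card (Fin r → (ordCls σ).car c)) := by positivity
    have hyl : y.length + 1 + num leL v = 2 ^ MM r N c := by
      have := hx.1
      rw [g1, List.length_append, List.length_cons, g2.1] at this
      omega
    have hy : Bw y.length y := ⟨rfl, g4⟩
    have e4 : num leL (Function.update v m X) < 2 ^ MM r N c := e2
    obtain ⟨u', a', y', f1, f2, f3, f4, f5⟩ := exists_blkAt (l :=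
      2 ^ (m.1 * Nat.card (Fin r → (ordCls σ).car c)) - 1) hy (by omega)
    refine ⟨_, u', a' :: y', f1, ?_, f4, a', y', rfl, ?_, f5⟩
    · omega
    · have e5 : x = (u ++ a :: u') ++ a' :: y' := by
        rw [g1, f1]
        simp
      have e6 : asg x (Function.update v m X) = blkAt y
          (2 ^ (m.1 * Nat.card (Fin r → (ordCls σ).car c)) - 1) := by
        unfold asg
        have e7 : num leL (Function.update v m X) = (u ++ a :: u').length := by
          rw [List.length_append, List.length_cons, g2.1, f2, e1]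
          omega
        rw [e7]
        exact blkAt_eq e5 f3
      rw [e6]
      exact f3

theorem all_err_iff (hι : ∀ j, Function.Injective (ι j)) :
    (∀ x : List (VG K J N r P ((ordCls σ).car c)), Bw (2 ^ MM r N c) x → ErrW con ι c x) ↔
      ¬ ∃ γ : (Fin N → Us r c) → K → Bool, ∀ j, (con j).Sat c γ := by
  constructor
  · rintro h ⟨γ, hγ⟩
    choose tup htup using fun l : Fin (2 ^ MM r N c) =>
      exists_num' (D := Fin r → (ordCls σ).car c) (N := N) isLin_leL l.2
    let x : List (VG K J N r P ((ordCls σ).car c)) :=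
      List.ofFn (fun i : Fin (2 ^ MM r N c) => ⟨.ltr (γ (tup i)), fun _ => mn c⟩)
    have hx : Bw (2 ^ MM r N c) x := by
      refine ⟨by simp [x], fun a ha => ?_⟩
      rw [List.mem_ofFn] at ha
      obtain ⟨i, rfl⟩ := ha
      exact ⟨_, rfl⟩
    have hasg : asg x = γ := by
      funext v
      have hl : num leL v < 2 ^ MM r N c := num_lt v
      unfold asg blkAt
      have : x[num leL v]? = some ⟨.ltr (γ (tup ⟨num leL v, hl⟩)), fun _ => mn c⟩ := by
        rw [List.getElem?_eq_some_iff]
        refine ⟨by simpa [x] using hl, ?_⟩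
        simp [x]
      rw [this]
      simp only
      have h2 := htup ⟨num leL v, hl⟩
      rw [num_inj (D := Fin r → (ordCls σ).car c) isLin_leL h2]
    obtain ⟨j, hj⟩ := err_sat hx (h x hx)
    rw [hasg] at hj
    exact hj (hγ j)
  · intro h x hx
    refine sat_err hι hx ?_
    by_contra hcon
    push Not at hcon
    exact h ⟨_, hcon⟩

end Pool.Agent.H92.Simon
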