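import Pool.Agent.H92.Simon.Count
import Pool.Agent.H92.Simon.Core
import Pool.Agent.H92.Desc.EForm
import Pool.Agent.H92.Desc.Cyc

/-!
The grammar of the errors of a coded assignment.
-/

namespace Pool.Agent.H92.Simon

open FirstOrder FirstOrder.Language Desc

/-- sorts -/
inductive Srt (K J : Type) (N : ℕ)
  | ltr (b : K → Bool)
  | eps
  | one
  | any
  | blk (b : K → Bool)
  | y (n : Fin (N + 1))
  | p (j : Option J) (n : Fin (N + 1))
  | cs (b : K → Bool)
  | cp (n : Fin N) (b b' : K → Bool)
  | cq (n : Fin N) (b' : K → Bool)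
  | st (g : Bool)

variable {σ : FirstOrder.Language.{0, 0}} {r N P : ℕ} {K J : Type}

/-- the pattern of the tuples whose digit `n` is not full -/
def nfpat (σ : FirstOrder.Language.{0, 0}) (r : ℕ) (n : Fin N) : Pat σ r N where
  Par := Fin r
  fin := inferInstance
  al b n' _ x y := n' = n → (∀ t, x t = y t) → b = false
  cond _ _ := True
  hal b n' := (UDef.const _).imp ((UDef.forallFin fun t =>
        UDef.eq (𝒞 := ordCls σ) (Sum.inl t) (Sum.inr t)).imp (UDef.const _))
  hcond := UDef.const _

/-- the pattern of the tuple with full digits -/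
def onpat (σ : FirstOrder.Language.{0, 0}) (r N : ℕ) : Pat σ r N where
  Par := Empty
  fin := inferInstance
  al b _ _ _ _ := b = true
  cond _ _ := True
  hal _ _ := UDef.const _
  hcond := UDef.const _

/-- the pattern of a constraint -/
def cpatOf : Con σ r N K → Pat σ r N
  | .single p _ => p
  | .pair n _ => nfpat σ r n

/-- the patterns -/
def patOf (con : J → Con σ r N K) : Option J → Pat σ r N
  | none => onpat σ r N
  | some j => cpatOf (con j)

/-- index part of a tuple -/
def ix {A : Type} (w : Fin (r + P) → A) : Fin r → A := fun t => w (Fin.castAdd P t)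

/-- parameter part of a tuple -/
def pp {A : Type} (w : Fin (r + P) → A) : Fin P → A := fun t => w (Fin.natAdd r t)

/-- embeddings of the parameters -/
abbrev Emb (con : J → Con σ r N K) (P : ℕ) := ∀ j, (patOf con j).Par → Fin P

/-- the parameters of the pattern `j` -/
def prm {con : J → Con σ r N K} (ι : Emb con P) (j : Option J) {A : Type}
    (w : Fin (r + P) → A) : (patOf con j).Par → A := fun q => pp w (ι j q)

/-- covering relation of the lexicographic order of the indices -/
def Cover {A : Type} [LinearOrder A] (n' : Fin (N + 1)) (x' : Fin r → A) (n : Fin (N + 1))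
    (x : Fin r → A) : Prop :=
  ltT (n', x') (n, x) ∧ ∀ (m : Fin (N + 1)) (z : Fin r → A),
    ¬ (ltT (n', x') (m, z) ∧ ltT (m, z) (n, x))

/-- the least index -/
def IsMin (c : (ordCls σ).ι) (x : Fin r → (ordCls σ).car c) : Prop := ∀ t, x t = mn c

/-- the binary rules -/
def binG (con : J → Con σ r N K) (ι : Emb con P) (s1 s2 s3 : Srt K J N) (c : (ordCls σ).ι)
    (w1 w2 w3 : Fin (r + P) → (ordCls σ).car c) : Prop :=
  match s1, s2, s3 with
  | .any, .one, .any => True
  | .y n, .p none n', .one => n' = n ∧ ix w2 = ix w1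
  | .p j n, .eps, .p j' n' => j' = j ∧ pp w3 = pp w1 ∧ Cover n' (ix w3) n (ix w1) ∧
      ∃ h : n'.1 < N, (patOf con j).al false ⟨n'.1, h⟩ c (ix w3) (prm ι j w1)
  | .p j n, .y m, .p j' n' => m = n' ∧ ix w2 = ix w3 ∧ j' = j ∧ pp w3 = pp w1 ∧
      Cover n' (ix w3) n (ix w1) ∧
      ∃ h : n'.1 < N, (patOf con j).al true ⟨n'.1, h⟩ c (ix w3) (prm ι j w1)
  | .cs b, .blk b', .any => b' = b
  | .cp n b b', .blk b1, .cq n' b2 => n' = n ∧ b1 = b ∧ b2 = b'
  | .cq n b', .p none n', .cs b1 => n'.1 = n.1 ∧ IsMin c (ix w2) ∧ b1 = b'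
  | .st _, .p (some j) n, .cs b => n = Fin.last N ∧ IsMin c (ix w2) ∧
      (patOf con (some j)).cond c (prm ι (some j) w2) ∧ ∃ p F, con j = .single p F ∧ ¬ F b
  | .st _, .p (some j) n, .cp m b b' => n = Fin.last N ∧ IsMin c (ix w2) ∧
      (patOf con (some j)).cond c (prm ι (some j) w2) ∧ ∃ F, con j = .pair m F ∧ ¬ F b b'
  | .st false, .y n, .eps => n = Fin.last N ∧ IsMin c (ix w2)
  | _, _, _ => False

/-- the terminal rules -/
def terG (s1 s2 : Srt K J N) : Prop :=
  match s1, s2 with
  | .blk b, .ltr b' => b' = b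
  | .one, .ltr _ => True
  | _, _ => False

/-- the erasing rules -/
def epsG (s : Srt K J N) (c : (ordCls σ).ι) (w : Fin (r + P) → (ordCls σ).car c) : Prop :=
  match s with
  | .eps => True
  | .any => True
  | .p _ n => n.1 = 0 ∧ IsMin c (ix w)
  | _ => False

/-- the universe -/
abbrev VG (K J : Type) (N r P : ℕ) (A : Type) : Type := Σ _ : Srt K J N, (Fin (r + P) → A)

/-- the grammars -/
def GG (con : J → Con σ r N K) (ι : Emb con P) (c : (ordCls σ).ι) (g : Bool) :
    Gram (VG K J N r P ((ordCls σ).car c)) where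
  bin X Y Z := binG con ι X.1 Y.1 Z.1 c X.2 Y.2 Z.2
  ter X a := terG X.1 a.1
  eps X := epsG X.1 c X.2
  start X := X.1 = .st g ∧ ∀ t, X.2 t = mn c

/-! ranks -/

section rank

variable {c : (ordCls σ).ι}

theorem leL_iff {A : Type} [LinearOrder A] {x y : Fin r → A} :
    (leL x y ∧ x ≠ y) ↔ ∃ i, (∀ k, k < i → x k = y k) ∧ x i < y i := by
  constructor
  · rintro ⟨h | h, hne⟩
    · exact absurd h hne
    · exact h
  · rintro ⟨i, h1, h2⟩
    refine ⟨Or.inr ⟨i, h1, h2⟩, ?_⟩
    rintro rfl
    exact lt_irrefl _ h2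

theorem ltT_iff {n n' : Fin (N + 1)} {x x' : Fin r → (ordCls σ).car c} :
    ltT (n', x') (n, x) ↔ pos leL n'.1 x' < pos leL n.1 x := by
  unfold ltT
  have h1 := rk_lt_card (le := leL) x
  have h2 := rk_lt_card (le := leL) x'
  have h3 := rk_lt_iff (V := Fin r → (ordCls σ).car c) isLin_leL (x := x') (y := x)
  rw [leL_iff] at h3
  simp only [← h3]
  unfold pos
  constructor
  · rintro (h | ⟨h, h'⟩)
    · have h4 : n'.1 < n.1 := h
      calc n'.1 * Nat.card (Fin r → (ordCls σ).car c) + rk leL x'
          < n'.1 * Nat.card (Fin r → (ordCls σ).car c) + Nat.card (Fin r → (ordCls σ).car c) := by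
            omega
        _ = (n'.1 + 1) * Nat.card (Fin r → (ordCls σ).car c) := by ring
        _ ≤ n.1 * Nat.card (Fin r → (ordCls σ).car c) := Nat.mul_le_mul_right _ h4
        _ ≤ _ := Nat.le_add_right _ _
    · have h4 : n' = n := h
      rw [h4]
      omega
  · intro h
    rcases lt_trichotomy n'.1 n.1 with h4 | h4 | h4
    · exact Or.inl h4
    · right
      refine ⟨Fin.ext h4, ?_⟩
      rw [h4] at h
      omega
    · exfalso
      have : n'.1 * Nat.card (Fin r → (ordCls σ).car c) ≥
          n.1 * Nat.card (Fin r → (ordCls σ).car c) + Nat.card (Fin r → (ordCls σ).car c) := by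
        calc n.1 * Nat.card (Fin r → (ordCls σ).car c) + Nat.card (Fin r → (ordCls σ).car c) =
            (n.1 + 1) * Nat.card (Fin r → (ordCls σ).car c) := by ring
          _ ≤ _ := Nat.mul_le_mul_right _ h4
      omega

theorem cover_iff {n n' : Fin (N + 1)} {x x' : Fin r → (ordCls σ).car c} :
    Cover n' x' n x ↔ pos leL n.1 x = pos leL n'.1 x' + 1 := by
  unfold Cover
  simp only [ltT_iff]
  constructor
  · rintro ⟨h1, h2⟩
    by_contra hne
    have h3 : pos leL n'.1 x' + 1 < (N + 1) * Nat.card (Fin r → (ordCls σ).car c) := by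
      have := pos_lt (le := leL) n.2 x
      omega
    obtain ⟨m, hm, z, hz⟩ := exists_pos isLin_leL h3
    exact h2 ⟨m, hm⟩ z ⟨by simp only; omega, by simp only; omega⟩
  · intro h
    exact ⟨by omega, fun m z hz => by omega⟩

theorem rk_isMin {x : Fin r → (ordCls σ).car c} (h : IsMin c x) : rk leL x = 0 := by
  unfold rk
  rw [Set.ncard_eq_zero (Set.toFinite _)]
  ext y
  simp only [Set.mem_setOf_eq, Set.mem_empty_iff_false, iff_false]
  intro hy
  rw [leL_iff] at hy
  obtain ⟨i, _, h2⟩ := hy
  rw [h i] at h2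
  exact absurd h2 (not_lt.2 (mn_le c _))

theorem isMin_of_rk {x : Fin r → (ordCls σ).car c} (h : rk leL x = 0) : IsMin c x := by
  have h0 : IsMin c (fun _ : Fin r => mn c) := fun _ => rfl
  have := rk_inj (V := Fin r → (ordCls σ).car c) isLin_leL (h.trans (rk_isMin h0).symm)
  rw [this]
  exact h0

end rank

/-! numbers and words -/

section words

variable (con : J → Con σ r N K) (ι : Emb con P) (c : (ordCls σ).ι)

/-- the exponent of the number of positions -/
noncomputable def MM (r N : ℕ) (c : (ordCls σ).ι) : ℕ := N * Nat.card (Fin r → (ordCls σ).car c)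

/-- the numbers below `2 ^ R` that match the pattern -/
def Num (p : Pat σ r N) (π : p.Par → (ordCls σ).car c) (R l : ℕ) : Prop :=
  ∃ s : Finset ℕ, (∀ i ∈ s, i < R) ∧ l = ∑ i ∈ s, 2 ^ i ∧
    ∀ (n : Fin N) (x : Fin r → (ordCls σ).car c), pos leL n.1 x < R →
      ((pos leL n.1 x ∈ s → p.al true n c x π) ∧ (pos leL n.1 x ∉ s → p.al false n c x π))

/-- letters -/
def IsL {A : Type} (a : VG K J N r P A) : Prop := ∃ b, a.1 = .ltr b

/-- words of length `l` -/
def Bw {A : Type} (l : ℕ) (x : List (VG K J N r P A)) : Prop := x.length = l ∧ ∀ a ∈ x, IsL a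

variable {con ι c}

theorem Bw.append {A : Type} {l l' : ℕ} {x x' : List (VG K J N r P A)} (h : Bw l x)
    (h' : Bw l' x') : Bw (l + l') (x ++ x') := by
  refine ⟨by rw [List.length_append, h.1, h'.1], fun a ha => ?_⟩
  rcases List.mem_append.1 ha with ha | ha
  · exact h.2 a ha
  · exact h'.2 a ha

theorem Bw.split {A : Type} {l l' : ℕ} {x : List (VG K J N r P A)} (h : Bw (l + l') x) :
    ∃ u v, x = u ++ v ∧ Bw l u ∧ Bw l' v := by
  refine ⟨x.take l, x.drop l, (List.take_append_drop _ _).symm, ⟨?_, fun a ha => ?_⟩,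
    ⟨?_, fun a ha => ?_⟩⟩
  · rw [List.length_take, h.1]
    omega
  · exact h.2 a (List.mem_of_mem_take ha)
  · rw [List.length_drop, h.1]
    omega
  · exact h.2 a (List.mem_of_mem_drop ha)

theorem num_zero {p : Pat σ r N} {π : p.Par → (ordCls σ).car c} {l : ℕ} (h : Num c p π 0 l) :
    l = 0 := by
  obtain ⟨s, h1, h2, _⟩ := h
  have : s = ∅ := by
    apply Finset.eq_empty_of_forall_notMem
    intro i hi
    exact absurd (h1 i hi) (by omega)
  rw [h2, this]
  rfl

theorem num_zero' {p : Pat σ r N} {π : p.Par → (ordCls σ).car c} : Num c p π 0 0 :=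
  ⟨∅, by simp, by simp, fun n x h => absurd h (by omega)⟩

theorem num_succ {p : Pat σ r N} {π : p.Par → (ordCls σ).car c} {R l : ℕ} {n : Fin N}
    {x : Fin r → (ordCls σ).car c} (hR : pos leL n.1 x = R) :
    Num c p π (R + 1) l ↔ (p.al false n c x π ∧ Num c p π R l) ∨
      (p.al true n c x π ∧ ∃ l', l = 2 ^ R + l' ∧ Num c p π R l') := by
  constructor
  · rintro ⟨s, h1, h2, h3⟩
    by_cases hs : R ∈ s
    · right
      refine ⟨(h3 n x (by omega)).1 (by rw [hR]; exact hs), ∑ i ∈ s.erase R, 2 ^ i, ?_,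
        s.erase R, ?_, rfl, ?_⟩
      · rw [h2, Finset.add_sum_erase s (fun i => 2 ^ i) hs]
      · intro i hi
        rw [Finset.mem_erase] at hi
        have := h1 i hi.2
        omega
      · intro n' x' hlt
        obtain ⟨h4, h5⟩ := h3 n' x' (by omega)
        refine ⟨fun h6 => h4 (Finset.mem_of_mem_erase h6), fun h6 => h5 fun h7 => h6 ?_⟩
        exact Finset.mem_erase.2 ⟨by omega, h7⟩
    · left
      refine ⟨(h3 n x (by omega)).2 (by rw [hR]; exact hs), s, ?_, h2, ?_⟩
      · intro i hi
        have h4 := h1 i hi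
        have h5 : i ≠ R := by
          rintro rfl
          exact hs hi
        omega
      · intro n' x' hlt
        exact h3 n' x' (by omega)
  · rintro (⟨ha, s, h1, h2, h3⟩ | ⟨ha, l', rfl, s, h1, h2, h3⟩)
    · refine ⟨s, fun i hi => Nat.lt_succ_of_lt (h1 i hi), h2, ?_⟩
      intro n' x' hlt
      by_cases he : pos leL n'.1 x' = R
      · obtain ⟨e1, e2⟩ := pos_inj (D := Fin r → (ordCls σ).car c) isLin_leL (he.trans hR.symm)
        have e3 : n' = n := Fin.ext e1
        subst e3 e2
        refine ⟨fun h4 => ?_, fun _ => ha⟩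
        have := h1 _ h4
        omega
      · exact h3 n' x' (by omega)
    · have hRs : R ∉ s := fun h => absurd (h1 R h) (by omega)
      refine ⟨insert R s, ?_, ?_, ?_⟩
      · intro i hi
        rcases Finset.mem_insert.1 hi with h4 | h4
        · omega
        · have := h1 i h4
          omega
      · rw [Finset.sum_insert hRs, h2]
      · intro n' x' hlt
        by_cases he : pos leL n'.1 x' = R
        · obtain ⟨e1, e2⟩ := pos_inj (D := Fin r → (ordCls σ).car c) isLin_leL (he.trans hR.symm)
          have e3 : n' = n := Fin.ext e1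
          subst e3 e2
          refine ⟨fun _ => ha, fun h4 => ?_⟩
          exact absurd (Finset.mem_insert.2 (Or.inl he)) h4
        · obtain ⟨h4, h5⟩ := h3 n' x' (by omega)
          refine ⟨fun h6 => h4 ?_, fun h6 => h5 fun h7 => h6 (Finset.mem_insert_of_mem h7)⟩
          rcases Finset.mem_insert.1 h6 with h7 | h7
          · exact absurd h7 he
          · exact h7

theorem num_ones {π : (onpat σ r N).Par → (ordCls σ).car c} {R l : ℕ} (hR : R ≤ MM r N c) :
    Num c (onpat σ r N) π R l ↔ l + 1 = 2 ^ R := by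
  constructor
  · rintro ⟨s, h1, h2, h3⟩
    have : s = Finset.range R := by
      ext i
      rw [Finset.mem_range]
      refine ⟨fun hi => h1 i hi, fun hi => ?_⟩
      obtain ⟨n, hn, x, rfl⟩ := exists_pos (D := Fin r → (ordCls σ).car c) (N := N) isLin_leL
        (lt_of_lt_of_le hi hR)
      by_contra hcon
      have : (false : Bool) = true := (h3 ⟨n, hn⟩ x hi).2 hcon
      simp at this
    rw [h2, this]
    exact sum_range_pow R
  · intro h
    refine ⟨Finset.range R, fun i hi => Finset.mem_range.1 hi, ?_, ?_⟩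
    · have := sum_range_pow R
      omega
    · intro n x hlt
      refine ⟨fun _ => rfl, fun h4 => ?_⟩
      exact absurd (Finset.mem_range.2 hlt) h4

end words

end Pool.Agent.H92.Simon
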