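import Pool.Agent.H92.Simon.ErrG

/-!
The languages of the grammars of errors.
-/

namespace Pool.Agent.H92.Simon

open FirstOrder FirstOrder.Language Desc

variable {σ : FirstOrder.Language.{0, 0}} {r N P : ℕ} {K J : Type}

/-- a letter of the block `b` and arbitrary letters -/
def CS {A : Type} (b : K → Bool) (x : List (VG K J N r P A)) : Prop :=
  ∃ a x', x = a :: x' ∧ a.1 = .ltr b ∧ ∀ a ∈ x', IsL a

/-- a gap and a letter of the block `b'` -/
def CQ (c : (ordCls σ).ι) (n : Fin N) (b' : K → Bool)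
    (x : List (VG K J N r P ((ordCls σ).car c))) : Prop :=
  ∃ l u v, x = u ++ v ∧ l + 1 = 2 ^ (n.1 * Nat.card (Fin r → (ordCls σ).car c)) ∧ Bw l u ∧
    CS b' v

/-- a letter of the block `b`, a gap and a letter of the block `b'` -/
def CP (c : (ordCls σ).ι) (n : Fin N) (b b' : K → Bool)
    (x : List (VG K J N r P ((ordCls σ).car c))) : Prop :=
  ∃ a x', x = a :: x' ∧ a.1 = .ltr b ∧ CQ c n b' x'

/-- an error of the constraint `j` -/
def ErrAt (con : J → Con σ r N K) (c : (ordCls σ).ι) (j : J)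
    (x : List (VG K J N r P ((ordCls σ).car c))) : Prop :=
  (∃ p F b, con j = .single p F ∧ ¬ F b ∧ CS b x) ∨
    (∃ m F b b', con j = .pair m F ∧ ¬ F b b' ∧ CP c m b b' x)

/-- words with an error -/
def ErrW (con : J → Con σ r N K) (ι : Emb con P) (c : (ordCls σ).ι)
    (x : List (VG K J N r P ((ordCls σ).car c))) : Prop :=
  ∃ (j : J) (w : Fin (r + P) → (ordCls σ).car c) (l : ℕ) (u v : List _), x = u ++ v ∧ Bw l u ∧
    (patOf con (some j)).cond c (prm ι (some j) w) ∧
    Num c (patOf con (some j)) (prm ι (some j) w) (MM r N c) l ∧ ErrAt con c j v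

variable {con : J → Con σ r N K} {ι : Emb con P} {c : (ordCls σ).ι}

/-- the words generated by the nonterminals -/
def InvG (con : J → Con σ r N K) (ι : Emb con P) (c : (ordCls σ).ι) (s : Srt K J N)
    (w : Fin (r + P) → (ordCls σ).car c) (x : List (VG K J N r P ((ordCls σ).car c))) : Prop :=
  match s with
  | .ltr _ => False
  | .eps => x = []
  | .one => Bw 1 x
  | .any => ∀ a ∈ x, IsL a
  | .blk b => ∃ a, x = [a] ∧ a.1 = .ltr b
  | .y n => Bw (2 ^ pos leL n.1 (ix w)) x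
  | .p j n => pos leL n.1 (ix w) ≤ MM r N c ∧
      ∃ l, Num c (patOf con j) (prm ι j w) (pos leL n.1 (ix w)) l ∧ Bw l x
  | .cs b => CS b x
  | .cp n b b' => CP c n b b' x
  | .cq n b' => CQ c n b' x
  | .st g => ErrW con ι c x ∨ (g = false ∧ Bw (2 ^ MM r N c) x)

theorem pos_isMin {n : ℕ} {x : Fin r → (ordCls σ).car c} (h : IsMin c x) :
    pos leL n x = n * Nat.card (Fin r → (ordCls σ).car c) := by
  unfold pos
  rw [rk_isMin h, add_zero]

theorem prm_congr {w w' : Fin (r + P) → (ordCls σ).car c} (h : pp w = pp w') (j : Option J) :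
    prm ι j w = prm ι j w' := by
  unfold prm
  rw [h]

theorem gen_inv {g : Bool} {X : VG K J N r P ((ordCls σ).car c)} {x : List _}
    (h : (GG con ι c g).Gen X x) : InvG con ι c X.1 X.2 x := by
  induction h with
  | @eps X h =>
    obtain ⟨s, w⟩ := X
    change epsG s c w at h
    unfold epsG at h
    split at h
    · rfl
    · intro a ha
      simp at ha
    · rename_i j n
      obtain ⟨h1, h2⟩ := h
      have h3 : pos leL n.1 (ix w) = 0 := by
        rw [pos_isMin h2, h1, zero_mul]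
      change pos leL n.1 (ix w) ≤ MM r N c ∧
        ∃ l, Num c (patOf con j) (prm ι j w) (pos leL n.1 (ix w)) l ∧ Bw l []
      rw [h3]
      exact ⟨Nat.zero_le _, 0, num_zero', rfl, by simp⟩
    · exact h.elim
  | @ter X a h =>
    obtain ⟨s, w⟩ := X
    obtain ⟨s', w'⟩ := a
    change terG s s' at h
    unfold terG at h
    split at h
    · subst h
      exact ⟨_, rfl, rfl⟩
    · refine ⟨rfl, fun a ha => ?_⟩
      rw [List.mem_singleton] at ha
      rw [ha]
      exact ⟨_, rfl⟩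
    · exact h.elim
  | @bin X Y Z u v h hg1 hg2 ih1 ih2 =>
    clear hg1 hg2
    obtain ⟨s1, w1⟩ := X
    obtain ⟨s2, w2⟩ := Y
    obtain ⟨s3, w3⟩ := Z
    change binG con ι s1 s2 s3 c w1 w2 w3 at h
    simp only at ih1 ih2 ⊢
    unfold binG at h
    split at h
    · -- any
      have ih1' : Bw 1 u := ih1
      have ih2' : ∀ a ∈ v, IsL a := ih2
      intro a ha
      rcases List.mem_append.1 ha with ha | ha
      · exact ih1'.2 a ha
      · exact ih2' a ha
    · -- y
      rename_i n n'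
      obtain ⟨rfl, h2⟩ := h
      obtain ⟨h3, l, h4, h5⟩ := ih1
      have ih2' : Bw 1 v := ih2
      rw [h2] at h3 h4
      have h4' := (num_ones h3).1 h4
      change Bw (2 ^ pos leL _ (ix w1)) (u ++ v)
      rw [← h4']
      exact h5.append ih2'
    · -- p 0
      rename_i j n j' n'
      obtain ⟨rfl, h2, h3, h4, h5⟩ := h
      have ih1' : u = [] := ih1
      obtain ⟨h6, l, h7, h8⟩ := ih2
      rw [cover_iff] at h3
      rw [ih1', List.nil_append]
      have h9 : pos leL n'.1 (ix w3) < MM r N c := pos_lt h4 _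
      refine ⟨by omega, l, ?_, h8⟩
      rw [h3, num_succ (n := ⟨n'.1, h4⟩) (x := ix w3) rfl]
      left
      refine ⟨h5, ?_⟩
      rw [prm_congr h2] at h7
      exact h7
    · -- p 1
      rename_i j n m j' n'
      obtain ⟨rfl, h1, rfl, h2, h3, h4, h5⟩ := h
      have ih1' : Bw (2 ^ pos leL _ (ix w2)) u := ih1
      obtain ⟨h6, l, h7, h8⟩ := ih2
      rw [cover_iff] at h3
      have h9 : pos leL _ (ix w3) < MM r N c := pos_lt h4 _
      refine ⟨by omega, 2 ^ pos leL m.1 (ix w3) + l, ?_, ?_⟩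
      · rw [h3, num_succ (n := ⟨m.1, h4⟩) (x := ix w3) rfl]
        right
        refine ⟨h5, l, rfl, ?_⟩
        rw [prm_congr h2] at h7
        exact h7
      · rw [h1] at ih1'
        exact ih1'.append h8
    · -- cs
      subst h
      obtain ⟨a, rfl, ha⟩ := ih1
      exact ⟨a, v, rfl, ha, ih2⟩
    · -- cp
      obtain ⟨rfl, rfl, rfl⟩ := h
      obtain ⟨a, rfl, ha⟩ := ih1
      exact ⟨a, v, rfl, ha, ih2⟩
    · -- cq
      obtain ⟨h1, h2, rfl⟩ := h
      obtain ⟨h3, l, h4, h5⟩ := ih1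
      have h4' := (num_ones h3).1 h4
      rw [pos_isMin h2, h1] at h4'
      exact ⟨l, u, v, rfl, h4', h5, ih2⟩
    · -- st single
      rename_i g' j n b
      obtain ⟨rfl, h1, h2, p, F, h3, h4⟩ := h
      obtain ⟨h5, l, h6, h7⟩ := ih1
      rw [pos_isMin h1] at h6
      exact Or.inl ⟨j, w2, l, u, v, rfl, h7, h2, h6, Or.inl ⟨p, F, b, h3, h4, ih2⟩⟩
    · -- st pair
      rename_i g' j n m b b'
      obtain ⟨rfl, h1, h2, F, h3, h4⟩ := h
      obtain ⟨h5, l, h6, h7⟩ := ih1
      rw [pos_isMin h1] at h6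
      exact Or.inl ⟨j, w2, l, u, v, rfl, h7, h2, h6, Or.inr ⟨m, F, b, b', h3, h4, ih2⟩⟩
    · -- st full
      obtain ⟨rfl, h1⟩ := h
      have ih1' : Bw (2 ^ pos leL _ (ix w2)) u := ih1
      have ih2' : v = [] := ih2
      rw [pos_isMin h1] at ih1'
      rw [ih2', List.append_nil]
      exact Or.inr ⟨rfl, ih1'⟩
    · exact h.elim

/-! completeness -/

variable {g : Bool}

theorem gen_bin {s1 s2 s3 : Srt K J N} {w1 w2 w3 : Fin (r + P) → (ordCls σ).car c} {u v : List _}
    (h : binG con ι s1 s2 s3 c w1 w2 w3) (h2 : (GG con ι c g).Gen ⟨s2, w2⟩ u)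
    (h3 : (GG con ι c g).Gen ⟨s3, w3⟩ v) : (GG con ι c g).Gen ⟨s1, w1⟩ (u ++ v) :=
  Gram.Gen.bin (G := GG con ι c g) (X := ⟨s1, w1⟩) (Y := ⟨s2, w2⟩) (Z := ⟨s3, w3⟩) h h2 h3

theorem gen_eps (w : Fin (r + P) → (ordCls σ).car c) : (GG con ι c g).Gen ⟨.eps, w⟩ [] :=
  Gram.Gen.eps trivial

theorem gen_one (w : Fin (r + P) → (ordCls σ).car c) {a : VG K J N r P ((ordCls σ).car c)}
    (ha : IsL a) : (GG con ι c g).Gen ⟨.one, w⟩ [a] := by
  obtain ⟨b, hb⟩ := ha
  refine Gram.Gen.ter ?_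
  change terG .one a.1
  rw [hb]
  exact trivial

theorem gen_blk (w : Fin (r + P) → (ordCls σ).car c) {a : VG K J N r P ((ordCls σ).car c)}
    {b : K → Bool} (hb : a.1 = .ltr b) : (GG con ι c g).Gen ⟨.blk b, w⟩ [a] := by
  refine Gram.Gen.ter ?_
  change terG (.blk b) a.1
  rw [hb]
  rfl

theorem gen_any (w : Fin (r + P) → (ordCls σ).car c) {x : List (VG K J N r P ((ordCls σ).car c))}
    (hx : ∀ a ∈ x, IsL a) : (GG con ι c g).Gen ⟨.any, w⟩ x := by
  induction x with
  | nil => exact Gram.Gen.eps trivial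
  | cons a x ih =>
    have h1 := gen_one (con := con) (ι := ι) (g := g) w (hx a (List.mem_cons_self))
    have h2 := ih fun b hb => hx b (List.mem_cons_of_mem _ hb)
    refine gen_bin (u := [a]) (v := x) ?_ h1 h2
    trivial

theorem gen_y_of {R : ℕ} (hR : R ≤ MM r N c)
    (hP : ∀ (j : Option J) (n : Fin (N + 1)) (w : Fin (r + P) → (ordCls σ).car c) (l : ℕ)
      (x : List _), pos leL n.1 (ix w) = R → Num c (patOf con j) (prm ι j w) R l → Bw l x →
      (GG con ι c g).Gen ⟨.p j n, w⟩ x) (n : Fin (N + 1)) (w : Fin (r + P) → (ordCls σ).car c)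
      (x : List _) (hn : pos leL n.1 (ix w) = R) (hx : Bw (2 ^ R) x) :
      (GG con ι c g).Gen ⟨.y n, w⟩ x := by
  obtain ⟨l, hl⟩ : ∃ l, l + 1 = 2 ^ R := ⟨2 ^ R - 1, by
    have : 0 < 2 ^ R := by positivity
    omega⟩
  rw [← hl] at hx
  obtain ⟨u, v, rfl, h1, h2⟩ := hx.split
  obtain ⟨a, rfl⟩ := List.length_eq_one_iff.1 h2.1
  have h3 := gen_one (con := con) (ι := ι) (g := g) w (h2.2 a (List.mem_singleton_self _))
  have h4 := hP none n w l u hn ((num_ones hR).2 hl) h1
  refine gen_bin ?_ h4 h3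
  exact ⟨rfl, rfl⟩

theorem card_pos' : 0 < Nat.card (Fin r → (ordCls σ).car c) := by
  have : Nonempty (Fin r → (ordCls σ).car c) := inferInstance
  exact Nat.card_pos

theorem ix_append {A : Type} (x : Fin r → A) (q : Fin P → A) : ix (Fin.append x q) = x := by
  funext t
  unfold ix
  exact Fin.append_left x q t

theorem pp_append {A : Type} (x : Fin r → A) (q : Fin P → A) : pp (Fin.append x q) = q := by
  funext t
  unfold pp
  exact Fin.append_right x q t

theorem gen_p (R : ℕ) : R ≤ MM r N c →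
    ∀ (j : Option J) (n : Fin (N + 1)) (w : Fin (r + P) → (ordCls σ).car c) (l : ℕ)
      (x : List _), pos leL n.1 (ix w) = R → Num c (patOf con j) (prm ι j w) R l → Bw l x →
      (GG con ι c g).Gen ⟨.p j n, w⟩ x := by
  induction R with
  | zero =>
    intro _ j n w l x hn hl hx
    have hl' := num_zero hl
    subst hl'
    have hx' : x = [] := List.length_eq_zero_iff.1 hx.1
    subst hx'
    refine Gram.Gen.eps ?_
    unfold pos at hn
    have h1 := card_pos' (σ := σ) (r := r) (c := c)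
    refine ⟨?_, isMin_of_rk (x := ix w) (by omega)⟩
    have h2 : n.1 * Nat.card (Fin r → (ordCls σ).car c) = 0 := by omega
    rcases Nat.mul_eq_zero.1 h2 with h3 | h3
    · exact h3
    · omega
  | succ R ih =>
    intro hR j n w l x hn hl hx
    have ih' := ih (by omega)
    obtain ⟨n', hn', x', hx'⟩ := exists_pos (D := Fin r → (ordCls σ).car c) (N := N) isLin_leL
      (i := R) (by
        unfold MM at hR
        omega)
    let w' : Fin (r + P) → (ordCls σ).car c := Fin.append x' (pp w)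
    let k : Fin (N + 1) := ⟨n', by omega⟩
    have h1 : pos leL k.1 (ix w') = R := by
      rw [ix_append]
      exact hx'
    have h2 : pp w' = pp w := pp_append _ _
    have h3 : Cover k (ix w') n (ix w) := by
      rw [cover_iff, hn, h1]
    rw [num_succ (n := ⟨n', hn'⟩) (x := x') hx'] at hl
    rcases hl with ⟨ha, hl⟩ | ⟨ha, l', rfl, hl⟩
    · have h4 := ih' j k w' l x h1 (by rw [prm_congr h2]; exact hl) hx
      refine gen_bin (u := []) (v := x) ?_ (gen_eps w) h4
      refine ⟨rfl, h2, h3, hn', ?_⟩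
      change (patOf con j).al false ⟨n', hn'⟩ c (ix w') (prm ι j w)
      rw [ix_append]
      exact ha
    · obtain ⟨u, v, rfl, h5, h6⟩ := hx.split
      have h4 := ih' j k w' l' v h1 (by rw [prm_congr h2]; exact hl) h6
      have h7 := gen_y_of (con := con) (ι := ι) (g := g) (by omega) ih' k w' u h1 h5
      refine gen_bin ?_ h7 h4
      refine ⟨rfl, rfl, rfl, h2, h3, hn', ?_⟩
      change (patOf con j).al true ⟨n', hn'⟩ c (ix w') (prm ι j w)
      rw [ix_append]
      exact ha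

theorem gen_y (n : Fin (N + 1)) (w : Fin (r + P) → (ordCls σ).car c)
    (x : List _) (hn : pos leL n.1 (ix w) ≤ MM r N c) (hx : Bw (2 ^ pos leL n.1 (ix w)) x) :
    (GG con ι c g).Gen ⟨.y n, w⟩ x :=
  gen_y_of hn (gen_p _ hn) n w x rfl hx

/-- the tuple with least index part -/
noncomputable def w0 (w : Fin (r + P) → (ordCls σ).car c) : Fin (r + P) → (ordCls σ).car c :=
  Fin.append (fun _ => mn c) (pp w)

theorem isMin_w0 (w : Fin (r + P) → (ordCls σ).car c) : IsMin c (ix (w0 w)) := by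
  unfold w0
  rw [ix_append]
  exact fun _ => rfl

theorem pp_w0 (w : Fin (r + P) → (ordCls σ).car c) : pp (w0 w) = pp w := pp_append _ _

theorem gen_cs (w : Fin (r + P) → (ordCls σ).car c) {b : K → Bool} {x : List _}
    (hx : CS b x) : (GG con ι c g).Gen ⟨.cs b, w⟩ x := by
  obtain ⟨a, x', rfl, ha, hx'⟩ := hx
  refine gen_bin (u := [a]) (v := x') ?_ (gen_blk w ha) (gen_any w hx')
  rfl

theorem gen_cq (w : Fin (r + P) → (ordCls σ).car c) {n : Fin N} {b' : K → Bool} {x : List _}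
    (hx : CQ c n b' x) : (GG con ι c g).Gen ⟨.cq n b', w⟩ x := by
  obtain ⟨l, u, v, rfl, hl, hu, hv⟩ := hx
  have h1 : pos leL n.castSucc.1 (ix (w0 w)) = n.1 * Nat.card (Fin r → (ordCls σ).car c) :=
    pos_isMin (isMin_w0 w)
  have h2 : n.1 * Nat.card (Fin r → (ordCls σ).car c) ≤ MM r N c :=
    Nat.mul_le_mul_right _ n.2.le
  have h3 : (GG con ι c g).Gen ⟨.p none n.castSucc, w0 w⟩ u :=
    gen_p _ h2 none n.castSucc (w0 w) l u h1 ((num_ones h2).2 hl) hu
  refine gen_bin ?_ h3 (gen_cs w hv)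
  exact ⟨rfl, isMin_w0 w, rfl⟩

theorem gen_cp (w : Fin (r + P) → (ordCls σ).car c) {n : Fin N} {b b' : K → Bool} {x : List _}
    (hx : CP c n b b' x) : (GG con ι c g).Gen ⟨.cp n b b', w⟩ x := by
  obtain ⟨a, x', rfl, ha, hx'⟩ := hx
  refine gen_bin (u := [a]) (v := x') ?_ (gen_blk w ha) (gen_cq w hx')
  exact ⟨rfl, rfl, rfl⟩

theorem gen_st (w : Fin (r + P) → (ordCls σ).car c) (g' : Bool) {x : List _}
    (hx : ErrW con ι c x ∨ (g' = false ∧ Bw (2 ^ MM r N c) x)) :
    (GG con ι c g).Gen ⟨.st g', w⟩ x := by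
  rcases hx with ⟨j, w', l, u, v, rfl, hu, hc, hl, hv⟩ | ⟨rfl, hx⟩
  · have h1 : pos leL (Fin.last N).1 (ix (w0 w')) = MM r N c := pos_isMin (isMin_w0 w')
    have h2 : prm ι (some j) (w0 w') = prm ι (some j) w' := prm_congr (pp_w0 w') _
    have h3 : (GG con ι c g).Gen ⟨.p (some j) (Fin.last N), w0 w'⟩ u :=
      gen_p _ le_rfl (some j) (Fin.last N) (w0 w') l u h1 (by rw [h2]; exact hl) hu
    rcases hv with ⟨p, F, b, h4, h5, h6⟩ | ⟨m, F, b, b', h4, h5, h6⟩
    · refine gen_bin ?_ h3 (gen_cs w h6)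
      exact ⟨rfl, isMin_w0 w', by rw [h2]; exact hc, p, F, h4, h5⟩
    · refine gen_bin ?_ h3 (gen_cp w h6)
      exact ⟨rfl, isMin_w0 w', by rw [h2]; exact hc, F, h4, h5⟩
  · have h1 : pos leL (Fin.last N).1 (ix (w0 w)) = MM r N c := pos_isMin (isMin_w0 w)
    have h2 := gen_y (con := con) (ι := ι) (g := g) (Fin.last N) (w0 w) x (by rw [h1])
      (by rw [h1]; exact hx)
    have hb : binG con ι (.st false) (.y (Fin.last N)) .eps c w (w0 w) w := ⟨rfl, isMin_w0 w⟩
    have h3 := gen_bin hb h2 (gen_eps w)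
    rwa [List.append_nil] at h3

theorem lang_iff (x : List (VG K J N r P ((ordCls σ).car c))) :
    x ∈ (GG con ι c g).lang ↔ ErrW con ι c x ∨ (g = false ∧ Bw (2 ^ MM r N c) x) := by
  constructor
  · rintro ⟨⟨s, w⟩, ⟨h1, h2⟩, h3⟩
    have h4 := gen_inv h3
    have h1' : s = .st g := h1
    subst h1'
    exact h4
  · intro h
    exact ⟨⟨.st g, fun _ => mn c⟩, ⟨rfl, fun _ => rfl⟩, gen_st _ g h⟩

end Pool.Agent.H92.Simon
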