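import Pool.Agent.H92.Simon.Upper

/-!
CF-≡ is in coNEXPTIME.
-/

namespace Pool.Agent.H92.Simon

open FirstOrder FirstOrder.Language Desc

theorem nbhd_eq_iff {V : Type*} {k : ℕ} {L L' : Set (List V)} : nbhd k L = nbhd k L' ↔
    (∀ w ∈ L, ∃ x ∈ L', Sim k w x) ∧ (∀ w ∈ L', ∃ x ∈ L, Sim k w x) := by
  constructor
  · intro h
    refine ⟨fun w hw => ?_, fun w hw => ?_⟩
    · have : w ∈ nbhd k L := ⟨w, hw, Sim.refl _⟩
      rw [h] at this
      exact this
    · have : w ∈ nbhd k L' := ⟨w, hw, Sim.refl _⟩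
      rw [← h] at this
      exact this
  · rintro ⟨h1, h2⟩
    ext x
    constructor
    · rintro ⟨w, hw, hx⟩
      obtain ⟨y, hy, hwy⟩ := h1 w hw
      exact ⟨y, hy, hx.trans hwy⟩
    · rintro ⟨w, hw, hx⟩
      obtain ⟨y, hy, hwy⟩ := h2 w hw
      exact ⟨y, hy, hx.trans hwy⟩

/-- the interpretation of the guessed symbols -/
@[instance_reducible]
def nxStr {V : Type} (C : Set (Fin 2 → V) → Set (Fin 2 → V) → Prop)
    (E : Set (Fin 2 → V) → V → Prop) (T U : Five V)
    (O : V → Set (Fin 2 → V) → Set (Fin 2 → V) →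
        Set (Fin 2 → V) → Set (Fin 2 → V) → Five V) :
    nxLang.Structure (Set (Fin 2 → V)) where
  funMap := fun f => f.elim
  RelMap := fun {n} (R : NxRel n) => match n, R with
    | _, NxRel.C => fun v => C (v 0) (v 1)
    | _, NxRel.E => fun v => ∃ a, v 1 = pt 2 a ∧ E (v 0) a
    | _, NxRel.T => fun v => ∃ X, v 0 = pt 2 X ∧ T X (v 1) (v 2) (v 3) (v 4)
    | _, NxRel.U => fun v => ∃ X, v 0 = pt 2 X ∧ U X (v 1) (v 2) (v 3) (v 4)
    | _, NxRel.O => fun v => ∃ X Y, v 0 = pt 2 X ∧ v 5 = pt 2 Y ∧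
        O X (v 1) (v 2) (v 3) (v 4) Y (v 6) (v 7) (v 8) (v 9)

section

variable (A : FinStr cfgLang) {C : Set (Fin 2 → A.carrier) → Set (Fin 2 → A.carrier) → Prop}
    {E : Set (Fin 2 → A.carrier) → A.carrier → Prop} {T U : Five A.carrier}
    {O : A.carrier → Set (Fin 2 → A.carrier) → Set (Fin 2 → A.carrier) →
        Set (Fin 2 → A.carrier) → Set (Fin 2 → A.carrier) → Five A.carrier}

theorem cc_eq : Cc ⟨A, nxStr C E T U O⟩ = C := rfl

theorem ec_eq : Ec ⟨A, nxStr C E T U O⟩ = E := by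
  funext X a
  apply propext
  constructor
  · rintro ⟨b, h1, h2⟩
    have : a = b := pt_inj (by norm_num) h1
    rw [this]
    exact h2
  · intro h
    exact ⟨a, rfl, h⟩

theorem tc_eq : Tc ⟨A, nxStr C E T U O⟩ = T := by
  funext X m l m' l'
  apply propext
  constructor
  · rintro ⟨b, h1, h2⟩
    have : X = b := pt_inj (by norm_num) h1
    rw [this]
    exact h2
  · intro h
    exact ⟨X, rfl, h⟩

theorem uc_eq : Uc ⟨A, nxStr C E T U O⟩ = U := by
  funext X m l m' l'
  apply propext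
  constructor
  · rintro ⟨b, h1, h2⟩
    have : X = b := pt_inj (by norm_num) h1
    rw [this]
    exact h2
  · intro h
    exact ⟨X, rfl, h⟩

theorem oc_eq : Oc ⟨A, nxStr C E T U O⟩ = O := by
  funext X m l m' l' X1 m1 l1 m1' l1'
  apply propext
  constructor
  · rintro ⟨b, b', h1, h1', h2⟩
    have e1 : X = b := pt_inj (by norm_num) h1
    have e2 : X1 = b' := pt_inj (by norm_num) h1'
    rw [e1, e2]
    exact h2
  · intro h
    exact ⟨X, X1, rfl, rfl, h⟩

end

/-- first-order form of the validity of an instance -/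
def InstR (A : FinStr cfgLang) : Prop :=
  IsLin (leOf A) ∧ (∃ x, x ∈ kbitOf A) ∧ ∀ g, (∃ X, (gramOf A g).start X) ∧
    ∀ X Y, (gramOf A g).start X → (gramOf A g).start Y → X = Y

theorem isInst_iff (A : FinStr cfgLang) : IsInst A ↔ InstR A := by
  have := A.fin
  unfold IsInst InstR
  refine and_congr_right fun hle => and_congr ?_ (forall_congr' fun g => ?_)
  · have h := val_eq_zero (V := A.carrier) hle (S := kbitOf A)
    rw [Set.eq_empty_iff_forall_notMem] at h
    constructor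
    · intro h1
      by_contra hcon
      push Not at hcon
      have := h.2 hcon
      unfold kOf at h1
      omega
    · rintro ⟨x, hx⟩
      by_contra hcon
      exact h.1 (by unfold kOf at hcon; omega) x hx
  · constructor
    · rintro ⟨X, h1, h2⟩
      exact ⟨⟨X, h1⟩, fun Y Z hY hZ => (h2 Y hY).trans (h2 Z hZ).symm⟩
    · rintro ⟨⟨X, h1⟩, h2⟩
      exact ⟨X, h1, fun Y hY => h2 Y X hY h1⟩

theorem p_inst {α β : Type} : PDef (fun c (_ : α → nxCls.car c) (_ : β → c.1.carrier) =>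
    InstR c.1) := by
  refine PDef.and (PDef.and ?_ (PDef.and ?_ (PDef.and ?_ ?_))) (PDef.and ?_ ?_)
  · refine (PDef.closed (γ := Empty) (δ := Fin 1) (P := fun c _ y => leOf c.1 (y 0) (y 0))
      (p_le 0 0)).congr fun c _ _ => ?_
    exact ⟨fun h x => h (fun e => e.elim) ![x], fun h _ y => h _⟩
  · refine (PDef.closed (γ := Empty) (δ := Fin 3) (P := fun c _ y => leOf c.1 (y 0) (y 1) →
      leOf c.1 (y 1) (y 2) → leOf c.1 (y 0) (y 2))
      ((p_le 0 1).imp ((p_le 1 2).imp (p_le 0 2)))).congr fun c _ _ => ?_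
    exact ⟨fun h x y z => h (fun e => e.elim) ![x, y, z], fun h _ y => h _ _ _⟩
  · refine (PDef.closed (γ := Empty) (δ := Fin 2) (P := fun c _ y => leOf c.1 (y 0) (y 1) →
      leOf c.1 (y 1) (y 0) → y 0 = y 1)
      ((p_le 0 1).imp ((p_le 1 0).imp (PDef.eqP 0 1)))).congr fun c _ _ => ?_
    exact ⟨fun h x y => h (fun e => e.elim) ![x, y], fun h _ y => h _ _⟩
  · refine (PDef.closed (γ := Empty) (δ := Fin 2) (P := fun c _ y => leOf c.1 (y 0) (y 1) ∨
      leOf c.1 (y 1) (y 0))
      ((p_le 0 1).or (p_le 1 0))).congr fun c _ _ => ?_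
    exact ⟨fun h x y => h (fun e => e.elim) ![x, y], fun h _ y => h _ _⟩
  · exact PDef.exP (P := fun c _ _ x => x ∈ kbitOf c.1) p_K
  · have key : ∀ g, PDef (fun c (_ : α → nxCls.car c) (_ : β → c.1.carrier) =>
        (∃ X, (gramOf c.1 g).start X) ∧
        ∀ X Y, (gramOf c.1 g).start X → (gramOf c.1 g).start Y → X = Y) := by
      intro g
      refine PDef.and (PDef.exP (P := fun c _ _ x => (gramOf c.1 g).start x)
        (p_start g (Sum.inr ()))) ?_
      refine (PDef.closed (γ := Empty) (δ := Fin 2) (P := fun c _ y =>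
        (gramOf c.1 g).start (y 0) → (gramOf c.1 g).start (y 1) → y 0 = y 1)
        ((p_start g 0).imp ((p_start g 1).imp (PDef.eqP 0 1)))).congr fun c _ _ => ?_
      exact ⟨fun h x y => h (fun e => e.elim) ![x, y], fun h _ y => h _ _⟩
    refine ((key false).and (key true)).congr fun c _ _ => ?_
    constructor
    · rintro ⟨h1, h2⟩ g
      cases g
      · exact h1
      · exact h2
    · intro h
      exact ⟨h false, h true⟩

/-- the guessed certificate is correct -/
def Wit (c : nxCls.ι) : Prop := ¬ InstR c.1 ∨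
  (∃ g : Bool, NeqR (leOf c.1) (kbitOf c.1) (gramOf c.1 g) (gramOf c.1 (!g)) (Cc c) (Ec c) (Tc c)
    (Uc c) (Oc c))

theorem p_wit {α β : Type} : PDef (fun c (_ : α → nxCls.car c) (_ : β → c.1.carrier) =>
    Wit c) := by
  refine PDef.or p_inst.not (((p_neq false).or (p_neq true)).congr fun c _ _ => ?_)
  constructor
  · rintro (h | h)
    · exact ⟨false, h⟩
    · exact ⟨true, h⟩
  · rintro ⟨g, h⟩
    cases g
    · exact Or.inl h
    · exact Or.inr h

theorem not_cfEquiv_iff (A : FinStr cfgLang) :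
    ¬ CFEquiv A ↔ ∃ s : nxLang.Structure (Set (Fin 2 → A.carrier)), Wit ⟨A, s⟩ := by
  classical
  have hfin := A.fin
  unfold CFEquiv
  rw [isInst_iff]
  by_cases hA : InstR A
  swap
  · constructor
    · intro _
      exact ⟨nxStr (fun _ _ => True) (fun _ _ => True) (fun _ _ _ _ _ => True)
        (fun _ _ _ _ _ => True) (fun _ _ _ _ _ _ _ _ _ _ => True), Or.inl hA⟩
    · intro _ h
      exact hA h.1
  have hle : IsLin (leOf A) := hA.1
  constructor
  · intro h
    rw [not_and] at h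
    have h1 := h hA
    rw [nbhd_eq_iff, not_and_or] at h1
    have h2 : ∃ g : Bool, ∃ w ∈ (gramOf A g).lang, ∀ x ∈ (gramOf A (!g)).lang,
        ¬ Sim (kOf A) w x := by
      rcases h1 with h1 | h1
      · push Not at h1
        exact ⟨false, h1⟩
      · push Not at h1
        exact ⟨true, h1⟩
    obtain ⟨g, w, hw, hx⟩ := h2
    obtain ⟨C, E, T, U, O, hN⟩ := neq_complete hle (K := kbitOf A) hw hx
    refine ⟨nxStr C E T U O, Or.inr ⟨g, ?_⟩⟩
    rw [cc_eq, ec_eq, tc_eq, uc_eq, oc_eq]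
    exact hN
  · rintro ⟨s, hs⟩ ⟨_, h⟩
    rcases hs with hs | ⟨g, hs⟩
    · exact hs hA
    · obtain ⟨w, hw, hx⟩ := neq_sound hle hs
      rw [nbhd_eq_iff] at h
      cases g
      · obtain ⟨x, h1, h2⟩ := h.1 w hw
        exact hx x h1 h2
      · obtain ⟨x, h1, h2⟩ := h.2 w hw
        exact hx x h1 h2

theorem inCoNEXP_CFEquiv : InCoNEXP CFEquiv := by
  obtain ⟨Q, ⟨φ, hφ⟩, hQ⟩ := p_wit (α := Empty) (β := Empty)
  let φ' : ((powLang cfgLang 2).sum nxLang).Sentence := φ.relabel (Sum.elim id id)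
  refine ⟨2, by norm_num, fun B => ∃ s : nxLang.Structure B.carrier,
    @Sentence.Realize ((powLang cfgLang 2).sum nxLang) B.carrier
      (@sumStructure _ _ B.carrier B.str s) φ', ⟨nxLang, nxLang_finRel, φ', fun B => Iff.rfl⟩, ?_⟩
  intro A
  refine (not_cfEquiv_iff A).trans (exists_congr fun s => ?_)
  have h1 := hφ ⟨A, s⟩ (Sum.elim (fun e => e.elim) (fun e : Empty => e.elim))
  have h2 := hQ ⟨A, s⟩ (fun e => e.elim) (fun e => e.elim)
  have h3 : (Sum.elim (fun e : Empty => e.elim) (fun i : Empty => pt 2 (i.elim : A.carrier)) :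
      Empty ⊕ Empty → Set (Fin 2 → A.carrier)) =
      Sum.elim (fun e => e.elim) (fun e : Empty => e.elim) := by
    funext x
    rcases x with x | x <;> exact x.elim
  have h4 : (default : Empty → Set (Fin 2 → A.carrier)) ∘ (Sum.elim id id : Empty ⊕ Empty → Empty) =
      Sum.elim (fun e => e.elim) (fun e : Empty => e.elim) := by
    funext x
    rcases x with x | x <;> exact x.elim
  have h5 := @Formula.realize_relabel ((powLang cfgLang 2).sum nxLang) _
    (@sumStructure _ _ (Set (Fin 2 → A.carrier)) (powStr 2 A.str) s) _ _ φ (Sum.elim id id)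
    default
  have h6 : (@Formula.Realize ((powLang cfgLang 2).sum nxLang) (Set (Fin 2 → A.carrier))
      (@sumStructure _ _ (Set (Fin 2 → A.carrier)) (powStr 2 A.str) s) _ φ' default) ↔
      Wit ⟨A, s⟩ := by
    refine h5.trans ?_
    rw [h4]
    refine h1.trans ?_
    rw [← h3]
    exact h2
  have h7 : ∀ v : Empty → Set (Fin 2 → A.carrier),
      (@Formula.Realize ((powLang cfgLang 2).sum nxLang) (Set (Fin 2 → A.carrier))
      (@sumStructure _ _ (Set (Fin 2 → A.carrier)) (powStr 2 A.str) s) _ φ' v) ↔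
      Wit ⟨A, s⟩ := by
    intro v
    rw [Subsingleton.elim v default]
    exact h6
  exact (h7 _).symm

end Pool.Agent.H92.Simon
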