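import Pool.Agent.H92.Simon.ErrC
import Pool.Agent.H92.Simon.InNExp

/-!
CF-≡ is coNEXPTIME-hard.
-/

namespace Pool.Agent.H92.Simon

open FirstOrder FirstOrder.Language Desc

variable {σ : FirstOrder.Language.{0, 0}} {r N P : ℕ} {K J : Type}

theorem sim_eq {V : Type*} {k : ℕ} {w x : List V} (h : Sim k w x) (hw : w.length + 1 ≤ k) :
    x = w := by
  have h1 : w.Sublist x := (h w (by omega)).1 (List.Sublist.refl _)
  have h2 : x.length ≤ w.length := by
    by_contra hcon
    have h3 : (x.take (w.length + 1)).Sublist w := by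
      refine (h _ ?_).2 (List.take_sublist _ _)
      rw [List.length_take]
      omega
    have := h3.length_le
    rw [List.length_take] at this
    omega
  exact (h1.eq_of_length_le h2).symm

/-! the sorts -/

/-- codes of the sorts -/
def srtCode : Srt K J N → (ℕ × (K → Bool) × (K → Bool)) × (Option (Option J) × ℕ × Bool)
  | .ltr b => ((0, b, fun _ => false), (none, 0, false))
  | .eps => ((1, fun _ => false, fun _ => false), (none, 0, false))
  | .one => ((2, fun _ => false, fun _ => false), (none, 0, false))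
  | .any => ((3, fun _ => false, fun _ => false), (none, 0, false))
  | .blk b => ((4, b, fun _ => false), (none, 0, false))
  | .y n => ((5, fun _ => false, fun _ => false), (none, n.1, false))
  | .p j n => ((6, fun _ => false, fun _ => false), (some j, n.1, false))
  | .cs b => ((7, b, fun _ => false), (none, 0, false))
  | .cp n b b' => ((8, b, b'), (none, n.1, false))
  | .cq n b' => ((9, b', fun _ => false), (none, n.1, false))
  | .st g => ((10, fun _ => false, fun _ => false), (none, 0, g))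

theorem srtCode_inj : Function.Injective (srtCode (K := K) (J := J) (N := N)) := by
  intro x y h
  cases x <;> cases y <;> simp [srtCode] at h <;> simp [h, Fin.ext_iff]

theorem srtCode_bdd (x : Srt K J N) : (srtCode x).1.1 < 11 ∧ (srtCode x).2.2.1 < N + 1 := by
  cases x <;> simp only [srtCode] <;> omega

instance [Finite K] [Finite J] : Finite (Srt K J N) := by
  let f : Srt K J N → (Fin 11 × (K → Bool) × (K → Bool)) × (Option (Option J) × Fin (N + 1) × Bool) :=
    fun x => ((⟨(srtCode x).1.1, (srtCode_bdd x).1⟩, (srtCode x).1.2),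
      ((srtCode x).2.1, ⟨(srtCode x).2.2.1, (srtCode_bdd x).2⟩, (srtCode x).2.2.2))
  refine Finite.of_injective f ?_
  intro x y h
  apply srtCode_inj
  simp only [f, Prod.mk.injEq, Fin.mk.injEq] at h
  obtain ⟨⟨h1, h2⟩, h3, h4, h5⟩ := h
  exact Prod.ext (Prod.ext h1 h2) (Prod.ext h3 (Prod.ext h4 h5))

instance : Nonempty (Srt K J N) := ⟨.eps⟩

/-! the order of the universe -/

/-- the order of the universe -/
def leG [LinearOrder (Srt K J N)] {A : Type} [LinearOrder A] (X Y : VG K J N r P A) : Prop :=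
  (X.1 = Y.1 ∧ X.2 = Y.2) ∨ ltT (X.1, X.2) (Y.1, Y.2)

theorem isLin_leG [LinearOrder (Srt K J N)] {A : Type} [LinearOrder A] :
    IsLin (leG : VG K J N r P A → VG K J N r P A → Prop) := by
  let e : VG K J N r P A → Srt K J N ×ₗ Lex (Fin (r + P) → A) := fun X => toLex (X.1, toLex X.2)
  have h : ∀ X Y : VG K J N r P A, leG X Y ↔ e X ≤ e Y := by
    intro X Y
    rw [le_iff_eq_or_lt]
    refine or_congr ?_ ?_
    · constructor
      · rintro ⟨h1, h2⟩
        simp only [e, h1, h2]
      · intro h
        have h1 := congrArg (fun z => (ofLex z).1) h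
        have h2 := congrArg (fun z => (ofLex z).2) h
        exact ⟨h1, toLex.injective h2⟩
    · change _ ↔ toLex (X.1, toLex X.2) < toLex (Y.1, toLex Y.2)
      rw [Prod.Lex.toLex_lt_toLex]
      exact Iff.rfl
  have hinj : Function.Injective e := by
    intro X Y h
    have h1 : X.1 = Y.1 := congrArg (fun z => (ofLex z).1) h
    have h2 : X.2 = Y.2 := toLex.injective (congrArg (fun z => (ofLex z).2) h)
    obtain ⟨s, w⟩ := X
    obtain ⟨s', w'⟩ := Y
    simp only at h1 h2
    rw [h1, h2]
  refine ⟨fun x => (h _ _).2 le_rfl, fun x y z => ?_, fun x y => ?_, fun x y => ?_⟩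
  · rw [h, h, h]
    exact le_trans
  · rw [h, h]
    intro h1 h2
    exact hinj (le_antisymm h1 h2)
  · rw [h, h]
    exact le_total _ _

section card

variable [Finite K] [Finite J] {c : (ordCls σ).ι}

theorem card_VG : MM r N c + 2 ≤ Nat.card (VG K J N r P ((ordCls σ).car c)) := by
  let f : (Fin N × (Fin r → (ordCls σ).car c)) ⊕ Bool → VG K J N r P ((ordCls σ).car c) := fun z =>
    match z with
    | .inl (n, x) => ⟨.y n.castSucc, Fin.append x (fun _ => mn c)⟩
    | .inr false => ⟨.eps, fun _ => mn c⟩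
    | .inr true => ⟨.any, fun _ => mn c⟩
  have hf : Function.Injective f := by
    rintro (⟨n, x⟩ | b) (⟨n', x'⟩ | b') h
    · simp only [f, Sigma.mk.injEq, Srt.y.injEq, Fin.castSucc_inj] at h
      obtain ⟨h1, h2⟩ := h
      have h3 := eq_of_heq h2
      have h4 : x = x' := by
        have := congrArg ix h3
        rwa [ix_append, ix_append] at this
      rw [h1, h4]
    · cases b' <;> simp [f] at h
    · cases b <;> simp [f] at h
    · cases b <;> cases b' <;> simp [f] at h ⊢
  have h1 := Nat.card_le_card_of_injective f hf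
  rw [Nat.card_sum, Nat.card_prod, Nat.card_eq_fintype_card (α := Fin N), Fintype.card_fin,
    Nat.card_eq_fintype_card (α := Bool), Fintype.card_bool] at h1
  exact h1

theorem k_large [LinearOrder (Srt K J N)] : 2 ^ MM r N c + 1 ≤
    val (leG : VG K J N r P ((ordCls σ).car c) → _ → Prop) Set.univ := by
  have h1 := val_univ (V := VG K J N r P ((ordCls σ).car c)) isLin_leG
  have h2 := card_VG (σ := σ) (r := r) (N := N) (P := P) (K := K) (J := J) (c := c)
  have h3 : 2 ^ (MM r N c + 2) ≤ 2 ^ Nat.card (VG K J N r P ((ordCls σ).car c)) :=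
    Nat.pow_le_pow_right (by norm_num) h2
  rw [pow_add] at h3
  have h4 : 0 < 2 ^ MM r N c := by positivity
  omega

end card

/-- the equivalence problem for the grammars of errors -/
theorem equiv_iff [Finite K] [Finite J] [LinearOrder (Srt K J N)] {con : J → Con σ r N K}
    {ι : Emb con P} (hι : ∀ j, Function.Injective (ι j)) {c : (ordCls σ).ι} {k : ℕ}
    (hk : 2 ^ MM r N c + 1 ≤ k) :
    nbhd k (GG con ι c false).lang = nbhd k (GG con ι c true).lang ↔
      ¬ ∃ γ : (Fin N → Us r c) → K → Bool, ∀ j, (con j).Sat c γ := by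
  rw [← all_err_iff hι, nbhd_eq_iff]
  constructor
  · rintro ⟨h, _⟩ x hx
    obtain ⟨y, hy, hxy⟩ := h x ((lang_iff x).2 (Or.inr ⟨rfl, hx⟩))
    have := sim_eq hxy (by rw [hx.1]; exact hk)
    subst this
    rcases (lang_iff y).1 hy with h1 | ⟨h1, _⟩
    · exact h1
    · simp at h1
  · intro h
    refine ⟨fun w hw => ?_, fun w hw => ?_⟩
    · refine ⟨w, ?_, Sim.refl _⟩
      rcases (lang_iff w).1 hw with h1 | ⟨_, h1⟩
      · exact (lang_iff w).2 (Or.inl h1)
      · exact (lang_iff w).2 (Or.inl (h w h1))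
    · refine ⟨w, ?_, Sim.refl _⟩
      rcases (lang_iff w).1 hw with h1 | ⟨h1, _⟩
      · exact (lang_iff w).2 (Or.inl h1)
      · simp at h1

/-! definability -/

section defin

variable {α : Type}

theorem udef_ixeq (g h : Fin (r + P) → α) :
    UDef (ordCls σ) (fun c (u : α → (ordCls σ).car c) => ix (r := r) (P := P) (u ∘ g) =
      ix (r := r) (P := P) (u ∘ h)) := by
  refine (UDef.eqT (𝒞 := ordCls σ) (fun t : Fin r => g (Fin.castAdd P t))
    (fun t : Fin r => h (Fin.castAdd P t))).congr fun c u => ?_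
  exact Iff.rfl

theorem udef_ppeq (g h : Fin (r + P) → α) :
    UDef (ordCls σ) (fun c (u : α → (ordCls σ).car c) => pp (r := r) (P := P) (u ∘ g) =
      pp (r := r) (P := P) (u ∘ h)) := by
  refine (UDef.eqT (𝒞 := ordCls σ) (fun t : Fin P => g (Fin.natAdd r t))
    (fun t : Fin P => h (Fin.natAdd r t))).congr fun c u => ?_
  exact Iff.rfl

theorem udef_isMin (g : Fin (r + P) → α) :
    UDef (ordCls σ) (fun c (u : α → (ordCls σ).car c) => IsMin c (ix (r := r) (P := P) (u ∘ g))) :=
  UDef.forallFin fun t => UDef.isMn (g (Fin.castAdd P t))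

theorem udef_cover (n' n : Fin (N + 1)) (g h : Fin (r + P) → α) :
    UDef (ordCls σ) (fun c (u : α → (ordCls σ).car c) =>
      Cover n' (ix (r := r) (P := P) (u ∘ g)) n (ix (r := r) (P := P) (u ∘ h))) := by
  refine (UDef.ltT n' n (fun t => g (Fin.castAdd P t)) (fun t => h (Fin.castAdd P t))).and ?_
  refine UDef.forallFin fun m => ?_
  refine UDef.all (𝒞 := ordCls σ) (β := Fin r) (P := fun c u z =>
    ¬ (ltT (n', ix (r := r) (P := P) (u ∘ g)) (m, z) ∧
      ltT (m, z) (n, ix (r := r) (P := P) (u ∘ h)))) ?_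
  exact ((UDef.ltT n' m (fun t => Sum.inl (g (Fin.castAdd P t))) Sum.inr).and
    (UDef.ltT m n Sum.inr (fun t => Sum.inl (h (Fin.castAdd P t))))).not

variable (con : J → Con σ r N K) (ι : Emb con P)

theorem udef_al (j : Option J) (b : Bool) (n' : Fin (N + 1)) (g h : Fin (r + P) → α) :
    UDef (ordCls σ) (fun c (u : α → (ordCls σ).car c) =>
      ∃ h' : n'.1 < N, (patOf con j).al b ⟨n'.1, h'⟩ c (ix (r := r) (P := P) (u ∘ g))
        (prm ι j (u ∘ h))) := by
  by_cases hn : n'.1 < N
  · refine (((patOf con j).hal b ⟨n'.1, hn⟩).comp (Sum.elim (fun t => g (Fin.castAdd P t))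
      (fun q => h (Fin.natAdd r (ι j q))))).congr fun c u => ?_
    constructor
    · intro h1
      exact ⟨hn, h1⟩
    · rintro ⟨_, h1⟩
      exact h1
  · refine (UDef.const False).congr fun c u => ?_
    simp [hn]

theorem udef_cond (j : Option J) (h : Fin (r + P) → α) :
    UDef (ordCls σ) (fun c (u : α → (ordCls σ).car c) =>
      (patOf con j).cond c (prm ι j (u ∘ h))) :=
  ((patOf con j).hcond.comp (fun q => h (Fin.natAdd r (ι j q)))).congr fun _ _ => Iff.rfl

theorem udef_bin (s1 s2 s3 : Srt K J N) (g1 g2 g3 : Fin (r + P) → α) :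
    UDef (ordCls σ) (fun c (u : α → (ordCls σ).car c) =>
      binG con ι s1 s2 s3 c (u ∘ g1) (u ∘ g2) (u ∘ g3)) := by
  unfold binG
  split
  · exact UDef.const _
  · exact (UDef.const _).and (udef_ixeq g2 g1)
  · exact (UDef.const _).and ((udef_ppeq g3 g1).and ((udef_cover _ _ g3 g1).and
      (udef_al con ι _ _ _ g3 g1)))
  · exact (UDef.const _).and ((udef_ixeq g2 g3).and ((UDef.const _).and ((udef_ppeq g3 g1).and
      ((udef_cover _ _ g3 g1).and (udef_al con ι _ _ _ g3 g1)))))
  · exact UDef.const _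
  · exact UDef.const _
  · exact (UDef.const _).and ((udef_isMin g2).and (UDef.const _))
  · exact (UDef.const _).and ((udef_isMin g2).and ((udef_cond con ι _ g2).and (UDef.const _)))
  · exact (UDef.const _).and ((udef_isMin g2).and ((udef_cond con ι _ g2).and (UDef.const _)))
  · exact (UDef.const _).and (udef_isMin g2)
  · exact UDef.const _

theorem udef_epsG (s : Srt K J N) (g : Fin (r + P) → α) :
    UDef (ordCls σ) (fun c (u : α → (ordCls σ).car c) => epsG s c (u ∘ g)) := by
  unfold epsG
  split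
  · exact UDef.const _
  · exact UDef.const _
  · exact (UDef.const _).and (udef_isMin g)
  · exact UDef.const _

theorem udef_leG [LinearOrder (Srt K J N)] (s s' : Srt K J N) (g h : Fin (r + P) → α) :
    UDef (ordCls σ) (fun c (u : α → (ordCls σ).car c) =>
      leG (⟨s, u ∘ g⟩ : VG K J N r P ((ordCls σ).car c)) ⟨s', u ∘ h⟩) :=
  ((UDef.const (s = s')).and (UDef.eqT g h)).or (UDef.ltT s s' g h)

end defin

theorem gram_ext {V : Type*} {G G' : Gram V} (h1 : G.bin = G'.bin) (h2 : G.ter = G'.ter)
    (h3 : G.eps = G'.eps) (h4 : G.start = G'.start) : G = G' := by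
  cases G
  cases G'
  simp only at h1 h2 h3 h4
  rw [h1, h2, h3, h4]

/-- The reduction as a first-order interpretation. -/
theorem exists_interp [Finite K] [Finite J] [LinearOrder (Srt K J N)] {con : J → Con σ r N K}
    {ι : Emb con P} (hι : ∀ j, Function.Injective (ι j)) :
    ∃ I : Interp (σ.sum FirstOrder.Language.order) cfgLang,
      ∀ (A : FinStr σ) (o : LinearOrder A.carrier),
        (CFEquiv (I.image cfgLang_rel A o) ↔
          ¬ ∃ γ : (Fin N → Us r (⟨A, o⟩ : (ordCls σ).ι)) → K → Bool,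
            ∀ j, (con j).Sat ⟨A, o⟩ γ) := by
  have hle : ∀ s : Fin 2 → Srt K J N, ∃ φ : (σ.sum FirstOrder.Language.order).Formula
      (Σ _ : Fin 2, Fin (r + P)), ∀ (c : (ordCls σ).ι) v,
      @Formula.Realize _ ((ordCls σ).car c) ((ordCls σ).str c) _ φ v ↔
        leG (⟨s 0, v ∘ (fun k => ⟨0, k⟩)⟩ : VG K J N r P ((ordCls σ).car c))
          ⟨s 1, v ∘ (fun k => ⟨1, k⟩)⟩ := fun s => udef_leG (s 0) (s 1) _ _
  have hbin : ∀ s : Fin 3 → Srt K J N, ∃ φ : (σ.sum FirstOrder.Language.order).Formula
      (Σ _ : Fin 3, Fin (r + P)), ∀ (c : (ordCls σ).ι) v,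
      @Formula.Realize _ ((ordCls σ).car c) ((ordCls σ).str c) _ φ v ↔
        binG con ι (s 0) (s 1) (s 2) c (v ∘ (fun k => ⟨0, k⟩)) (v ∘ (fun k => ⟨1, k⟩))
          (v ∘ (fun k => ⟨2, k⟩)) := fun s => udef_bin con ι (s 0) (s 1) (s 2) _ _ _
  have heps : ∀ s : Fin 1 → Srt K J N, ∃ φ : (σ.sum FirstOrder.Language.order).Formula
      (Σ _ : Fin 1, Fin (r + P)), ∀ (c : (ordCls σ).ι) v,
      @Formula.Realize _ ((ordCls σ).car c) ((ordCls σ).str c) _ φ v ↔
        epsG (s 0) c (v ∘ (fun k => ⟨0, k⟩)) := fun s => udef_epsG (s 0) _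
  have hst : ∀ (g : Bool) (s : Fin 1 → Srt K J N),
      ∃ φ : (σ.sum FirstOrder.Language.order).Formula
      (Σ _ : Fin 1, Fin (r + P)), ∀ (c : (ordCls σ).ι) v,
      @Formula.Realize _ ((ordCls σ).car c) ((ordCls σ).str c) _ φ v ↔
        (s 0 = .st g ∧ ∀ t : Fin (r + P), v ⟨0, t⟩ = mn c) := fun g s =>
    (UDef.const _).and (UDef.forallFin fun t => UDef.isMn _)
  have hkb : ∀ _ : Fin 1 → Srt K J N, ∃ φ : (σ.sum FirstOrder.Language.order).Formula
      (Σ _ : Fin 1, Fin (r + P)), ∀ (c : (ordCls σ).ι) v,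
      @Formula.Realize _ ((ordCls σ).car c) ((ordCls σ).str c) _ φ v ↔ True := fun _ =>
    UDef.const True
  have htr : ∀ s : Fin 2 → Srt K J N, ∃ φ : (σ.sum FirstOrder.Language.order).Formula
      (Σ _ : Fin 2, Fin (r + P)), ∀ (c : (ordCls σ).ι) v,
      @Formula.Realize _ ((ordCls σ).car c) ((ordCls σ).str c) _ φ v ↔ terG (s 0) (s 1) :=
    fun s => UDef.const _
  choose φkb hφkb using hkb
  choose φtr hφtr using htr
  choose φle hφle using hle
  choose φbin hφbin using hbin
  choose φeps hφeps using heps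
  choose φst hφst using hst
  let I : Interp (σ.sum FirstOrder.Language.order) cfgLang :=
    { S := Srt K J N
      fin := inferInstance
      ne := inferInstance
      Coord := fun _ => Fin (r + P)
      cfin := fun _ => inferInstance
      form := fun {n} (R : CfgRel n) => match n, R with
        | _, CfgRel.le => fun s => φle s
        | _, CfgRel.kbit => fun s => φkb s
        | _, CfgRel.bin _ => fun s => φbin s
        | _, CfgRel.ter _ => fun s => φtr s
        | _, CfgRel.eps _ => fun s => φeps s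
        | _, CfgRel.start g => fun s => φst g s }
  refine ⟨I, fun A o => ?_⟩
  let c : (ordCls σ).ι := ⟨A, o⟩
  have e1 : leOf (I.image cfgLang_rel A o) =
      (leG : VG K J N r P ((ordCls σ).car c) → VG K J N r P ((ordCls σ).car c) → Prop) := by
    funext x y
    apply propext
    exact hφle (fun i => (![x, y] i).1) c (fun p => (![x, y] p.1).2 p.2)
  have e2 : kbitOf (I.image cfgLang_rel A o) = (Set.univ : Set (VG K J N r P ((ordCls σ).car c))) := by
    ext x
    refine ⟨fun _ => trivial, fun _ => ?_⟩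
    exact (hφkb (fun i => (![x] i).1) c (fun p => (![x] p.1).2 p.2)).2 trivial
  have e3 : ∀ g, gramOf (I.image cfgLang_rel A o) g = GG con ι c g := by
    intro g
    have b1 : ∀ x y z, (gramOf (I.image cfgLang_rel A o) g).bin x y z ↔
        (GG con ι c g).bin x y z := fun x y z =>
      hφbin (fun i => (![x, y, z] i).1) c (fun p => (![x, y, z] p.1).2 p.2)
    have b2 : ∀ x y, (gramOf (I.image cfgLang_rel A o) g).ter x y ↔
        (GG con ι c g).ter x y := fun x y =>
      hφtr (fun i => (![x, y] i).1) c (fun p => (![x, y] p.1).2 p.2)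
    have b3 : ∀ x, (gramOf (I.image cfgLang_rel A o) g).eps x ↔ (GG con ι c g).eps x := fun x =>
      hφeps (fun i => (![x] i).1) c (fun p => (![x] p.1).2 p.2)
    have b4 : ∀ x, (gramOf (I.image cfgLang_rel A o) g).start x ↔ (GG con ι c g).start x :=
      fun x => hφst g (fun i => (![x] i).1) c (fun p => (![x] p.1).2 p.2)
    refine gram_ext ?_ ?_ ?_ ?_
    · funext x y z
      exact propext (b1 x y z)
    · funext x y
      exact propext (b2 x y)
    · funext x
      exact propext (b3 x)
    · funext x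
      exact propext (b4 x)
  have ek : kOf (I.image cfgLang_rel A o) =
      val (leG : VG K J N r P ((ordCls σ).car c) → _ → Prop) Set.univ := by
    unfold kOf
    rw [e1, e2]
    rfl
  have hk : 2 ^ MM r N c + 1 ≤ kOf (I.image cfgLang_rel A o) := by
    rw [ek]
    exact k_large
  have hinst : IsInst (I.image cfgLang_rel A o) := by
    refine ⟨?_, (Nat.le_add_left 1 _).trans hk, ?_⟩
    · rw [e1]
      exact isLin_leG
    · intro g
      rw [e3]
      refine ⟨⟨.st g, fun _ => mn c⟩, ⟨rfl, fun _ => rfl⟩, ?_⟩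
      rintro ⟨s, w⟩ ⟨h1, h2⟩
      simp only at h1 h2
      subst h1
      have : w = fun _ => mn c := funext h2
      rw [this]
  unfold CFEquiv
  rw [e3, e3]
  exact ⟨fun h => (equiv_iff hι hk).1 h.2, fun h => ⟨hinst, (equiv_iff hι hk).2 h⟩⟩

theorem coNEXPHard_CFEquiv : CoNEXPHard cfgLang_rel CFEquiv := by
  rintro σ hσ K' ⟨r, hr, K'', hK'', h⟩
  obtain ⟨N, K, J, hK, hJ, con, hcon⟩ := nexp_con hr hσ.1 hK''
  have hfin : ∀ j, Finite (patOf con j).Par := fun j => (patOf con j).fin
  obtain ⟨P, ⟨e⟩⟩ := Finite.exists_equiv_fin (Σ j : Option J, (patOf con j).Par)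
  let ι : Emb con P := fun j q => e ⟨j, q⟩
  have hι : ∀ j, Function.Injective (ι j) := by
    intro j q q' hq
    have := e.injective hq
    simpa using this
  obtain ⟨n, ⟨e'⟩⟩ := Finite.exists_equiv_fin (Srt K J N)
  let _ : LinearOrder (Srt K J N) := LinearOrder.lift' e' e'.injective
  obtain ⟨I, hI⟩ := exists_interp hι
  refine ⟨I, fun A o => ?_⟩
  rw [hI A o, ← hcon ⟨A, o⟩]
  have := h A
  beta_reduce at this
  rw [← this, not_not]

end Pool.Agent.H92.Simon
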