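import Pool.Agent.H92.Simon.Cert
import Pool.Agent.H92.Simon.Val

/-!
A certificate for the inequivalence of two context-free grammars modulo Simon's congruence,
in terms of binary relations.
-/

namespace Pool.Agent.H92.Simon

/-- membership of a pair -/
def In {A : Type} (X : Set (Fin 2 → A)) (a b : A) : Prop := ![a, b] ∈ X

variable {V : Type}

/-- comparison of binary numbers -/
def NLt (le : V → V → Prop) (S T : Set V) : Prop :=
  ∃ x, x ∈ T ∧ x ∉ S ∧ ∀ y, y ∈ S → y ∉ T → (le y x ∧ y ≠ x)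

/-- successor of binary numbers -/
def NSuc (le : V → V → Prop) (S T : Set V) : Prop :=
  NLt le S T ∧ ∀ Z : Set V, ¬ (NLt le S Z ∧ NLt le Z T)

/-- the number of `X` at `a` -/
def row (X : Set (Fin 2 → V)) (a : V) : Set V := {d | In X a d}

/-- the vector of numbers -/
noncomputable def dec (le : V → V → Prop) (X : Set (Fin 2 → V)) (a : V) : ℕ := val le (row X a)

def CrdR (le : V → V → Prop) (K : Set V) (a : V) (X Y : Set (Fin 2 → V)) : Prop :=
  ∀ b, (b = a ∧ ((¬ NLt le (row X a) K ∧ row Y b = K) ∨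
      (NLt le (row X a) K ∧ NSuc le (row X a) (row Y b)))) ∨
    (b ≠ a ∧ ((¬ NLt le (row X a) (row X b) ∧ row Y b = row X b) ∨
      (NLt le (row X a) (row X b) ∧ NSuc le (row X a) (row Y b))))

def KrdR (le : V → V → Prop) (a : V) (X Y : Set (Fin 2 → V)) : Prop :=
  ∀ b, (b = a ∧ (((∀ d, d ∉ row X a) ∧ (∀ d, d ∉ row Y b)) ∨ NSuc le (row Y b) (row X a))) ∨
    (b ≠ a ∧ ((¬ NLt le (row X b) (row X a) ∧ row Y b = row X b) ∨
      (NLt le (row X b) (row X a) ∧ NSuc le (row Y b) (row X a))))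

def StepR (le : V → V → Prop) (K : Set V) (C : Set (Fin 2 → V) → Set (Fin 2 → V) → Prop)
    (E : Set (Fin 2 → V) → V → Prop) (m l : Set (Fin 2 → V)) (a : V)
    (m' l' : Set (Fin 2 → V)) : Prop :=
  CrdR le K a m m' ∧ ((l' = l ∧ ∃ κ, C l κ ∧ ¬ NLt le (row m a) (row κ a)) ∨
    (E l a ∧ CrdR le K a l l'))

def CertR (le : V → V → Prop) (K : Set V) (C : Set (Fin 2 → V) → Set (Fin 2 → V) → Prop)
    (E : Set (Fin 2 → V) → V → Prop) : Prop :=
  (∀ X Y Z, C X Y → C X Z → Y = Z) ∧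
  (∀ X a, E X a → ∃ Y κ κ', CrdR le K a X Y ∧ C Y κ ∧ KrdR le a κ κ' ∧ C X κ' ∧
    NLt le (row X a) (row κ a)) ∧
  (∀ X a c Y Z κ, E X a → CrdR le K a X Y → E Y c → CrdR le K c Y Z → C Z κ → a ≠ c →
    row X a = row X c → row κ a = row κ c → NSuc le (row X a) (row κ a) →
    E X c ∧ ∃ Y' κ', CrdR le K c X Y' ∧ E Y' a ∧ KrdR le a κ κ' ∧ C Y' κ')

/-- five-place relations on (symbol, state, state) -/
abbrev Five (V : Type) := V → Set (Fin 2 → V) → Set (Fin 2 → V) → Set (Fin 2 → V) →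
  Set (Fin 2 → V) → Prop

def AccR (le : V → V → Prop) (K : Set V) (C : Set (Fin 2 → V) → Set (Fin 2 → V) → Prop)
    (E : Set (Fin 2 → V) → V → Prop) (G : Gram V) (T : Five V)
    (O : V → Set (Fin 2 → V) → Set (Fin 2 → V) → Set (Fin 2 → V) →
      Set (Fin 2 → V) → Five V) : Prop :=
  (∀ X m l m' l', T X m l m' l' → (G.eps X ∧ m = m' ∧ l = l') ∨
    (∃ a, G.ter X a ∧ StepR le K C E m l a m' l') ∨
    (∃ Y Z m1 l1, G.bin X Y Z ∧ T Y m l m1 l1 ∧ T Z m1 l1 m' l' ∧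
      O Y m l m1 l1 X m l m' l' ∧ O Z m1 l1 m' l' X m l m' l')) ∧
  (∀ X m l m' l', ¬ O X m l m' l' X m l m' l') ∧
  (∀ X m l m' l' X1 m1 l1 m1' l1' X2 m2 l2 m2' l2', O X m l m' l' X1 m1 l1 m1' l1' →
    O X1 m1 l1 m1' l1' X2 m2 l2 m2' l2' → O X m l m' l' X2 m2 l2 m2' l2')

def CloR (le : V → V → Prop) (K : Set V) (C : Set (Fin 2 → V) → Set (Fin 2 → V) → Prop)
    (E : Set (Fin 2 → V) → V → Prop) (G : Gram V) (U : Five V) : Prop :=
  (∀ X m l, G.eps X → U X m l m l) ∧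
  (∀ X a m l m' l', G.ter X a → StepR le K C E m l a m' l' → U X m l m' l') ∧
  (∀ X Y Z m l m1 l1 m2 l2, G.bin X Y Z → U Y m l m1 l1 → U Z m1 l1 m2 l2 → U X m l m2 l2)

def NeqR (le : V → V → Prop) (K : Set V) (G G' : Gram V)
    (C : Set (Fin 2 → V) → Set (Fin 2 → V) → Prop)
    (E : Set (Fin 2 → V) → V → Prop) (T U : Five V)
    (O : V → Set (Fin 2 → V) → Set (Fin 2 → V) → Set (Fin 2 → V) →
      Set (Fin 2 → V) → Five V) : Prop :=
  CertR le K C E ∧ AccR le K C E G T O ∧ CloR le K C E G' U ∧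
  ∃ lf z f, (∀ a b, ¬ In z a b) ∧ (∀ a, row f a = K) ∧ C lf f ∧
    (∃ S mf, G.start S ∧ T S z z mf lf) ∧ (∀ S mf, G'.start S → ¬ U S z z mf lf)

/-! numbers -/

section num

variable [Finite V] {le : V → V → Prop} (hle : IsLin le)

include hle

theorem nlt_iff {S T : Set V} : NLt le S T ↔ val le S < val le T := (val_lt_iff hle).symm

theorem nsuc_iff {S T : Set V} : NSuc le S T ↔ val le T = val le S + 1 := by
  unfold NSuc
  simp only [nlt_iff hle]
  constructor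
  · rintro ⟨h1, h2⟩
    obtain ⟨Z, hZ⟩ := exists_val hle (n := val le S + 1) (lt_of_le_of_lt h1 (val_lt hle T))
    by_contra hne
    exact h2 Z ⟨by omega, by omega⟩
  · intro h
    exact ⟨by omega, fun Z hZ => by omega⟩

theorem row_eq_iff {S T : Set V} : S = T ↔ val le S = val le T :=
  ⟨fun h => by rw [h], fun h => val_inj hle h⟩

theorem crdR_iff [DecidableEq V] {K : Set V} {a : V} {X Y : Set (Fin 2 → V)} :
    CrdR le K a X Y ↔ dec le Y = crd (val le K) a (dec le X) := by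
  unfold CrdR
  rw [funext_iff]
  refine forall_congr' fun b => ?_
  rw [nlt_iff hle, nlt_iff hle, nsuc_iff hle, row_eq_iff hle, row_eq_iff hle (S := row Y b) (T := row X b)]
  unfold crd
  change _ ↔ val le (row Y b) = if b = a then min (val le K) (val le (row X a) + 1) else
    min (val le (row X b)) (val le (row X a) + 1)
  by_cases hb : b = a
  · rw [if_pos hb]
    simp only [hb, true_and, ne_eq, not_true_eq_false, false_and, or_false]
    omega
  · rw [if_neg hb]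
    simp only [hb, false_and, ne_eq, not_false_eq_true, true_and, false_or]
    omega

theorem krdR_iff [DecidableEq V] {a : V} {X Y : Set (Fin 2 → V)} :
    KrdR le a X Y ↔ dec le Y = krd a (dec le X) := by
  unfold KrdR
  rw [funext_iff]
  refine forall_congr' fun b => ?_
  have h0 : ∀ S : Set V, (∀ d, d ∉ S) ↔ val le S = 0 := by
    intro S
    rw [val_eq_zero hle, Set.eq_empty_iff_forall_notMem]
  rw [h0, h0, nlt_iff hle, nsuc_iff hle, row_eq_iff hle]
  unfold krd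
  change _ ↔ val le (row Y b) = if b = a then val le (row X a) - 1 else
    max (val le (row X b)) (val le (row X a) - 1)
  by_cases hb : b = a
  · rw [if_pos hb]
    simp only [hb, true_and, ne_eq, not_true_eq_false, false_and, or_false]
    omega
  · rw [if_neg hb]
    simp only [hb, false_and, ne_eq, not_false_eq_true, true_and, false_or]
    omega

theorem dec_inj {X Y : Set (Fin 2 → V)} (h : dec le X = dec le Y) : X = Y := by
  ext p
  have h1 : row X (p 0) = row Y (p 0) := val_inj hle (congrFun h (p 0))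
  have h2 : p = ![p 0, p 1] := by
    funext i
    fin_cases i <;> rfl
  have h3 : p 1 ∈ row X (p 0) ↔ p 1 ∈ row Y (p 0) := by rw [h1]
  unfold row In at h3
  simp only [Set.mem_setOf_eq, ← h2] at h3
  exact h3

theorem exists_dec {v : V → ℕ} (hv : ∀ a, v a < 2 ^ Nat.card V) :
    ∃ X : Set (Fin 2 → V), dec le X = v := by
  choose S hS using fun a => exists_val (V := V) hle (hv a)
  refine ⟨{p | p 1 ∈ S (p 0)}, ?_⟩
  funext a
  rw [← hS a]
  unfold dec
  congr 1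

theorem dec_lt (X : Set (Fin 2 → V)) (a : V) : dec le X a < 2 ^ Nat.card V := val_lt hle _

end num

theorem crd_lt [DecidableEq V] {k N : ℕ} (hk : k < N) {a : V} {m : V → ℕ} (hm : ∀ b, m b < N) (b : V) :
    crd k a m b < N := by
  unfold crd
  have := hm b
  split_ifs <;> omega

/-! soundness -/

section sound

variable [Finite V] [DecidableEq V] {le : V → V → Prop} (hle : IsLin le) {K : Set V}
  {C : Set (Fin 2 → V) → Set (Fin 2 → V) → Prop} {E : Set (Fin 2 → V) → V → Prop}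

/-- relations on vectors -/
def fC (le : V → V → Prop) (C : Set (Fin 2 → V) → Set (Fin 2 → V) → Prop) (l κ : V → ℕ) : Prop :=
  ∃ X Y, dec le X = l ∧ dec le Y = κ ∧ C X Y

def fE (le : V → V → Prop) (E : Set (Fin 2 → V) → V → Prop) (l : V → ℕ) (a : V) : Prop :=
  ∃ X, dec le X = l ∧ E X a

include hle

theorem fC_dec {X : Set (Fin 2 → V)} {κ : V → ℕ} :
    fC le C (dec le X) κ ↔ ∃ Y, dec le Y = κ ∧ C X Y := by
  constructor
  · rintro ⟨X', Y, h1, h2, h3⟩
    rw [dec_inj hle h1] at h3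
    exact ⟨Y, h2, h3⟩
  · rintro ⟨Y, h2, h3⟩
    exact ⟨X, Y, rfl, h2, h3⟩

theorem fE_dec {X : Set (Fin 2 → V)} {a : V} : fE le E (dec le X) a ↔ E X a := by
  constructor
  · rintro ⟨X', h1, h3⟩
    rwa [dec_inj hle h1] at h3
  · intro h
    exact ⟨X, rfl, h⟩

theorem cert_of (h : CertR le K C E) : Cert (val le K) (fC le C) (fE le E) where
  fn := by
    rintro l κ κ' ⟨X, Y, rfl, rfl, h1⟩ h2
    rw [fC_dec hle] at h2
    obtain ⟨Z, rfl, h2⟩ := h2
    rw [h.1 X Y Z h1 h2]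
  edge := by
    rintro l a ⟨X, rfl, h1⟩
    obtain ⟨Y, κ, κ', h2, h3, h4, h5, h6⟩ := h.2.1 X a h1
    rw [crdR_iff hle] at h2
    rw [krdR_iff hle] at h4
    rw [nlt_iff hle] at h6
    exact ⟨dec le κ, ⟨X, κ', rfl, h4, h5⟩, ⟨Y, κ, h2, rfl, h3⟩, h6⟩
  swap := by
    rintro l a c κ ⟨X, rfl, h1⟩ ⟨Y, hY, h2⟩ ⟨Z, κ, hZ, rfl, h3⟩ h4 h5 h6 h7
    rw [← hY] at hZ
    obtain ⟨i1, Y', κ', i2, i3, i4, i5⟩ := h.2.2 X a c Y Z κ h1 ((crdR_iff hle).2 hY) h2
      ((crdR_iff hle).2 hZ) h3 h4 ((row_eq_iff hle).2 h5) ((row_eq_iff hle).2 h6)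
      ((nsuc_iff hle).2 h7.symm)
    rw [crdR_iff hle] at i2
    rw [krdR_iff hle] at i4
    exact ⟨⟨X, rfl, i1⟩, ⟨Y', i2, i3⟩, ⟨Y', κ', i2, i4, i5⟩⟩

theorem stepR_iff {m l m' l' : Set (Fin 2 → V)} {a : V} : StepR le K C E m l a m' l' ↔
    Step (val le K) (fC le C) (fE le E) (dec le m, dec le l) a (dec le m', dec le l') := by
  unfold StepR Step
  simp only
  rw [crdR_iff hle, crdR_iff hle, fE_dec hle]
  refine and_congr Iff.rfl (or_congr (and_congr ?_ ?_) Iff.rfl)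
  · exact ⟨fun h => by rw [h], fun h => dec_inj hle h⟩
  · constructor
    · rintro ⟨κ, h1, h2⟩
      refine ⟨dec le κ, ⟨l, κ, rfl, rfl, h1⟩, ?_⟩
      rw [nlt_iff hle, not_lt] at h2
      exact h2
    · rintro ⟨κ, h1, h2⟩
      rw [fC_dec hle] at h1
      obtain ⟨Y, rfl, h1⟩ := h1
      refine ⟨Y, h1, ?_⟩
      rw [nlt_iff hle, not_lt]
      exact h2

theorem acc_of {G : Gram V} {T : Five V} {O : V → Set (Fin 2 → V) → Set (Fin 2 → V) →
    Set (Fin 2 → V) → Set (Fin 2 → V) → Five V} (h : AccR le K C E G T O) :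
    ∀ t : V × Set (Fin 2 → V) × Set (Fin 2 → V) × Set (Fin 2 → V) × Set (Fin 2 → V),
      T t.1 t.2.1 t.2.2.1 t.2.2.2.1 t.2.2.2.2 →
      ∃ y, G.Gen t.1 y ∧ Path (val le K) (fC le C) (fE le E) (dec le t.2.1, dec le t.2.2.1) y
        (dec le t.2.2.2.1, dec le t.2.2.2.2) := by
  obtain ⟨h1, h2, h3⟩ := h
  let r : (V × Set (Fin 2 → V) × Set (Fin 2 → V) × Set (Fin 2 → V) × Set (Fin 2 → V)) →
    (V × Set (Fin 2 → V) × Set (Fin 2 → V) × Set (Fin 2 → V) × Set (Fin 2 → V)) → Prop :=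
    fun t t' => O t.1 t.2.1 t.2.2.1 t.2.2.2.1 t.2.2.2.2 t'.1 t'.2.1 t'.2.2.1 t'.2.2.2.1 t'.2.2.2.2
  have hr1 : IsTrans _ r := ⟨fun a b c hab hbc => h3 _ _ _ _ _ _ _ _ _ _ _ _ _ _ _ hab hbc⟩
  have hr2 : Std.Irrefl r := ⟨fun a => h2 _ _ _ _ _⟩
  have hwf : WellFounded r := Finite.wellFounded_of_trans_of_irrefl r
  intro t
  induction t using hwf.induction with
  | _ t ih =>
    intro ht
    obtain ⟨X, m, l, m', l'⟩ := t
    rcases h1 X m l m' l' ht with ⟨i1, rfl, rfl⟩ | ⟨a, i1, i2⟩ | ⟨Y, Z, m1, l1, i1, i2, i3, i4, i5⟩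
    · exact ⟨[], Gram.Gen.eps i1, rfl⟩
    · rw [stepR_iff hle] at i2
      exact ⟨[a], Gram.Gen.ter i1, _, i2, rfl⟩
    · obtain ⟨y, j1, j2⟩ := ih (Y, m, l, m1, l1) i4 i2
      obtain ⟨y', j1', j2'⟩ := ih (Z, m1, l1, m', l') i5 i3
      exact ⟨y ++ y', Gram.Gen.bin i1 j1 j1', (path_append _ _ _ _).2 ⟨_, j2, j2'⟩⟩

theorem clo_of {G : Gram V} {U : Five V} (h : CloR le K C E G U) {X : V} {y : List V}
    (hg : G.Gen X y) : ∀ (m l : Set (Fin 2 → V)) (s : (V → ℕ) × (V → ℕ)),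
      Path (val le K) (fC le C) (fE le E) (dec le m, dec le l) y s →
      ∃ m' l', dec le m' = s.1 ∧ dec le l' = s.2 ∧ U X m l m' l' := by
  obtain ⟨h1, h2, h3⟩ := h
  induction hg with
  | @eps X hX =>
    intro m l s hp
    unfold Path at hp
    subst hp
    exact ⟨m, l, rfl, rfl, h1 X m l hX⟩
  | @ter X a hX =>
    intro m l s hp
    obtain ⟨u, hs, hp⟩ := hp
    unfold Path at hp
    subst hp
    obtain ⟨m', hm'⟩ := exists_dec hle (crd_lt (val_lt hle K) (a := a) (dec_lt hle m))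
    have h4 : ∃ l', dec le l' = u.2 := by
      rcases hs.2 with ⟨h5, _⟩ | ⟨_, h5⟩
      · exact ⟨l, h5.symm⟩
      · obtain ⟨l', hl'⟩ := exists_dec hle (crd_lt (val_lt hle K) (a := a) (dec_lt hle l))
        exact ⟨l', hl'.trans h5.symm⟩
    obtain ⟨l', hl'⟩ := h4
    have hm2 : dec le m' = u.1 := hm'.trans hs.1.symm
    refine ⟨m', l', hm2, hl', h2 X a m l m' l' hX ?_⟩
    rw [stepR_iff hle, hm2, hl']
    exact hs
  | @bin X Y Z u v hX _ _ ih1 ih2 =>
    intro m l s hp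
    obtain ⟨s1, hp1, hp2⟩ := (path_append _ _ _ _).1 hp
    obtain ⟨m1, l1, i1, i2, i3⟩ := ih1 m l s1 hp1
    have : s1 = (dec le m1, dec le l1) := by rw [i1, i2]
    rw [this] at hp2
    obtain ⟨m2, l2, j1, j2, j3⟩ := ih2 m1 l1 s hp2
    exact ⟨m2, l2, j1, j2, h3 X Y Z m l m1 l1 m2 l2 hX i3 j3⟩

theorem neq_sound {G G' : Gram V} {T U : Five V} {O : V → Set (Fin 2 → V) → Set (Fin 2 → V) →
    Set (Fin 2 → V) → Set (Fin 2 → V) → Five V} (h : NeqR le K G G' C E T U O) :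
    ∃ w ∈ G.lang, ∀ x ∈ G'.lang, ¬ Sim (val le K) w x := by
  obtain ⟨h1, h2, h3, lf, z, f, h4, h5, h6, ⟨S, mf, h7, h8⟩, h9⟩ := h
  have hz : dec le z = fun _ => 0 := by
    funext a
    unfold dec
    rw [val_eq_zero hle]
    ext d
    simp only [row, Set.mem_setOf_eq, Set.mem_empty_iff_false, iff_false]
    exact h4 a d
  have hf : dec le f = fun _ => val le K := by
    funext a
    unfold dec
    rw [h5 a]
  obtain ⟨w, i1, i2⟩ := acc_of hle h2 (S, z, z, mf, lf) h8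
  simp only at i1 i2
  rw [hz] at i2
  refine ⟨w, ⟨S, h7, i1⟩, ?_⟩
  rintro x ⟨S', j1, j2⟩ hs
  have hlf : fC le C (dec le lf) (fun _ => val le K) := ⟨lf, f, rfl, hf, h6⟩
  obtain ⟨m', hm'⟩ := (cert_of hle h1).complete hlf i2 hs
  rw [← hz] at hm'
  obtain ⟨m2, l2, g1, g2, g3⟩ := clo_of hle h3 j2 z z _ hm'
  rw [dec_inj hle g2] at g3
  exact h9 S' m2 j1 g3

end sound

/-! completeness -/

/-- derivations of bounded height -/
inductive GenH (G : Gram V) : ℕ → V → List V → Prop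
  | eps {n : ℕ} {X : V} : G.eps X → GenH G n X []
  | ter {n : ℕ} {X a : V} : G.ter X a → GenH G n X [a]
  | bin {n : ℕ} {X Y Z : V} {u v : List V} : G.bin X Y Z → GenH G n Y u → GenH G n Z v →
      GenH G (n + 1) X (u ++ v)

theorem GenH.mono {G : Gram V} {n m : ℕ} {X : V} {w : List V} (h : GenH G n X w) (hm : n ≤ m) :
    GenH G m X w := by
  induction h generalizing m with
  | eps h => exact GenH.eps h
  | ter h => exact GenH.ter h
  | bin h _ _ ih1 ih2 =>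
    obtain ⟨m, rfl⟩ : ∃ m', m = m' + 1 := ⟨m - 1, by omega⟩
    exact GenH.bin h (ih1 (by omega)) (ih2 (by omega))

theorem GenH.gen {G : Gram V} {n : ℕ} {X : V} {w : List V} (h : GenH G n X w) : G.Gen X w := by
  induction h with
  | eps h => exact Gram.Gen.eps h
  | ter h => exact Gram.Gen.ter h
  | bin h _ _ ih1 ih2 => exact Gram.Gen.bin h ih1 ih2

theorem exists_genH {G : Gram V} {X : V} {w : List V} (h : G.Gen X w) : ∃ n, GenH G n X w := by
  induction h with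
  | eps h => exact ⟨0, GenH.eps h⟩
  | ter h => exact ⟨0, GenH.ter h⟩
  | bin h _ _ ih1 ih2 =>
    obtain ⟨n, hn⟩ := ih1
    obtain ⟨m, hm⟩ := ih2
    exact ⟨max n m + 1, GenH.bin h (hn.mono (le_max_left _ _)) (hm.mono (le_max_right _ _))⟩

section complete

variable [Finite V] [DecidableEq V] {le : V → V → Prop} (hle : IsLin le) {K : Set V}

theorem path_lt {k N : ℕ} (hk : k < N) {C : (V → ℕ) → (V → ℕ) → Prop} {E : (V → ℕ) → V → Prop}
    (y : List V) : ∀ s t : (V → ℕ) × (V → ℕ), (∀ b, s.1 b < N) → (∀ b, s.2 b < N) →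
      Path k C E s y t → (∀ b, t.1 b < N) ∧ ∀ b, t.2 b < N := by
  induction y with
  | nil =>
    intro s t h1 h2 hp
    unfold Path at hp
    subst hp
    exact ⟨h1, h2⟩
  | cons a y ih =>
    intro s t h1 h2 hp
    obtain ⟨u, ⟨h3, h4⟩, h5⟩ := hp
    refine ih u t ?_ ?_ h5
    · rw [h3]
      exact crd_lt hk h1
    · rcases h4 with ⟨h6, _⟩ | ⟨_, h6⟩
      · rw [h6]
        exact h2
      · rw [h6]
        exact crd_lt hk h2

include hle

theorem neq_complete {G G' : Gram V} {w : List V} (hw : w ∈ G.lang)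
    (hx : ∀ x ∈ G'.lang, ¬ Sim (val le K) w x) :
    ∃ (C : Set (Fin 2 → V) → Set (Fin 2 → V) → Prop) (E : Set (Fin 2 → V) → V → Prop)
      (T U : Five V) (O : V → Set (Fin 2 → V) → Set (Fin 2 → V) →
        Set (Fin 2 → V) → Set (Fin 2 → V) → Five V), NeqR le K G G' C E T U O := by
  classical
  obtain ⟨C0, E0, lf0, h1, h2, h3, h4, h5, h6⟩ := exists_cert (val le K) w
  have hK := val_lt hle K
  let C : Set (Fin 2 → V) → Set (Fin 2 → V) → Prop := fun X Y => C0 (dec le X) (dec le Y)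
  let E : Set (Fin 2 → V) → V → Prop := fun X a => E0 (dec le X) a
  have hfC : fC le C = C0 := by
    funext l κ
    apply propext
    constructor
    · rintro ⟨X, Y, rfl, rfl, h⟩
      exact h
    · intro h
      obtain ⟨b1, b2⟩ := h5 l κ h
      obtain ⟨X, rfl⟩ := exists_dec hle (v := l) (fun a => lt_of_le_of_lt (b1 a) hK)
      obtain ⟨Y, rfl⟩ := exists_dec hle (v := κ) (fun a => lt_of_le_of_lt (b2 a) hK)
      exact ⟨X, Y, rfl, rfl, h⟩
  have hfE : fE le E = E0 := by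
    funext l a
    apply propext
    constructor
    · rintro ⟨X, rfl, h⟩
      exact h
    · intro h
      obtain ⟨X, rfl⟩ := exists_dec hle (v := l) (fun b => lt_of_le_of_lt (h6 l a h b) hK)
      exact ⟨X, rfl, h⟩
  have hstep : ∀ {m l m' l' : Set (Fin 2 → V)} {a : V}, StepR le K C E m l a m' l' ↔
      Step (val le K) C0 E0 (dec le m, dec le l) a (dec le m', dec le l') := by
    intro m l m' l' a
    rw [stepR_iff hle, hfC, hfE]
  have hstate : ∀ (m l : Set (Fin 2 → V)) (y : List V) (s : (V → ℕ) × (V → ℕ)),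
      Path (val le K) C0 E0 (dec le m, dec le l) y s →
      ∃ m' l', s = (dec le m', dec le l') := by
    intro m l y s hp
    obtain ⟨b1, b2⟩ := path_lt hK y _ _ (dec_lt hle m) (dec_lt hle l) hp
    obtain ⟨X, hX⟩ := exists_dec hle b1
    obtain ⟨Y, hY⟩ := exists_dec hle b2
    exact ⟨X, Y, by rw [hX, hY]⟩
  -- heights
  let P : ℕ → V → Set (Fin 2 → V) → Set (Fin 2 → V) → Set (Fin 2 → V) →
      Set (Fin 2 → V) → Prop := fun n X m l m' l' =>
    ∃ y, GenH G n X y ∧ Path (val le K) C0 E0 (dec le m, dec le l) y (dec le m', dec le l')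
  let T : Five V := fun X m l m' l' => ∃ n, P n X m l m' l'
  let ht : V → Set (Fin 2 → V) → Set (Fin 2 → V) → Set (Fin 2 → V) → Set (Fin 2 → V) → ℕ :=
    fun X m l m' l' => sInf {n | P n X m l m' l'}
  let O : V → Set (Fin 2 → V) → Set (Fin 2 → V) →
        Set (Fin 2 → V) → Set (Fin 2 → V) → Five V :=
    fun X m l m' l' X1 m1 l1 m1' l1' => ht X m l m' l' < ht X1 m1 l1 m1' l1'
  let U : Five V := fun X m l m' l' => ∃ y, G'.Gen X y ∧
    Path (val le K) C0 E0 (dec le m, dec le l) y (dec le m', dec le l')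
  refine ⟨C, E, T, U, O, ⟨?_, ?_, ?_⟩, ⟨?_, ?_, ?_⟩, ⟨?_, ?_, ?_⟩, ?_⟩
  · intro X Y Z i1 i2
    exact dec_inj hle (h1.fn i1 i2)
  · intro X a i1
    obtain ⟨κ, i2, i3, i4⟩ := h1.edge i1
    obtain ⟨b1, b2⟩ := h5 _ _ i2
    obtain ⟨b3, b4⟩ := h5 _ _ i3
    obtain ⟨κ1, hκ1⟩ := exists_dec hle (v := κ) (fun a => lt_of_le_of_lt (b4 a) hK)
    obtain ⟨κ2, hκ2⟩ := exists_dec hle (v := krd a κ) (fun a => lt_of_le_of_lt (b2 a) hK)
    obtain ⟨Y, hY⟩ := exists_dec hle (v := crd (val le K) a (dec le X))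
      (fun a => lt_of_le_of_lt (b3 a) hK)
    subst hκ1
    refine ⟨Y, κ1, κ2, (crdR_iff hle).2 hY, ?_, (krdR_iff hle).2 hκ2, ?_, (nlt_iff hle).2 i4⟩
    · change C0 (dec le Y) (dec le κ1)
      rw [hY]
      exact i3
    · change C0 (dec le X) (dec le κ2)
      rw [hκ2]
      exact i2
  · intro X a c Y Z κ i1 i2 i3 i4 i5 i6 i7 i8 i9
    rw [crdR_iff hle] at i2 i4
    rw [nsuc_iff hle] at i9
    have i3' : E0 (dec le Y) c := i3
    have i5' : C0 (dec le Z) (dec le κ) := i5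
    rw [i2] at i3'
    rw [i4, i2] at i5'
    obtain ⟨j1, j2, j3⟩ := h1.swap i1 i3' i5' i6 ((row_eq_iff hle).1 i7) ((row_eq_iff hle).1 i8)
      i9.symm
    obtain ⟨b1, b2⟩ := h5 _ _ j3
    obtain ⟨Y', hY'⟩ := exists_dec hle (v := crd (val le K) c (dec le X))
      (fun a => lt_of_le_of_lt (b1 a) hK)
    obtain ⟨κ', hκ'⟩ := exists_dec hle (v := krd a (dec le κ))
      (fun a => lt_of_le_of_lt (b2 a) hK)
    refine ⟨j1, Y', κ', (crdR_iff hle).2 hY', ?_, (krdR_iff hle).2 hκ', ?_⟩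
    · change E0 (dec le Y') a
      rw [hY']
      exact j2
    · change C0 (dec le Y') (dec le κ')
      rw [hY', hκ']
      exact j3
  · intro X m l m' l' hT
    have hmem : P (ht X m l m' l') X m l m' l' := Nat.sInf_mem hT
    obtain ⟨y, g1, g2⟩ := hmem
    generalize hn : ht X m l m' l' = n at g1
    cases g1 with
    | eps g1 =>
      left
      unfold Path at g2
      rw [Prod.mk.injEq] at g2
      exact ⟨g1, dec_inj hle g2.1, dec_inj hle g2.2⟩
    | @ter _ _ a g1 =>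
      right
      left
      obtain ⟨u, g3, g4⟩ := g2
      unfold Path at g4
      subst g4
      exact ⟨a, g1, hstep.2 g3⟩
    | @bin n _ Y Z u v g1 g3 g4 =>
      right
      right
      obtain ⟨s, g5, g6⟩ := (path_append _ _ _ _).1 g2
      obtain ⟨m1, l1, rfl⟩ := hstate _ _ _ _ g5
      refine ⟨Y, Z, m1, l1, g1, ⟨_, _, g3, g5⟩, ⟨_, _, g4, g6⟩, ?_, ?_⟩
      · have : ht Y m l m1 l1 ≤ n := Nat.sInf_le ⟨_, g3, g5⟩
        change ht Y m l m1 l1 < ht X m l m' l'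
        omega
      · have : ht Z m1 l1 m' l' ≤ n := Nat.sInf_le ⟨_, g4, g6⟩
        change ht Z m1 l1 m' l' < ht X m l m' l'
        omega
  · intro X m l m' l' h
    exact lt_irrefl _ h
  · intro X m l m' l' X1 m1 l1 m1' l1' X2 m2 l2 m2' l2' i1 i2
    exact lt_trans i1 i2
  · intro X m l hX
    exact ⟨[], Gram.Gen.eps hX, rfl⟩
  · intro X a m l m' l' hX hs
    exact ⟨[a], Gram.Gen.ter hX, _, hstep.1 hs, rfl⟩
  · rintro X Y Z m l m1 l1 m2 l2 hX ⟨y, g1, g2⟩ ⟨y', g3, g4⟩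
    exact ⟨y ++ y', Gram.Gen.bin hX g1 g3, (path_append _ _ _ _).2 ⟨_, g2, g4⟩⟩
  · obtain ⟨lf, hlf⟩ := exists_dec hle (v := lf0) (fun a => lt_of_le_of_lt ((h5 _ _ h2).1 a) hK)
    let f : Set (Fin 2 → V) := {p | p 1 ∈ K}
    have hf : ∀ a, row f a = K := by
      intro a
      rfl
    have hfd : dec le f = fun _ => val le K := by
      funext a
      unfold dec
      rw [hf a]
    have hz : dec le (∅ : Set (Fin 2 → V)) = fun _ => 0 := by
      funext a
      unfold dec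
      rw [val_eq_zero hle]
      rfl
    obtain ⟨S, j1, j2⟩ := hw
    obtain ⟨m, hm⟩ := h3
    refine ⟨lf, ∅, f, fun a b h => h, hf, ?_, ⟨S, ?_⟩, ?_⟩
    · change C0 (dec le lf) (dec le f)
      rw [hlf, hfd]
      exact h2
    · rw [← hz] at hm
      obtain ⟨m', l', he⟩ := hstate _ _ _ _ hm
      rw [Prod.mk.injEq] at he
      obtain ⟨n, hn⟩ := exists_genH j2
      refine ⟨m', j1, n, w, hn, ?_⟩
      rw [hlf, ← he.1]
      exact hm
    · rintro S' mf j3 ⟨x, j4, j5⟩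
      rw [hz, hlf] at j5
      exact hx x ⟨S', j3, j4⟩ (h4 x _ j5).symm

end complete

end Pool.Agent.H92.Simon
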