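import Pool.Agent.H92.Simon.Neq
import Pool.Agent.H92.Desc.Exp
import Pool.Agent.H92.Desc.UDef

/-!
Definability over the expansions of the structures of binary relations on an instance:
set variables and point variables.
-/

namespace Pool.Agent.H92.Simon

open FirstOrder FirstOrder.Language Desc

/-- Symbols for a certificate. -/
inductive NxRel : ℕ → Type
  | C : NxRel 2
  | E : NxRel 2
  | T : NxRel 5
  | U : NxRel 5
  | O : NxRel 10

/-- the vocabulary of certificates -/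
def nxLang : FirstOrder.Language.{0, 0} := ⟨fun _ => Empty, NxRel⟩

theorem nxLang_finRel : FinRel nxLang := by
  refine ⟨fun _ => inferInstanceAs (IsEmpty Empty), ?_⟩
  refine Finite.of_surjective (fun b : Fin 5 => match b with
    | 0 => (⟨2, NxRel.C⟩ : Σ n, NxRel n)
    | 1 => ⟨2, NxRel.E⟩
    | 2 => ⟨5, NxRel.T⟩
    | 3 => ⟨5, NxRel.U⟩
    | 4 => ⟨10, NxRel.O⟩) ?_
  rintro ⟨_, R⟩
  cases R with
  | C => exact ⟨0, rfl⟩
  | E => exact ⟨1, rfl⟩
  | T => exact ⟨2, rfl⟩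
  | U => exact ⟨3, rfl⟩
  | O => exact ⟨4, rfl⟩

/-- all expansions of the structures of binary relations -/
abbrev nxCls : Cls ((powLang cfgLang 2).sum nxLang) where
  ι := Σ' A : FinStr cfgLang, nxLang.Structure (Set (Fin 2 → A.carrier))
  car c := Set (Fin 2 → c.1.carrier)
  str c := @sumStructure (powLang cfgLang 2) nxLang _ (powStr 2 c.1.str) c.2

/-- definability with set variables (in `α`) and point variables (in `β`) -/
def PDef {α β : Type} (P : ∀ c : nxCls.ι, (α → nxCls.car c) → (β → c.1.carrier) → Prop) : Prop :=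
  ∃ Q : ∀ c : nxCls.ι, (α ⊕ β → nxCls.car c) → Prop, UDef nxCls Q ∧
    ∀ c X b, Q c (Sum.elim X (fun i => pt 2 (b i))) ↔ P c X b

theorem pt_inj {r : ℕ} (hr : 1 ≤ r) {A : Type} {a b : A} (h : pt r a = pt r b) : a = b := by
  unfold pt at h
  have := Set.singleton_injective h
  exact congrFun this ⟨0, hr⟩

theorem udef_isPt {α : Type} (i : α) : UDef nxCls (fun c v => ∃ a, v i = pt 2 a) := by
  refine (UDef.ex1 (𝒞 := nxCls) (P := fun c v Y =>
    @Structure.RelMap (powLang cfgLang 2) _ (powStr 2 c.1.str) 3 PowRel.mem ![v i, v i, Y])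
    ?_).congr fun c v => ?_
  · refine (UDef.rel (𝒞 := nxCls) (Sum.inl (PowRel.mem : PowRel cfgLang 2 3))
      ![Sum.inl i, Sum.inl i, Sum.inr ()]).congr fun c v => ?_
    have : v ∘ ![Sum.inl i, Sum.inl i, Sum.inr ()] = ![v (Sum.inl i), v (Sum.inl i), v (Sum.inr ())] := by
      funext k
      fin_cases k <;> rfl
    rw [this]
    exact Iff.rfl
  · constructor
    · rintro ⟨Y, a, _, ha⟩
      exact ⟨a 0, ha 0⟩
    · rintro ⟨a, ha⟩
      refine ⟨({![a, a]} : Set (Fin 2 → c.1.carrier)), ![a, a], rfl, ?_⟩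
      intro k
      fin_cases k
      · exact ha
      · exact ha

namespace PDef

variable {α β α' β' : Type} {P Q : ∀ c : nxCls.ι, (α → nxCls.car c) → (β → c.1.carrier) → Prop}

theorem congr (h : PDef P) (h' : ∀ c X b, P c X b ↔ Q c X b) : PDef Q := by
  obtain ⟨R, h1, h2⟩ := h
  exact ⟨R, h1, fun c X b => (h2 c X b).trans (h' c X b)⟩

theorem const (p : Prop) : PDef (fun _ (_ : α → _) (_ : β → _) => p) :=
  ⟨_, UDef.const p, fun _ _ _ => Iff.rfl⟩

theorem not (h : PDef P) : PDef (fun c X b => ¬ P c X b) := by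
  obtain ⟨R, h1, h2⟩ := h
  exact ⟨_, h1.not, fun c X b => not_congr (h2 c X b)⟩

theorem and (h : PDef P) (h' : PDef Q) : PDef (fun c X b => P c X b ∧ Q c X b) := by
  obtain ⟨R, h1, h2⟩ := h
  obtain ⟨R', h1', h2'⟩ := h'
  exact ⟨_, h1.and h1', fun c X b => and_congr (h2 c X b) (h2' c X b)⟩

theorem or (h : PDef P) (h' : PDef Q) : PDef (fun c X b => P c X b ∨ Q c X b) := by
  obtain ⟨R, h1, h2⟩ := h
  obtain ⟨R', h1', h2'⟩ := h'
  exact ⟨_, h1.or h1', fun c X b => or_congr (h2 c X b) (h2' c X b)⟩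

theorem imp (h : PDef P) (h' : PDef Q) : PDef (fun c X b => P c X b → Q c X b) := by
  obtain ⟨R, h1, h2⟩ := h
  obtain ⟨R', h1', h2'⟩ := h'
  exact ⟨_, h1.imp h1', fun c X b => imp_congr (h2 c X b) (h2' c X b)⟩

theorem iff (h : PDef P) (h' : PDef Q) : PDef (fun c X b => P c X b ↔ Q c X b) := by
  obtain ⟨R, h1, h2⟩ := h
  obtain ⟨R', h1', h2'⟩ := h'
  exact ⟨_, h1.iff h1', fun c X b => iff_congr (h2 c X b) (h2' c X b)⟩

theorem exS {P : ∀ c : nxCls.ι, (α → nxCls.car c) → nxCls.car c → (β → c.1.carrier) → Prop}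
    (h : PDef (fun c (X : α ⊕ Unit → nxCls.car c) (b : β → c.1.carrier) =>
      P c (X ∘ Sum.inl) (X (Sum.inr ())) b)) :
    PDef (fun c X b => ∃ Y, P c X Y b) := by
  obtain ⟨R, h1, h2⟩ := h
  let g : (α ⊕ Unit) ⊕ β → (α ⊕ β) ⊕ Unit :=
    Sum.elim (Sum.elim (Sum.inl ∘ Sum.inl) Sum.inr) (Sum.inl ∘ Sum.inr)
  let e : ∀ c : nxCls.ι, (α ⊕ β → nxCls.car c) → nxCls.car c → ((α ⊕ Unit) ⊕ β → nxCls.car c) :=
    fun c v Y => Sum.elim (Sum.elim (v ∘ Sum.inl) (fun _ => Y)) (v ∘ Sum.inr)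
  refine ⟨fun c v => ∃ Y, R c (e c v Y), ?_, ?_⟩
  · refine UDef.ex1 (𝒞 := nxCls) (P := fun c v Y => R c (e c v Y)) ?_
    refine (h1.comp g).congr fun c u => ?_
    have : u ∘ g = e c (u ∘ Sum.inl) (u (Sum.inr ())) := by
      funext x
      rcases x with (x | x) | x <;> rfl
    rw [this]
  · intro c X b
    refine exists_congr fun Y => ?_
    have := h2 c (Sum.elim X (fun _ => Y)) b
    exact this

theorem allS {P : ∀ c : nxCls.ι, (α → nxCls.car c) → nxCls.car c → (β → c.1.carrier) → Prop}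
    (h : PDef (fun c (X : α ⊕ Unit → nxCls.car c) (b : β → c.1.carrier) =>
      P c (X ∘ Sum.inl) (X (Sum.inr ())) b)) :
    PDef (fun c X b => ∀ Y, P c X Y b) := by
  refine (exS (P := fun c X Y b => ¬ P c X Y b) h.not).not.congr fun c X b => ?_
  push Not
  rfl

theorem exP {P : ∀ c : nxCls.ι, (α → nxCls.car c) → (β → c.1.carrier) → c.1.carrier → Prop}
    (h : PDef (fun c (X : α → nxCls.car c) (b : β ⊕ Unit → c.1.carrier) =>
      P c X (b ∘ Sum.inl) (b (Sum.inr ())))) :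
    PDef (fun c X b => ∃ y, P c X b y) := by
  obtain ⟨R, h1, h2⟩ := h
  let g : α ⊕ (β ⊕ Unit) → (α ⊕ β) ⊕ Unit :=
    Sum.elim (Sum.inl ∘ Sum.inl) (Sum.elim (Sum.inl ∘ Sum.inr) Sum.inr)
  let e : ∀ c : nxCls.ι, (α ⊕ β → nxCls.car c) → nxCls.car c → (α ⊕ (β ⊕ Unit) → nxCls.car c) :=
    fun c v Y => Sum.elim (v ∘ Sum.inl) (Sum.elim (v ∘ Sum.inr) (fun _ => Y))
  refine ⟨fun c v => ∃ Y, (∃ a, Y = pt 2 a) ∧ R c (e c v Y), ?_, ?_⟩
  · refine UDef.ex1 (𝒞 := nxCls) (P := fun c v Y => (∃ a, Y = pt 2 a) ∧ R c (e c v Y)) ?_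
    refine (udef_isPt (Sum.inr ())).and ?_
    refine (h1.comp g).congr fun c u => ?_
    have : u ∘ g = e c (u ∘ Sum.inl) (u (Sum.inr ())) := by
      funext x
      rcases x with x | x | x <;> rfl
    rw [this]
  · intro c X b
    have key : ∀ y : c.1.carrier, R c (e c (Sum.elim X (fun i => pt 2 (b i))) (pt 2 y)) ↔
        P c X b y := by
      intro y
      have := h2 c X (Sum.elim b (fun _ => y))
      have he : (Sum.elim X (fun i => pt 2 ((Sum.elim b (fun _ => y) : β ⊕ Unit → _) i))) =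
          e c (Sum.elim X (fun i => pt 2 (b i))) (pt 2 y) := by
        funext x
        rcases x with x | x | x <;> rfl
      rw [he] at this
      exact this
    constructor
    · rintro ⟨Y, ⟨a, rfl⟩, hY⟩
      exact ⟨a, (key a).1 hY⟩
    · rintro ⟨y, hy⟩
      exact ⟨pt 2 y, ⟨y, rfl⟩, (key y).2 hy⟩

theorem allP {P : ∀ c : nxCls.ι, (α → nxCls.car c) → (β → c.1.carrier) → c.1.carrier → Prop}
    (h : PDef (fun c (X : α → nxCls.car c) (b : β ⊕ Unit → c.1.carrier) =>
      P c X (b ∘ Sum.inl) (b (Sum.inr ())))) :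
    PDef (fun c X b => ∀ y, P c X b y) := by
  refine (exP (P := fun c X b y => ¬ P c X b y) h.not).not.congr fun c X b => ?_
  push Not
  rfl

theorem comp {P : ∀ c : nxCls.ι, (α → nxCls.car c) → (β → c.1.carrier) → Prop} (h : PDef P)
    (f : α → α') (g : β → β') :
    PDef (fun c (X : α' → nxCls.car c) (b : β' → c.1.carrier) => P c (X ∘ f) (b ∘ g)) := by
  obtain ⟨R, h1, h2⟩ := h
  refine ⟨_, h1.comp (Sum.map f g), fun c X b => ?_⟩
  refine Iff.trans ?_ (h2 c (X ∘ f) (b ∘ g))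
  have : (Sum.elim X (fun i => pt 2 (b i))) ∘ Sum.map f g =
      Sum.elim (X ∘ f) (fun i => pt 2 ((b ∘ g) i)) := by
    funext x
    rcases x with x | x <;> rfl
  rw [this]

/-- equality of points -/
theorem eqP (i j : β) : PDef (fun _ (_ : α → _) b => b i = b j) := by
  refine ⟨_, UDef.eq (𝒞 := nxCls) (Sum.inr i) (Sum.inr j), fun c X b => ?_⟩
  constructor
  · intro h
    exact pt_inj (by norm_num) h
  · intro h
    change pt 2 (b i) = pt 2 (b j)
    rw [h]

/-- equality of sets -/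
theorem eqS (i j : α) : PDef (fun _ X (_ : β → _) => X i = X j) :=
  ⟨_, UDef.eq (𝒞 := nxCls) (Sum.inl i) (Sum.inl j), fun _ _ _ => Iff.rfl⟩

/-- membership -/
theorem mem (i j : β) (s : α) : PDef (fun _ X b => In (X s) (b i) (b j)) := by
  refine ⟨_, UDef.rel (𝒞 := nxCls) (Sum.inl (PowRel.mem : PowRel cfgLang 2 3))
      ![Sum.inr i, Sum.inr j, Sum.inl s], fun c X b => ?_⟩
  constructor
  · rintro ⟨a, ha, h⟩
    have h0 : b i = a 0 := pt_inj (by norm_num) (h 0)
    have h1 : b j = a 1 := pt_inj (by norm_num) (h 1)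
    have : ![b i, b j] = a := by
      funext k
      fin_cases k
      · exact h0
      · exact h1
    unfold In
    rw [this]
    exact ha
  · intro h
    refine ⟨![b i, b j], h, fun k => ?_⟩
    fin_cases k <;> rfl

/-- relations of the instance -/
theorem lift {n : ℕ} (R : cfgLang.Relations n) (t : Fin n → β) :
    PDef (fun c (_ : α → _) b => @Structure.RelMap cfgLang _ c.1.str n R (b ∘ t)) := by
  refine ⟨_, UDef.rel (𝒞 := nxCls) (Sum.inl (PowRel.lift R : PowRel cfgLang 2 n))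
      (fun k => Sum.inr (t k)), fun c X b => ?_⟩
  constructor
  · rintro ⟨a, ha, h⟩
    have : b ∘ t = a := by
      funext k
      exact pt_inj (by norm_num) (h k)
    rw [this]
    exact ha
  · intro h
    exact ⟨b ∘ t, h, fun k => rfl⟩

/-- guessed relations -/
theorem rel {n : ℕ} (R : nxLang.Relations n) (t : Fin n → α ⊕ β) :
    PDef (fun c X b => @Structure.RelMap nxLang _ c.2 n R
      (Sum.elim X (fun i => pt 2 (b i)) ∘ t)) :=
  ⟨_, UDef.rel (𝒞 := nxCls) (Sum.inr R) t, fun _ _ _ => Iff.rfl⟩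

end PDef

end Pool.Agent.H92.Simon
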