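import Pool.Agent.H92.Simon.PDef

/-!
Inequivalence of context-free grammars modulo Simon's congruence is in NEXPTIME.
-/

namespace Pool.Agent.H92.Simon

open FirstOrder FirstOrder.Language Desc

namespace PDef

variable {α β γ δ : Type}

theorem exSN [Finite γ]
    {P : ∀ c : nxCls.ι, (α → nxCls.car c) → (γ → nxCls.car c) → (β → c.1.carrier) → Prop}
    (h : PDef (fun c (X : α ⊕ γ → nxCls.car c) (b : β → c.1.carrier) =>
      P c (X ∘ Sum.inl) (X ∘ Sum.inr) b)) :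
    PDef (fun c X b => ∃ Y, P c X Y b) := by
  obtain ⟨R, h1, h2⟩ := h
  let g : (α ⊕ γ) ⊕ β → (α ⊕ β) ⊕ γ :=
    Sum.elim (Sum.elim (Sum.inl ∘ Sum.inl) Sum.inr) (Sum.inl ∘ Sum.inr)
  let e : ∀ c : nxCls.ι, (α ⊕ β → nxCls.car c) → (γ → nxCls.car c) →
      ((α ⊕ γ) ⊕ β → nxCls.car c) :=
    fun c v Y => Sum.elim (Sum.elim (v ∘ Sum.inl) Y) (v ∘ Sum.inr)
  refine ⟨fun c v => ∃ Y, R c (e c v Y), ?_, ?_⟩
  · refine UDef.ex (𝒞 := nxCls) (P := fun c v Y => R c (e c v Y)) ?_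
    refine (h1.comp g).congr fun c u => ?_
    have : u ∘ g = e c (u ∘ Sum.inl) (u ∘ Sum.inr) := by
      funext x
      rcases x with (x | x) | x <;> rfl
    rw [this]
  · intro c X b
    refine exists_congr fun Y => ?_
    have := h2 c (Sum.elim X Y) b
    exact this

theorem allSN [Finite γ]
    {P : ∀ c : nxCls.ι, (α → nxCls.car c) → (γ → nxCls.car c) → (β → c.1.carrier) → Prop}
    (h : PDef (fun c (X : α ⊕ γ → nxCls.car c) (b : β → c.1.carrier) =>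
      P c (X ∘ Sum.inl) (X ∘ Sum.inr) b)) :
    PDef (fun c X b => ∀ Y, P c X Y b) := by
  refine (exSN (P := fun c X Y b => ¬ P c X Y b) h.not).not.congr fun c X b => ?_
  push Not
  rfl

theorem exPN [Finite δ]
    {P : ∀ c : nxCls.ι, (α → nxCls.car c) → (β → c.1.carrier) → (δ → c.1.carrier) → Prop}
    (h : PDef (fun c (X : α → nxCls.car c) (b : β ⊕ δ → c.1.carrier) =>
      P c X (b ∘ Sum.inl) (b ∘ Sum.inr))) :
    PDef (fun c X b => ∃ y, P c X b y) := by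
  obtain ⟨R, h1, h2⟩ := h
  let g : α ⊕ (β ⊕ δ) → (α ⊕ β) ⊕ δ :=
    Sum.elim (Sum.inl ∘ Sum.inl) (Sum.elim (Sum.inl ∘ Sum.inr) Sum.inr)
  let e : ∀ c : nxCls.ι, (α ⊕ β → nxCls.car c) → (δ → nxCls.car c) →
      (α ⊕ (β ⊕ δ) → nxCls.car c) :=
    fun c v Y => Sum.elim (v ∘ Sum.inl) (Sum.elim (v ∘ Sum.inr) Y)
  refine ⟨fun c v => ∃ Y : δ → nxCls.car c, (∀ d, ∃ a, Y d = pt 2 a) ∧ R c (e c v Y), ?_, ?_⟩
  · refine UDef.ex (𝒞 := nxCls) (P := fun c v Y => (∀ d, ∃ a, Y d = pt 2 a) ∧ R c (e c v Y)) ?_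
    refine (UDef.forallFin fun d => udef_isPt (Sum.inr d)).and ?_
    refine (h1.comp g).congr fun c u => ?_
    have : u ∘ g = e c (u ∘ Sum.inl) (u ∘ Sum.inr) := by
      funext x
      rcases x with x | x | x <;> rfl
    rw [this]
  · intro c X b
    have key : ∀ y : δ → c.1.carrier,
        R c (e c (Sum.elim X (fun i => pt 2 (b i))) (fun d => pt 2 (y d))) ↔ P c X b y := by
      intro y
      have := h2 c X (Sum.elim b y)
      have he : (Sum.elim X (fun i => pt 2 ((Sum.elim b y : β ⊕ δ → _) i))) =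
          e c (Sum.elim X (fun i => pt 2 (b i))) (fun d => pt 2 (y d)) := by
        funext x
        rcases x with x | x | x <;> rfl
      rw [he] at this
      exact this
    constructor
    · rintro ⟨Y, hY', hY⟩
      choose a ha using hY'
      obtain rfl : Y = fun d => pt 2 (a d) := funext ha
      exact ⟨a, (key a).1 hY⟩
    · rintro ⟨y, hy⟩
      exact ⟨fun d => pt 2 (y d), fun d => ⟨y d, rfl⟩, (key y).2 hy⟩

theorem allPN [Finite δ]
    {P : ∀ c : nxCls.ι, (α → nxCls.car c) → (β → c.1.carrier) → (δ → c.1.carrier) → Prop}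
    (h : PDef (fun c (X : α → nxCls.car c) (b : β ⊕ δ → c.1.carrier) =>
      P c X (b ∘ Sum.inl) (b ∘ Sum.inr))) :
    PDef (fun c X b => ∀ y, P c X b y) := by
  refine (exPN (P := fun c X b y => ¬ P c X b y) h.not).not.congr fun c X b => ?_
  push Not
  rfl

/-- closed universal statements -/
theorem closed [Finite γ] [Finite δ]
    {P : ∀ c : nxCls.ι, (γ → nxCls.car c) → (δ → c.1.carrier) → Prop} (h : PDef P) :
    PDef (fun c (_ : α → nxCls.car c) (_ : β → c.1.carrier) => ∀ Y y, P c Y y) := by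
  refine allSN (P := fun c _ Y _ => ∀ y, P c Y y) ?_
  refine allPN (P := fun c X _ y => P c (X ∘ Sum.inr) y) ?_
  exact h.comp Sum.inr Sum.inr

end PDef

/-- definable families of sets of points -/
def PNum {α β : Type} (N : ∀ c : nxCls.ι, (α → nxCls.car c) → (β → c.1.carrier) →
    Set c.1.carrier) : Prop :=
  PDef (fun c (X : α → nxCls.car c) (b : β ⊕ Unit → c.1.carrier) =>
    b (Sum.inr ()) ∈ N c X (b ∘ Sum.inl))

section

variable {α β α' β' : Type}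

theorem PNum.comp {N : ∀ c : nxCls.ι, (α → nxCls.car c) → (β → c.1.carrier) → Set c.1.carrier}
    (h : PNum N) (f : α → α') (g : β → β') :
    PNum (fun c (X : α' → nxCls.car c) (b : β' → c.1.carrier) => N c (X ∘ f) (b ∘ g)) := by
  refine (PDef.comp h f (Sum.map g id)).congr fun c X b => ?_
  exact Iff.rfl

theorem PNum.at {N : ∀ c : nxCls.ι, (α → nxCls.car c) → (β → c.1.carrier) → Set c.1.carrier}
    (h : PNum N) (f : α → α') (g : β → β') (y : β') :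
    PDef (fun c (X : α' → nxCls.car c) (b : β' → c.1.carrier) => b y ∈ N c (X ∘ f) (b ∘ g)) := by
  refine (PDef.comp h f (Sum.elim g (fun _ => y))).congr fun c X b => ?_
  exact Iff.rfl

theorem p_row (i : α) (a : β) : PNum (fun _ X b => row (X i) (b a)) :=
  (PDef.mem (Sum.inl a) (Sum.inr ()) i).congr fun _ _ _ => Iff.rfl

theorem comp_vec1 {A B : Type} (v : A → B) (a : A) : v ∘ ![a] = ![v a] := by
  funext i
  fin_cases i
  rfl

theorem comp_vec2 {A B : Type} (v : A → B) (a b : A) : v ∘ ![a, b] = ![v a, v b] := by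
  funext i
  fin_cases i <;> rfl

theorem comp_vec3 {A B : Type} (v : A → B) (a b c : A) : v ∘ ![a, b, c] = ![v a, v b, v c] := by
  funext i
  fin_cases i <;> rfl

theorem p_K : PNum (fun c (_ : α → nxCls.car c) (_ : β → c.1.carrier) => kbitOf c.1) := by
  refine (PDef.lift CfgRel.kbit ![Sum.inr ()]).congr fun c X b => ?_
  rw [comp_vec1]
  exact Iff.rfl

theorem p_diag (i : α) : PNum (fun c X (_ : β → c.1.carrier) => {x | In (X i) x x}) :=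
  (PDef.mem (Sum.inr ()) (Sum.inr ()) i).congr fun _ _ _ => Iff.rfl

theorem p_le (x y : β) :
    PDef (fun c (_ : α → nxCls.car c) b => leOf c.1 (b x) (b y)) := by
  refine (PDef.lift CfgRel.le ![x, y]).congr fun c X b => ?_
  rw [comp_vec2]
  exact Iff.rfl

theorem p_bin (g : Bool) (x y z : β) :
    PDef (fun c (_ : α → nxCls.car c) b => (gramOf c.1 g).bin (b x) (b y) (b z)) := by
  refine (PDef.lift (CfgRel.bin g) ![x, y, z]).congr fun c X b => ?_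
  rw [comp_vec3]
  exact Iff.rfl

theorem p_ter (g : Bool) (x y : β) :
    PDef (fun c (_ : α → nxCls.car c) b => (gramOf c.1 g).ter (b x) (b y)) := by
  refine (PDef.lift (CfgRel.ter g) ![x, y]).congr fun c X b => ?_
  rw [comp_vec2]
  exact Iff.rfl

theorem p_eps (g : Bool) (x : β) :
    PDef (fun c (_ : α → nxCls.car c) b => (gramOf c.1 g).eps (b x)) := by
  refine (PDef.lift (CfgRel.eps g) ![x]).congr fun c X b => ?_
  rw [comp_vec1]
  exact Iff.rfl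

theorem p_start (g : Bool) (x : β) :
    PDef (fun c (_ : α → nxCls.car c) b => (gramOf c.1 g).start (b x)) := by
  refine (PDef.lift (CfgRel.start g) ![x]).congr fun c X b => ?_
  rw [comp_vec1]
  exact Iff.rfl

variable {N M : ∀ c : nxCls.ι, (α → nxCls.car c) → (β → c.1.carrier) → Set c.1.carrier}

theorem p_nlt (hN : PNum N) (hM : PNum M) :
    PDef (fun c X b => NLt (leOf c.1) (N c X b) (M c X b)) := by
  refine PDef.exP (P := fun c X b x => x ∈ M c X b ∧ x ∉ N c X b ∧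
    ∀ y, y ∈ N c X b → y ∉ M c X b → (leOf c.1 y x ∧ y ≠ x)) ?_
  refine PDef.and hM (PDef.and (PDef.not hN) ?_)
  refine PDef.allP (P := fun c X b y => y ∈ N c X (b ∘ Sum.inl) → y ∉ M c X (b ∘ Sum.inl) →
    (leOf c.1 y (b (Sum.inr ())) ∧ y ≠ b (Sum.inr ()))) ?_
  refine PDef.imp (hN.at id (Sum.inl ∘ Sum.inl) (Sum.inr ()))
    (PDef.imp (PDef.not (hM.at id (Sum.inl ∘ Sum.inl) (Sum.inr ()))) ?_)
  exact (p_le _ _).and (PDef.eqP _ _).not

theorem p_eqN (hN : PNum N) (hM : PNum M) : PDef (fun c X b => N c X b = M c X b) := by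
  refine (PDef.allP (P := fun c X b x => x ∈ N c X b ↔ x ∈ M c X b)
    (PDef.iff hN hM)).congr fun c X b => ?_
  exact Set.ext_iff.symm

theorem p_nsuc (hN : PNum N) (hM : PNum M) :
    PDef (fun c X b => NSuc (leOf c.1) (N c X b) (M c X b)) := by
  refine (PDef.and (p_nlt hN hM) (PDef.allS (P := fun c X Y b =>
    ¬ (NLt (leOf c.1) (N c X b) {x | In Y x x} ∧ NLt (leOf c.1) {x | In Y x x} (M c X b)))
      ?_)).congr fun c X b => ?_
  · exact ((p_nlt (hN.comp Sum.inl id) (p_diag (Sum.inr ()))).and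
      (p_nlt (p_diag (Sum.inr ())) (hM.comp Sum.inl id))).not
  · refine and_congr Iff.rfl ?_
    constructor
    · intro h Z
      have := h {p | p 0 ∈ Z}
      exact this
    · intro h Y
      exact h _

theorem p_crd (a : β) (i j : α) :
    PDef (fun c X b => CrdR (leOf c.1) (kbitOf c.1) (b a) (X i) (X j)) := by
  refine PDef.allP (P := fun c X b y => (y = b a ∧
      ((¬ NLt (leOf c.1) (row (X i) (b a)) (kbitOf c.1) ∧ row (X j) y = kbitOf c.1) ∨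
      (NLt (leOf c.1) (row (X i) (b a)) (kbitOf c.1) ∧
        NSuc (leOf c.1) (row (X i) (b a)) (row (X j) y)))) ∨
    (y ≠ b a ∧ ((¬ NLt (leOf c.1) (row (X i) (b a)) (row (X i) y) ∧ row (X j) y = row (X i) y) ∨
      (NLt (leOf c.1) (row (X i) (b a)) (row (X i) y) ∧
        NSuc (leOf c.1) (row (X i) (b a)) (row (X j) y))))) ?_
  have e1 := p_row (α := α) (β := β ⊕ Unit) i (Sum.inl a)
  have e2 := p_row (α := α) (β := β ⊕ Unit) i (Sum.inr ())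
  have e3 := p_row (α := α) (β := β ⊕ Unit) j (Sum.inr ())
  refine PDef.or (PDef.and (PDef.eqP _ _) (PDef.or (PDef.and (p_nlt e1 p_K).not (p_eqN e3 p_K))
    (PDef.and (p_nlt e1 p_K) (p_nsuc e1 e3)))) ?_
  exact PDef.and (PDef.eqP _ _).not (PDef.or (PDef.and (p_nlt e1 e2).not (p_eqN e3 e2))
    (PDef.and (p_nlt e1 e2) (p_nsuc e1 e3)))

theorem p_emp (i : α) (a : β) : PDef (fun c X (b : β → c.1.carrier) => ∀ d, d ∉ row (X i) (b a)) :=
  PDef.allP (P := fun c X b d => d ∉ row (X i) (b a)) (PDef.mem (Sum.inl a) (Sum.inr ()) i).not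

theorem p_krd (a : β) (i j : α) :
    PDef (fun c X b => KrdR (leOf c.1) (b a) (X i) (X j)) := by
  refine PDef.allP (P := fun c X b y => (y = b a ∧
      (((∀ d, d ∉ row (X i) (b a)) ∧ (∀ d, d ∉ row (X j) y)) ∨
        NSuc (leOf c.1) (row (X j) y) (row (X i) (b a)))) ∨
    (y ≠ b a ∧ ((¬ NLt (leOf c.1) (row (X i) y) (row (X i) (b a)) ∧ row (X j) y = row (X i) y) ∨
      (NLt (leOf c.1) (row (X i) y) (row (X i) (b a)) ∧
        NSuc (leOf c.1) (row (X j) y) (row (X i) (b a)))))) ?_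
  have e1 := p_row (α := α) (β := β ⊕ Unit) i (Sum.inl a)
  have e2 := p_row (α := α) (β := β ⊕ Unit) i (Sum.inr ())
  have e3 := p_row (α := α) (β := β ⊕ Unit) j (Sum.inr ())
  refine PDef.or (PDef.and (PDef.eqP _ _) (PDef.or (PDef.and (p_emp i (Sum.inl a))
    (p_emp j (Sum.inr ()))) (p_nsuc e3 e1))) ?_
  exact PDef.and (PDef.eqP _ _).not (PDef.or (PDef.and (p_nlt e2 e1).not (p_eqN e3 e2))
    (PDef.and (p_nlt e2 e1) (p_nsuc e3 e1)))

/-! guessed relations -/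

def Cc (c : nxCls.ι) (X Y : Set (Fin 2 → c.1.carrier)) : Prop :=
  @Structure.RelMap nxLang _ c.2 2 NxRel.C ![X, Y]

def Ec (c : nxCls.ι) (X : Set (Fin 2 → c.1.carrier)) (a : c.1.carrier) : Prop :=
  @Structure.RelMap nxLang _ c.2 2 NxRel.E ![X, pt 2 a]

def Tc (c : nxCls.ι) : Five c.1.carrier := fun X m l m' l' =>
  @Structure.RelMap nxLang _ c.2 5 NxRel.T ![pt 2 X, m, l, m', l']

def Uc (c : nxCls.ι) : Five c.1.carrier := fun X m l m' l' =>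
  @Structure.RelMap nxLang _ c.2 5 NxRel.U ![pt 2 X, m, l, m', l']

def Oc (c : nxCls.ι) : c.1.carrier → Set (Fin 2 → c.1.carrier) → Set (Fin 2 → c.1.carrier) →
    Set (Fin 2 → c.1.carrier) → Set (Fin 2 → c.1.carrier) → Five c.1.carrier :=
  fun X m l m' l' X1 m1 l1 m1' l1' =>
  @Structure.RelMap nxLang _ c.2 10 NxRel.O
    ![pt 2 X, m, l, m', l', pt 2 X1, m1, l1, m1', l1']

theorem p_C (i j : α) : PDef (fun c X (_ : β → c.1.carrier) => Cc c (X i) (X j)) := by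
  refine (PDef.rel NxRel.C ![Sum.inl i, Sum.inl j]).congr fun c X b => ?_
  rw [comp_vec2]
  exact Iff.rfl

theorem p_E (i : α) (a : β) : PDef (fun c X b => Ec c (X i) (b a)) := by
  refine (PDef.rel NxRel.E ![Sum.inl i, Sum.inr a]).congr fun c X b => ?_
  rw [comp_vec2]
  exact Iff.rfl

theorem comp_vec5 {A B : Type} (v : A → B) (a b c d e : A) :
    v ∘ ![a, b, c, d, e] = ![v a, v b, v c, v d, v e] := by
  funext i
  fin_cases i <;> rfl

theorem comp_vec10 {A B : Type} (v : A → B) (a b c d e a' b' c' d' e' : A) :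
    v ∘ ![a, b, c, d, e, a', b', c', d', e'] =
      ![v a, v b, v c, v d, v e, v a', v b', v c', v d', v e'] := by
  funext i
  fin_cases i <;> rfl

theorem p_T (x : β) (i j k l : α) :
    PDef (fun c X b => Tc c (b x) (X i) (X j) (X k) (X l)) := by
  refine (PDef.rel NxRel.T ![Sum.inr x, Sum.inl i, Sum.inl j, Sum.inl k, Sum.inl l]).congr
    fun c X b => ?_
  rw [comp_vec5]
  exact Iff.rfl

theorem p_U (x : β) (i j k l : α) :
    PDef (fun c X b => Uc c (b x) (X i) (X j) (X k) (X l)) := by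
  refine (PDef.rel NxRel.U ![Sum.inr x, Sum.inl i, Sum.inl j, Sum.inl k, Sum.inl l]).congr
    fun c X b => ?_
  rw [comp_vec5]
  exact Iff.rfl

theorem p_O (x : β) (i j k l : α) (x' : β) (i' j' k' l' : α) :
    PDef (fun c X b => Oc c (b x) (X i) (X j) (X k) (X l) (b x') (X i') (X j') (X k') (X l')) := by
  refine (PDef.rel NxRel.O ![Sum.inr x, Sum.inl i, Sum.inl j, Sum.inl k, Sum.inl l,
    Sum.inr x', Sum.inl i', Sum.inl j', Sum.inl k', Sum.inl l']).congr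
    fun c X b => ?_
  rw [comp_vec10]
  exact Iff.rfl

theorem p_step (m l : α) (a : β) (m' l' : α) :
    PDef (fun c X b => StepR (leOf c.1) (kbitOf c.1) (Cc c) (Ec c) (X m) (X l) (b a)
      (X m') (X l')) := by
  refine PDef.and (p_crd a m m') (PDef.or (PDef.and (PDef.eqS l' l) ?_)
    (PDef.and (p_E l a) (p_crd a l l')))
  refine PDef.exS (P := fun c X κ b => Cc c (X l) κ ∧
    ¬ NLt (leOf c.1) (row (X m) (b a)) (row κ (b a))) ?_
  exact PDef.and (p_C (Sum.inl l) (Sum.inr ()))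
    (p_nlt (p_row (Sum.inl m) a) (p_row (Sum.inr ()) a)).not

theorem p_cert : PDef (fun c (_ : α → nxCls.car c) (_ : β → c.1.carrier) =>
    CertR (leOf c.1) (kbitOf c.1) (Cc c) (Ec c)) := by
  refine PDef.and ?_ (PDef.and ?_ ?_)
  · refine (PDef.closed (γ := Fin 3) (δ := Empty) (P := fun c Y _ =>
      Cc c (Y 0) (Y 1) → Cc c (Y 0) (Y 2) → Y 1 = Y 2) ?_).congr fun c _ _ => ?_
    · exact (p_C 0 1).imp ((p_C 0 2).imp (PDef.eqS 1 2))
    · exact ⟨fun h X Y Z => h ![X, Y, Z] (fun e => e.elim), fun h Y _ => h _ _ _⟩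
  · refine (PDef.closed (γ := Fin 1) (δ := Fin 1) (P := fun c Y y =>
      Ec c (Y 0) (y 0) → ∃ Z : Fin 3 → Set (Fin 2 → c.1.carrier),
        CrdR (leOf c.1) (kbitOf c.1) (y 0) (Y 0) (Z 0) ∧ Cc c (Z 0) (Z 1) ∧
        KrdR (leOf c.1) (y 0) (Z 1) (Z 2) ∧ Cc c (Y 0) (Z 2) ∧
        NLt (leOf c.1) (row (Y 0) (y 0)) (row (Z 1) (y 0))) ?_).congr fun c _ _ => ?_
    · refine (p_E 0 0).imp (PDef.exSN (P := fun c Y Z y =>
        CrdR (leOf c.1) (kbitOf c.1) (y 0) (Y 0) (Z 0) ∧ Cc c (Z 0) (Z 1) ∧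
        KrdR (leOf c.1) (y 0) (Z 1) (Z 2) ∧ Cc c (Y 0) (Z 2) ∧
        NLt (leOf c.1) (row (Y 0) (y 0)) (row (Z 1) (y 0))) ?_)
      refine (p_crd 0 (Sum.inl 0) (Sum.inr 0)).and ((p_C (Sum.inr 0) (Sum.inr 1)).and
        ((p_krd 0 (Sum.inr 1) (Sum.inr 2)).and ((p_C (Sum.inl 0) (Sum.inr 2)).and ?_)))
      exact p_nlt (p_row (Sum.inl 0) 0) (p_row (Sum.inr 1) 0)
    · constructor
      · intro h X a hE
        obtain ⟨Z, hZ⟩ := h ![X] ![a] hE
        exact ⟨Z 0, Z 1, Z 2, hZ⟩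
      · intro h Y y hE
        obtain ⟨Z0, Z1, Z2, hZ⟩ := h _ _ hE
        exact ⟨![Z0, Z1, Z2], hZ⟩
  · refine (PDef.closed (γ := Fin 4) (δ := Fin 2) (P := fun c Y y =>
      Ec c (Y 0) (y 0) → CrdR (leOf c.1) (kbitOf c.1) (y 0) (Y 0) (Y 1) → Ec c (Y 1) (y 1) →
      CrdR (leOf c.1) (kbitOf c.1) (y 1) (Y 1) (Y 2) → Cc c (Y 2) (Y 3) → y 0 ≠ y 1 →
      row (Y 0) (y 0) = row (Y 0) (y 1) → row (Y 3) (y 0) = row (Y 3) (y 1) →
      NSuc (leOf c.1) (row (Y 0) (y 0)) (row (Y 3) (y 0)) →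
      Ec c (Y 0) (y 1) ∧ ∃ Z : Fin 2 → Set (Fin 2 → c.1.carrier),
        CrdR (leOf c.1) (kbitOf c.1) (y 1) (Y 0) (Z 0) ∧ Ec c (Z 0) (y 0) ∧
        KrdR (leOf c.1) (y 0) (Y 3) (Z 1) ∧ Cc c (Z 0) (Z 1)) ?_).congr fun c _ _ => ?_
    · refine (p_E 0 0).imp ((p_crd 0 0 1).imp ((p_E 1 1).imp ((p_crd 1 1 2).imp ((p_C 2 3).imp
        ((PDef.eqP 0 1).not.imp ((p_eqN (p_row 0 0) (p_row 0 1)).imp
        ((p_eqN (p_row 3 0) (p_row 3 1)).imp ((p_nsuc (p_row 0 0) (p_row 3 0)).imp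
        ((p_E 0 1).and (PDef.exSN (P := fun c Y Z y =>
        CrdR (leOf c.1) (kbitOf c.1) (y 1) (Y 0) (Z 0) ∧ Ec c (Z 0) (y 0) ∧
        KrdR (leOf c.1) (y 0) (Y 3) (Z 1) ∧ Cc c (Z 0) (Z 1)) ?_))))))))))
      exact (p_crd 1 (Sum.inl 0) (Sum.inr 0)).and ((p_E (Sum.inr 0) 0).and
        ((p_krd 0 (Sum.inl 3) (Sum.inr 1)).and (p_C (Sum.inr 0) (Sum.inr 1))))
    · constructor
      · intro h X a c' Y Z κ i1 i2 i3 i4 i5 i6 i7 i8 i9
        obtain ⟨j1, Z, j2⟩ := h ![X, Y, Z, κ] ![a, c'] i1 i2 i3 i4 i5 i6 i7 i8 i9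
        exact ⟨j1, Z 0, Z 1, j2⟩
      · intro h Y y i1 i2 i3 i4 i5 i6 i7 i8 i9
        obtain ⟨j1, Z0, Z1, j2⟩ := h _ _ _ _ _ _ i1 i2 i3 i4 i5 i6 i7 i8 i9
        exact ⟨j1, ![Z0, Z1], j2⟩

theorem p_acc (g : Bool) : PDef (fun c (_ : α → nxCls.car c) (_ : β → c.1.carrier) =>
    AccR (leOf c.1) (kbitOf c.1) (Cc c) (Ec c) (gramOf c.1 g) (Tc c) (Oc c)) := by
  refine PDef.and ?_ (PDef.and ?_ ?_)
  · refine (PDef.closed (γ := Fin 4) (δ := Fin 1) (P := fun c Y y =>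
      Tc c (y 0) (Y 0) (Y 1) (Y 2) (Y 3) →
      ((gramOf c.1 g).eps (y 0) ∧ Y 0 = Y 2 ∧ Y 1 = Y 3) ∨
      (∃ a, (gramOf c.1 g).ter (y 0) a ∧
        StepR (leOf c.1) (kbitOf c.1) (Cc c) (Ec c) (Y 0) (Y 1) a (Y 2) (Y 3)) ∨
      (∃ z : Fin 2 → c.1.carrier, ∃ Z : Fin 2 → Set (Fin 2 → c.1.carrier),
        (gramOf c.1 g).bin (y 0) (z 0) (z 1) ∧ Tc c (z 0) (Y 0) (Y 1) (Z 0) (Z 1) ∧
        Tc c (z 1) (Z 0) (Z 1) (Y 2) (Y 3) ∧
        Oc c (z 0) (Y 0) (Y 1) (Z 0) (Z 1) (y 0) (Y 0) (Y 1) (Y 2) (Y 3) ∧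
        Oc c (z 1) (Z 0) (Z 1) (Y 2) (Y 3) (y 0) (Y 0) (Y 1) (Y 2) (Y 3))) ?_).congr
        fun c _ _ => ?_
    · refine (p_T 0 0 1 2 3).imp (PDef.or ((p_eps g 0).and ((PDef.eqS 0 2).and (PDef.eqS 1 3)))
        (PDef.or ?_ ?_))
      · refine PDef.exP (P := fun c Y y a => (gramOf c.1 g).ter (y 0) a ∧
          StepR (leOf c.1) (kbitOf c.1) (Cc c) (Ec c) (Y 0) (Y 1) a (Y 2) (Y 3)) ?_
        exact (p_ter g (Sum.inl 0) (Sum.inr ())).and (p_step 0 1 (Sum.inr ()) 2 3)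
      · refine PDef.exPN (P := fun c Y y z => ∃ Z : Fin 2 → Set (Fin 2 → c.1.carrier),
          (gramOf c.1 g).bin (y 0) (z 0) (z 1) ∧ Tc c (z 0) (Y 0) (Y 1) (Z 0) (Z 1) ∧
          Tc c (z 1) (Z 0) (Z 1) (Y 2) (Y 3) ∧
          Oc c (z 0) (Y 0) (Y 1) (Z 0) (Z 1) (y 0) (Y 0) (Y 1) (Y 2) (Y 3) ∧
          Oc c (z 1) (Z 0) (Z 1) (Y 2) (Y 3) (y 0) (Y 0) (Y 1) (Y 2) (Y 3)) ?_
        refine PDef.exSN (P := fun c Y Z y =>
          (gramOf c.1 g).bin (y (Sum.inl 0)) (y (Sum.inr 0)) (y (Sum.inr 1)) ∧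
          Tc c (y (Sum.inr 0)) (Y 0) (Y 1) (Z 0) (Z 1) ∧
          Tc c (y (Sum.inr 1)) (Z 0) (Z 1) (Y 2) (Y 3) ∧
          Oc c (y (Sum.inr 0)) (Y 0) (Y 1) (Z 0) (Z 1) (y (Sum.inl 0)) (Y 0) (Y 1) (Y 2) (Y 3) ∧
          Oc c (y (Sum.inr 1)) (Z 0) (Z 1) (Y 2) (Y 3) (y (Sum.inl 0)) (Y 0) (Y 1) (Y 2) (Y 3)) ?_
        refine (p_bin g _ _ _).and ((p_T _ (Sum.inl 0) (Sum.inl 1) (Sum.inr 0) (Sum.inr 1)).and
          ((p_T _ (Sum.inr 0) (Sum.inr 1) (Sum.inl 2) (Sum.inl 3)).and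
          ((p_O _ (Sum.inl 0) (Sum.inl 1) (Sum.inr 0) (Sum.inr 1) _ (Sum.inl 0) (Sum.inl 1)
            (Sum.inl 2) (Sum.inl 3)).and
          (p_O _ (Sum.inr 0) (Sum.inr 1) (Sum.inl 2) (Sum.inl 3) _ (Sum.inl 0) (Sum.inl 1)
            (Sum.inl 2) (Sum.inl 3)))))
    · constructor
      · intro h X m l m' l' hT
        rcases h ![m, l, m', l'] ![X] hT with h1 | h1 | ⟨z, Z, h1⟩
        · exact Or.inl h1
        · exact Or.inr (Or.inl h1)
        · exact Or.inr (Or.inr ⟨z 0, z 1, Z 0, Z 1, h1⟩)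
      · intro h Y y hT
        rcases h _ _ _ _ _ hT with h1 | h1 | ⟨z0, z1, Z0, Z1, h1⟩
        · exact Or.inl h1
        · exact Or.inr (Or.inl h1)
        · exact Or.inr (Or.inr ⟨![z0, z1], ![Z0, Z1], h1⟩)
  · refine (PDef.closed (γ := Fin 4) (δ := Fin 1) (P := fun c Y y =>
      ¬ Oc c (y 0) (Y 0) (Y 1) (Y 2) (Y 3) (y 0) (Y 0) (Y 1) (Y 2) (Y 3)) ?_).congr
        fun c _ _ => ?_
    · exact (p_O 0 0 1 2 3 0 0 1 2 3).not
    · exact ⟨fun h X m l m' l' => h ![m, l, m', l'] ![X], fun h Y y => h _ _ _ _ _⟩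
  · refine (PDef.closed (γ := Fin 12) (δ := Fin 3) (P := fun c Y y =>
      Oc c (y 0) (Y 0) (Y 1) (Y 2) (Y 3) (y 1) (Y 4) (Y 5) (Y 6) (Y 7) →
      Oc c (y 1) (Y 4) (Y 5) (Y 6) (Y 7) (y 2) (Y 8) (Y 9) (Y 10) (Y 11) →
      Oc c (y 0) (Y 0) (Y 1) (Y 2) (Y 3) (y 2) (Y 8) (Y 9) (Y 10) (Y 11)) ?_).congr
        fun c _ _ => ?_
    · exact (p_O 0 0 1 2 3 1 4 5 6 7).imp ((p_O 1 4 5 6 7 2 8 9 10 11).imp
        (p_O 0 0 1 2 3 2 8 9 10 11))
    · constructor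
      · intro h X m l m' l' X1 m1 l1 m1' l1' X2 m2 l2 m2' l2'
        exact h ![m, l, m', l', m1, l1, m1', l1', m2, l2, m2', l2'] ![X, X1, X2]
      · intro h Y y
        exact h _ _ _ _ _ _ _ _ _ _ _ _ _ _ _

theorem p_clo (g : Bool) : PDef (fun c (_ : α → nxCls.car c) (_ : β → c.1.carrier) =>
    CloR (leOf c.1) (kbitOf c.1) (Cc c) (Ec c) (gramOf c.1 g) (Uc c)) := by
  refine PDef.and ?_ (PDef.and ?_ ?_)
  · refine (PDef.closed (γ := Fin 2) (δ := Fin 1) (P := fun c Y y =>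
      (gramOf c.1 g).eps (y 0) → Uc c (y 0) (Y 0) (Y 1) (Y 0) (Y 1)) ?_).congr fun c _ _ => ?_
    · exact (p_eps g 0).imp (p_U 0 0 1 0 1)
    · exact ⟨fun h X m l => h ![m, l] ![X], fun h Y y => h _ _ _⟩
  · refine (PDef.closed (γ := Fin 4) (δ := Fin 2) (P := fun c Y y =>
      (gramOf c.1 g).ter (y 0) (y 1) →
      StepR (leOf c.1) (kbitOf c.1) (Cc c) (Ec c) (Y 0) (Y 1) (y 1) (Y 2) (Y 3) →
      Uc c (y 0) (Y 0) (Y 1) (Y 2) (Y 3)) ?_).congr fun c _ _ => ?_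
    · exact (p_ter g 0 1).imp ((p_step 0 1 1 2 3).imp (p_U 0 0 1 2 3))
    · exact ⟨fun h X a m l m' l' => h ![m, l, m', l'] ![X, a], fun h Y y => h _ _ _ _ _ _⟩
  · refine (PDef.closed (γ := Fin 6) (δ := Fin 3) (P := fun c Y y =>
      (gramOf c.1 g).bin (y 0) (y 1) (y 2) → Uc c (y 1) (Y 0) (Y 1) (Y 2) (Y 3) →
      Uc c (y 2) (Y 2) (Y 3) (Y 4) (Y 5) → Uc c (y 0) (Y 0) (Y 1) (Y 4) (Y 5)) ?_).congr
        fun c _ _ => ?_
    · exact (p_bin g 0 1 2).imp ((p_U 1 0 1 2 3).imp ((p_U 2 2 3 4 5).imp (p_U 0 0 1 4 5)))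
    · exact ⟨fun h X Y Z m l m1 l1 m2 l2 => h ![m, l, m1, l1, m2, l2] ![X, Y, Z],
        fun h Y y => h _ _ _ _ _ _ _ _ _⟩

theorem p_neq (g : Bool) : PDef (fun c (_ : α → nxCls.car c) (_ : β → c.1.carrier) =>
    NeqR (leOf c.1) (kbitOf c.1) (gramOf c.1 g) (gramOf c.1 (!g)) (Cc c) (Ec c) (Tc c) (Uc c)
      (Oc c)) := by
  refine PDef.and p_cert (PDef.and (p_acc g) (PDef.and (p_clo (!g)) ?_))
  refine (PDef.exSN (γ := Fin 3) (P := fun c _ Z (_ : β → c.1.carrier) =>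
    (∀ y : Fin 2 → c.1.carrier, ¬ In (Z 1) (y 0) (y 1)) ∧ (∀ a, row (Z 2) a = kbitOf c.1) ∧
    Cc c (Z 0) (Z 2) ∧ (∃ S mf, (gramOf c.1 g).start S ∧ Tc c S (Z 1) (Z 1) mf (Z 0)) ∧
    (∀ S mf, (gramOf c.1 (!g)).start S → ¬ Uc c S (Z 1) (Z 1) mf (Z 0))) ?_).congr
      fun c _ _ => ?_
  · refine PDef.and ?_ (PDef.and ?_ (PDef.and (p_C _ _) (PDef.and ?_ ?_)))
    · exact PDef.allPN (δ := Fin 2) (P := fun c X _ y => ¬ In (X (Sum.inr 1)) (y 0) (y 1))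
        (PDef.mem (Sum.inr 0) (Sum.inr 1) (Sum.inr 1)).not
    · exact PDef.allP (P := fun c X _ a => row (X (Sum.inr 2)) a = kbitOf c.1)
        (p_eqN (p_row (Sum.inr 2) (Sum.inr ())) p_K)
    · refine PDef.exP (P := fun c X _ S => ∃ mf, (gramOf c.1 g).start S ∧
        Tc c S (X (Sum.inr 1)) (X (Sum.inr 1)) mf (X (Sum.inr 0))) ?_
      refine PDef.exS (P := fun c X mf y => (gramOf c.1 g).start (y (Sum.inr ())) ∧
        Tc c (y (Sum.inr ())) (X (Sum.inr 1)) (X (Sum.inr 1)) mf (X (Sum.inr 0))) ?_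
      exact (p_start g _).and (p_T _ (Sum.inl (Sum.inr 1)) (Sum.inl (Sum.inr 1)) (Sum.inr ())
        (Sum.inl (Sum.inr 0)))
    · refine PDef.allP (P := fun c X _ S => ∀ mf, (gramOf c.1 (!g)).start S →
        ¬ Uc c S (X (Sum.inr 1)) (X (Sum.inr 1)) mf (X (Sum.inr 0))) ?_
      refine PDef.allS (P := fun c X mf y => (gramOf c.1 (!g)).start (y (Sum.inr ())) →
        ¬ Uc c (y (Sum.inr ())) (X (Sum.inr 1)) (X (Sum.inr 1)) mf (X (Sum.inr 0))) ?_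
      exact (p_start (!g) _).imp (p_U _ (Sum.inl (Sum.inr 1)) (Sum.inl (Sum.inr 1)) (Sum.inr ())
        (Sum.inl (Sum.inr 0))).not
  · constructor
    · rintro ⟨Z, h1, h2⟩
      exact ⟨Z 0, Z 1, Z 2, fun a b => h1 ![a, b], h2⟩
    · rintro ⟨Z0, Z1, Z2, h1, h2⟩
      exact ⟨![Z0, Z1, Z2], fun y => h1 _ _, h2⟩

end

end Pool.Agent.H92.Simon
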